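import Mathlib

/-!
# Unital lattice homomorphisms between spaces of continuous functions
-/

namespace ProjBL

open Set Topology

theorem continuous_of_comp {A K : Type*} [TopologicalSpace A] [TopologicalSpace K] [CompactSpace K]
    [T2Space K] {φ : A → K} (h : ∀ f : C(K, ℝ), Continuous fun a => f (φ a)) : Continuous φ := by
  rw [continuous_iff_continuousAt]
  intro a
  rw [ContinuousAt, (nhds_basis_opens _).tendsto_right_iff]
  rintro U ⟨haU, hU⟩
  obtain ⟨f, f0, f1, -⟩ := exists_continuous_zero_one_of_isClosed hU.isClosed_compl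
    (isClosed_singleton (x := φ a)) (by simpa using haU)
  have h1 : f (φ a) = 1 := f1 rfl
  have h2 : {a' | (1 / 2 : ℝ) < f (φ a')} ∈ 𝓝 a :=
    (isOpen_lt continuous_const (h f)).mem_nhds (by
      change (1 / 2 : ℝ) < f (φ a); rw [h1]; norm_num)
  filter_upwards [h2] with a' ha'
  by_contra hcon
  have h3 : f (φ a') = 0 := f0 hcon
  change (1 / 2 : ℝ) < f (φ a') at ha'
  rw [h3] at ha'
  norm_num at ha'

section char

variable {K : Type*} [TopologicalSpace K] {τ : C(K, ℝ) →ₗ[ℝ] ℝ}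

theorem char_mono (hs : ∀ f g, τ (f ⊔ g) = τ f ⊔ τ g) {f g : C(K, ℝ)} (h : f ≤ g) :
    τ f ≤ τ g := by
  have := hs f g
  rw [sup_eq_right.mpr h] at this
  exact sup_eq_right.mp this.symm

theorem char_abs (hs : ∀ f g, τ (f ⊔ g) = τ f ⊔ τ g) (f : C(K, ℝ)) : τ |f| = |τ f| := by
  change τ (f ⊔ -f) = τ f ⊔ -τ f
  rw [hs, map_neg]

theorem exists_point [CompactSpace K] (h1 : τ 1 = 1)
    (hs : ∀ f g, τ (f ⊔ g) = τ f ⊔ τ g) : ∃ x, ∀ f : C(K, ℝ), τ f = f x := by
  classical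
  by_contra hcon
  push Not at hcon
  choose F hF using hcon
  rcases isEmpty_or_nonempty K with hK | hK
  · have : (1 : C(K, ℝ)) = 0 := by ext x; exact (hK.false x).elim
    rw [this, map_zero] at h1
    exact zero_ne_one h1
  let G : K → C(K, ℝ) := fun x => |F x - (τ (F x)) • (1 : C(K, ℝ))|
  have hG0 : ∀ x, τ (G x) = 0 := by
    intro x
    rw [char_abs hs, map_sub, map_smul, h1, smul_eq_mul, mul_one, sub_self, abs_zero]
  have hGpos : ∀ x, 0 < G x x := by
    intro x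
    change 0 < |F x x - (τ (F x)) * 1|
    rw [mul_one]
    exact abs_pos.mpr (sub_ne_zero.mpr (hF x).symm)
  have hGnn : ∀ x y, 0 ≤ G x y := fun x y => abs_nonneg _
  obtain ⟨t, ht⟩ := isCompact_univ.elim_finite_subcover (fun x => {y | 0 < G x y})
    (fun x => isOpen_lt continuous_const (G x).continuous)
    (fun x _ => mem_iUnion.mpr ⟨x, hGpos x⟩)
  set S : C(K, ℝ) := ∑ x ∈ t, G x with hS
  have hSpos : ∀ y, 0 < S y := by
    intro y
    obtain ⟨x, hx, hxy⟩ := mem_iUnion₂.mp (ht (mem_univ y))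
    rw [hS, ContinuousMap.sum_apply]
    exact Finset.sum_pos' (fun x _ => hGnn x y) ⟨x, hx, hxy⟩
  obtain ⟨y0, -, hy0⟩ := isCompact_univ.exists_isMinOn univ_nonempty S.continuous.continuousOn
  have hle : (S y0) • (1 : C(K, ℝ)) ≤ S := by
    intro y
    change S y0 * 1 ≤ S y
    rw [mul_one]
    exact hy0 (mem_univ y)
  have := char_mono hs hle
  rw [map_smul, h1, smul_eq_mul, mul_one, hS, map_sum, Finset.sum_eq_zero (fun x _ => hG0 x)] at this
  exact absurd (hSpos y0) (not_lt.mpr (by rw [hS]; exact this))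

end char

theorem exists_map {K L : Type*} [TopologicalSpace K] [CompactSpace K] [T2Space K]
    [TopologicalSpace L] (T : C(K, ℝ) →ₗ[ℝ] C(L, ℝ)) (h1 : T 1 = 1)
    (hs : ∀ f g, T (f ⊔ g) = T f ⊔ T g) : ∃ φ : C(L, K), ∀ f, T f = f.comp φ := by
  have hp : ∀ l : L, ∃ x, ∀ f : C(K, ℝ), T f l = f x := by
    intro l
    let ev : C(L, ℝ) →ₗ[ℝ] ℝ :=
      { toFun := fun g => g l
        map_add' := fun _ _ => rfl
        map_smul' := fun _ _ => rfl }
    exact exists_point (τ := ev.comp T) (by change T 1 l = 1; rw [h1]; rfl)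
      (fun f g => by change T (f ⊔ g) l = _; rw [hs]; rfl)
  choose φ hφ using hp
  refine ⟨⟨φ, continuous_of_comp (fun f => ?_)⟩, fun f => ?_⟩
  · have : (fun l => f (φ l)) = T f := by ext l; exact (hφ l f).symm
    rw [this]; exact (T f).continuous
  · ext l; exact hφ l f

/-- Factorisation of a lattice homomorphism through a representation of a principal ideal. -/
theorem exists_factor {K L Y : Type*} [TopologicalSpace K] [CompactSpace K] [T2Space K]
    [TopologicalSpace L] [CompactSpace L] [NormedAddCommGroup Y] [NormedSpace ℝ Y] [Lattice Y]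
    [IsOrderedAddMonoid Y] [PosSMulMono ℝ Y]
    (Ψ : C(L, ℝ) →ₗ[ℝ] Y) (hΨs : ∀ f g, Ψ (f ⊔ g) = Ψ f ⊔ Ψ g) (hΨi : Function.Injective Ψ)
    {v : Y} (hΨ1 : Ψ 1 = v) (hΨr : ∀ (y : Y) (c : ℝ), |y| ≤ c • v → ∃ f, Ψ f = y)
    (A : C(K, ℝ) →ₗ[ℝ] Y) (hAs : ∀ f g, A (f ⊔ g) = A f ⊔ A g) (hA1 : A 1 = v) :
    ∃ φ : C(L, K), ∀ f, A f = Ψ (f.comp φ) := by
  have hmono : ∀ {f g : C(K, ℝ)}, f ≤ g → A f ≤ A g := by
    intro f g h
    have := hAs f g
    rw [sup_eq_right.mpr h] at this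
    exact sup_eq_right.mp this.symm
  have habs : ∀ f, |A f| = A |f| := by
    intro f
    change A f ⊔ -A f = A (f ⊔ -f)
    rw [hAs, map_neg]
  have hex : ∀ f : C(K, ℝ), ∃ g, Ψ g = A f := by
    intro f
    refine hΨr _ ‖f‖ ?_
    rw [habs, ← hA1, ← map_smul]
    refine hmono (fun x => ?_)
    change |f x| ≤ ‖f‖ * 1
    rw [mul_one, ← Real.norm_eq_abs]
    exact f.norm_coe_le_norm x
  choose t ht using hex
  let T : C(K, ℝ) →ₗ[ℝ] C(L, ℝ) :=
    { toFun := t
      map_add' := fun f g => hΨi (by rw [ht, map_add, map_add, ht, ht])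
      map_smul' := fun a f => hΨi (by rw [ht, map_smul, map_smul, ht]; rfl) }
  obtain ⟨φ, hφ⟩ := exists_map T (hΨi (by change Ψ (t 1) = _; rw [ht, hA1, hΨ1]))
    (fun f g => hΨi (by change Ψ (t _) = Ψ (t _ ⊔ t _); rw [hΨs, ht, ht, ht, hAs]))
  refine ⟨φ, fun f => ?_⟩
  rw [← hφ f]
  exact (ht f).symm

end ProjBL
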