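import Pool.Agent.Work.MP_dca501_an.ExtStage

/-!
# Controlled extension
-/

namespace ProjBL

open Set Topology

universe u

theorem cep_of_ext (S : Stage) (H : ∀ k : ℕ, Ext.{u} {x | S.ρ x ≤ 2 ^ k - 1}
    {x | S.ρ x ≤ 2 ^ (k + 1) - 1}) (L : Type u) [TopologicalSpace L] [CompactSpace L] [T2Space L]
    (C : Set L) (hC : IsClosed C) (φ : L → S.M) (hφ : ContinuousOn φ C) (g : L → ℝ)
    (hg : Continuous g) (hg0 : ∀ l, 0 ≤ g l) (hb : ∀ l ∈ C, S.ρ (φ l) ≤ g l) :
    ∃ ψ : L → S.M, Continuous ψ ∧ EqOn ψ φ C ∧ ∀ l, S.ρ (ψ l) ≤ 4 * g l + 3 := by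
  classical
  let T : ℕ → Set L := fun k => {l | g l ≤ 2 ^ k - 1}
  have cT : ∀ k, IsClosed (T k) := fun k => isClosed_le hg continuous_const
  have hTmono : ∀ k, T k ⊆ T (k + 1) := by
    intro k l hl
    have h1 : (0 : ℝ) < 2 ^ k := by positivity
    have h2 : (2 : ℝ) ^ (k + 1) = 2 * 2 ^ k := by ring
    have h3 : g l ≤ 2 ^ k - 1 := hl
    change g l ≤ 2 ^ (k + 1) - 1
    linarith
  have key : ∀ k : ℕ, ∃ ψ : L → S.M, ContinuousOn ψ (T k ∪ C) ∧ EqOn ψ φ C ∧
      ∀ j ≤ k, ∀ l, g l ≤ 2 ^ j - 1 → S.ρ (ψ l) ≤ 2 ^ (j + 1) - 1 := by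
    intro k
    induction k with
    | zero =>
      obtain ⟨ψ, c, m, e⟩ := (H 0).on (C := C ∩ T 0) (D := T 0) (hC.inter (cT 0)) (cT 0)
        inter_subset_right (hφ.mono inter_subset_left)
        (fun l hl => le_trans (hb l hl.1) hl.2)
      refine ⟨(T 0).piecewise ψ φ, glue (cT 0) hC c hφ (fun l hl => e ⟨hl.2, hl.1⟩), ?_, ?_⟩
      · intro l hl
        by_cases h : l ∈ T 0
        · rw [piecewise_eq_of_mem _ _ _ h]; exact e ⟨hl, h⟩
        · rw [piecewise_eq_of_notMem _ _ _ h]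
      · intro j hj l hl
        obtain rfl : j = 0 := by omega
        have h : l ∈ T 0 := hl
        rw [piecewise_eq_of_mem _ _ _ h]
        exact m h
    | succ k ih =>
      obtain ⟨ψ1, c1, e1, b1⟩ := ih
      obtain ⟨ψ, c, m, e⟩ := (H (k + 1)).on (C := T k ∪ (C ∩ T (k + 1))) (D := T (k + 1))
        ((cT k).union (hC.inter (cT (k + 1)))) (cT (k + 1))
        (union_subset (hTmono k) inter_subset_right) (φ := ψ1)
        (c1.mono (union_subset_union_right _ inter_subset_left)) (by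
          rintro l (hl | hl)
          · exact b1 k le_rfl l hl
          · change S.ρ (ψ1 l) ≤ _
            rw [e1 hl.1]
            exact le_trans (hb l hl.1) hl.2)
      have c1C : ContinuousOn ψ1 C := c1.mono subset_union_right
      refine ⟨(T (k + 1)).piecewise ψ ψ1,
        glue (cT (k + 1)) hC c c1C (fun l hl => e (Or.inr ⟨hl.2, hl.1⟩)), ?_, ?_⟩
      · intro l hl
        by_cases h : l ∈ T (k + 1)
        · rw [piecewise_eq_of_mem _ _ _ h, e (Or.inr ⟨hl, h⟩), e1 hl]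
        · rw [piecewise_eq_of_notMem _ _ _ h, e1 hl]
      · intro j hj l hl
        rcases Nat.lt_or_ge j (k + 1) with h | h
        · have hjk : j ≤ k := by omega
          have hlk : l ∈ T k := by
            have h1 : (2 : ℝ) ^ j ≤ 2 ^ k := pow_le_pow_right₀ (by norm_num) hjk
            change g l ≤ 2 ^ k - 1
            linarith
          rw [piecewise_eq_of_mem _ _ _ (hTmono k hlk), e (Or.inl hlk)]
          exact b1 j hjk l hl
        · obtain rfl : j = k + 1 := by omega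
          have h : l ∈ T (k + 1) := hl
          rw [piecewise_eq_of_mem _ _ _ h]
          exact m h
  obtain ⟨B, hB⟩ : ∃ B, ∀ l, g l ≤ B := by
    obtain ⟨B, hB⟩ := (isCompact_range hg).bddAbove
    exact ⟨B, fun l => hB ⟨l, rfl⟩⟩
  obtain ⟨k, hk⟩ := pow_unbounded_of_one_lt (B + 1) (by norm_num : (1 : ℝ) < 2)
  obtain ⟨ψ, c, e, b⟩ := key k
  have hTk : T k = univ := eq_univ_of_forall (fun l => by
    change g l ≤ 2 ^ k - 1
    linarith [hB l])
  rw [hTk, univ_union, continuousOn_univ] at c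
  refine ⟨ψ, c, e, fun l => ?_⟩
  have hex : ∃ j, g l ≤ 2 ^ j - 1 := ⟨k, by linarith [hB l]⟩
  have hj := Nat.find_spec hex
  have hjk : Nat.find hex ≤ k := Nat.find_min' hex (by linarith [hB l])
  have h1 := b _ hjk l hj
  rcases Nat.eq_zero_or_pos (Nat.find hex) with h0 | h0
  · rw [h0] at h1
    norm_num at h1
    linarith [hg0 l]
  · obtain ⟨j, hj'⟩ : ∃ j, Nat.find hex = j + 1 := ⟨Nat.find hex - 1, by omega⟩
    have h2 : ¬ g l ≤ 2 ^ j - 1 := Nat.find_min hex (by omega)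
    rw [hj'] at h1
    have h3 : (2 : ℝ) ^ (j + 1 + 1) = 4 * 2 ^ j := by ring
    rw [h3] at h1
    push Not at h2
    linarith

theorem cep_stage (n : ℕ) (L : Type u) [TopologicalSpace L] [CompactSpace L] [T2Space L]
    (C : Set L) (hC : IsClosed C) (φ : L → (stage n).M) (hφ : ContinuousOn φ C) (g : L → ℝ)
    (hg : Continuous g) (hg0 : ∀ l, 0 ≤ g l) (hb : ∀ l ∈ C, (stage n).ρ (φ l) ≤ g l) :
    ∃ ψ : L → (stage n).M, Continuous ψ ∧ EqOn ψ φ C ∧ ∀ l, (stage n).ρ (ψ l) ≤ 4 * g l + 3 :=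
  cep_of_ext (stage n) (ext_stage n) L C hC φ hφ g hg hg0 hb

end ProjBL
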