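import Mathlib

/-!
# Projective Banach lattices: definitions

`BLat.{u}` bundles a real Banach lattice: a real Banach space with a vector lattice order whose
norm is a lattice norm (`|x| ≤ |y| → ‖x‖ ≤ ‖y‖`).
-/

namespace ProjBL

universe u v w

/-- A (bundled) real Banach lattice: a real Banach space with a lattice order compatible with
addition and with multiplication by nonnegative scalars, whose norm is a lattice norm
(`|x| ≤ |y| → ‖x‖ ≤ ‖y‖`). -/
structure BLat where
  carrier : Type u
  [nacg : NormedAddCommGroup carrier]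
  [nsp : NormedSpace ℝ carrier]
  [lat : Lattice carrier]
  [oam : IsOrderedAddMonoid carrier]
  [psm : PosSMulMono ℝ carrier]
  [sol : HasSolidNorm carrier]
  [cpl : CompleteSpace carrier]

instance : CoeSort BLat.{u} (Type u) := ⟨BLat.carrier⟩

attribute [instance] BLat.nacg BLat.nsp BLat.lat BLat.oam BLat.psm BLat.sol BLat.cpl

/-- A lattice homomorphism: a linear map preserving finite suprema. -/
def IsLatHom {E F : Type*} [AddCommGroup E] [Module ℝ E] [Lattice E] [AddCommGroup F] [Module ℝ F]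
    [Lattice F] (T : E →ₗ[ℝ] F) : Prop :=
  ∀ x y, T (x ⊔ y) = T x ⊔ T y

/-- `Q : X → Y` is (up to an isometric lattice isomorphism) the quotient map of `X` by the closed
ideal `J = ker Q`: it is a surjective lattice homomorphism and the norm of `Y` is the quotient
norm `‖y‖ = inf {‖x‖ : Q x = y}`. -/
structure IsLatQuot {X : BLat.{u}} {Y : BLat.{v}} (Q : X →ₗ[ℝ] Y) : Prop where
  hom : IsLatHom Q
  surj : Function.Surjective Q
  norm_eq : ∀ y : Y, ‖y‖ = sInf ((fun x : X => ‖x‖) '' {x | Q x = y})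

/-- `P` is isometrically projective: every lattice homomorphism `T` from `P` to a quotient `X/J`
has, for every `ε > 0`, a lift of norm at most `(1 + ε) ‖T‖`.  (Lattice homomorphisms between
Banach lattices are automatically bounded, so they are taken to be continuous linear maps.) -/
def IsometricallyProjective (P : BLat.{v}) : Prop :=
  ∀ (X Y : BLat.{u}) (Q : X →ₗ[ℝ] Y), IsLatQuot Q →
    ∀ T : P →L[ℝ] Y, IsLatHom (T : P →ₗ[ℝ] Y) → ∀ ε : ℝ, 0 < ε →
      ∃ T' : P →L[ℝ] X, IsLatHom (T' : P →ₗ[ℝ] X) ∧ (∀ p, Q (T' p) = T p) ∧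
        ‖T'‖ ≤ (1 + ε) * ‖T‖

/-- `P` is isomorphically projective: there is `lam ≥ 1` such that every lattice homomorphism `T`
from `P` to a quotient `X/J` has a lift of norm at most `lam ‖T‖`. -/
def IsomorphicallyProjective (P : BLat.{v}) : Prop :=
  ∃ lam : ℝ, 1 ≤ lam ∧ ∀ (X Y : BLat.{u}) (Q : X →ₗ[ℝ] Y), IsLatQuot Q →
    ∀ T : P →L[ℝ] Y, IsLatHom (T : P →ₗ[ℝ] Y) →
      ∃ T' : P →L[ℝ] X, IsLatHom (T' : P →ₗ[ℝ] X) ∧ (∀ p, Q (T' p) = T p) ∧
        ‖T'‖ ≤ lam * ‖T‖

/-- Two Banach lattices are isomorphic (as Banach lattices) if there is a linear bijection which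
is a lattice homomorphism. -/
def Isomorphic (P : BLat.{u}) (P' : BLat.{v}) : Prop :=
  ∃ S : P ≃ₗ[ℝ] P', IsLatHom (S : P →ₗ[ℝ] P')

end ProjBL
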