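import Mathlib

/-!
# Relative extension properties

`Ext S S'` : every continuous map from a closed subset of a compact Hausdorff space into `S`
extends to a continuous map of the whole space into `S'`.
-/

namespace ProjBL

open Set Topology

universe u v w

/-- Relative extension property. -/
def Ext {Z : Type v} [TopologicalSpace Z] (S S' : Set Z) : Prop :=
  ∀ (L : Type u) [TopologicalSpace L] [CompactSpace L] [T2Space L] (C : Set L), IsClosed C →
    ∀ φ : L → Z, ContinuousOn φ C → MapsTo φ C S →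
      ∃ ψ : L → Z, Continuous ψ ∧ (∀ l, ψ l ∈ S') ∧ EqOn ψ φ C

theorem glue {L : Type*} {Z : Type*} [TopologicalSpace L] [TopologicalSpace Z] {s t : Set L}
    {f g : L → Z} (hs : IsClosed s) (ht : IsClosed t) (hf : ContinuousOn f s)
    (hg : ContinuousOn g t) (h : EqOn f g (s ∩ t)) [DecidablePred (· ∈ s)] :
    ContinuousOn (s.piecewise f g) (s ∪ t) := by
  have h1 : ContinuousOn (s.piecewise f g) s :=
    hf.congr (fun x hx => by simp [hx])
  have h2 : ContinuousOn (s.piecewise f g) t :=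
    hg.congr (fun x hx => by
      by_cases hxs : x ∈ s
      · simp [hxs, h ⟨hxs, hx⟩]
      · simp [hxs])
  exact h1.union_of_isClosed h2 hs ht

/-- Extension over a closed subspace. -/
theorem Ext.on {Z : Type v} [TopologicalSpace Z] {S S' : Set Z} (h : Ext.{u} S S')
    {L : Type u} [TopologicalSpace L] [CompactSpace L] [T2Space L] {C D : Set L}
    (hC : IsClosed C) (hD : IsClosed D) (hCD : C ⊆ D) {φ : L → Z} (hφ : ContinuousOn φ C)
    (hm : MapsTo φ C S) :
    ∃ ψ : L → Z, ContinuousOn ψ D ∧ MapsTo ψ D S' ∧ EqOn ψ φ C := by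
  classical
  have : CompactSpace D := isCompact_iff_compactSpace.mp hD.isCompact
  obtain ⟨ψ, h1, h2, h3⟩ := h D (Subtype.val ⁻¹' C) (hC.preimage continuous_subtype_val)
    (fun d => φ d.1)
    (hφ.comp continuous_subtype_val.continuousOn (fun x hx => hx))
    (fun x hx => hm hx)
  refine ⟨fun l => if hl : l ∈ D then ψ ⟨l, hl⟩ else φ l, ?_, ?_, ?_⟩
  · rw [continuousOn_iff_continuous_domRestrict]
    convert h1 using 1
    ext x
    simp
  · intro l hl
    simp only [hl, dite_true]
    exact h2 _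
  · intro l hl
    have hl' : l ∈ D := hCD hl
    simp only [hl', dite_true]
    exact h3 (x := ⟨l, hl'⟩) hl

/-- The two piece lemma. -/
theorem Ext.union {Z : Type v} [MetricSpace Z] {A M M' : Set Z} (hA : IsClosed A)
    (hM : IsClosed M) (hAne : A.Nonempty) (hMne : M.Nonempty) (hAM : Ext.{u} (A ∩ M) (A ∩ M))
    (hAA : Ext.{u} A A) (hMM : Ext.{u} M M') : Ext.{u} (A ∪ M) (A ∪ M') := by
  classical
  intro L _ _ _ C hC φ hφ hm
  -- separating function
  let g : Z → ℝ := fun x => Metric.infDist x A - Metric.infDist x M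
  have hg : Continuous g := (Metric.continuous_infDist_pt A).sub (Metric.continuous_infDist_pt M)
  have hgA : ∀ x ∈ A ∪ M, g x ≤ 0 → x ∈ A := by
    intro x hx h
    rcases hx with hx | hx
    · exact hx
    · have h1 : Metric.infDist x M = 0 := Metric.infDist_zero_of_mem hx
      have h2 : Metric.infDist x A = 0 := le_antisymm (by simp only [g] at h; linarith)
        Metric.infDist_nonneg
      rw [hA.mem_iff_infDist_zero hAne]; exact h2
  have hgM : ∀ x ∈ A ∪ M, 0 ≤ g x → x ∈ M := by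
    intro x hx h
    rcases hx with hx | hx
    · have h1 : Metric.infDist x A = 0 := Metric.infDist_zero_of_mem hx
      have h2 : Metric.infDist x M = 0 := le_antisymm (by simp only [g] at h; linarith)
        Metric.infDist_nonneg
      rw [hM.mem_iff_infDist_zero hMne]; exact h2
    · exact hx
  -- Tietze
  obtain ⟨G, hG⟩ := ContinuousMap.exists_restrict_eq (Y := ℝ) hC
    ⟨fun l : C => g (φ l), hg.comp (continuousOn_iff_continuous_domRestrict.mp hφ)⟩
  have hG' : ∀ l ∈ C, G l = g (φ l) := fun l hl => congrFun (congrArg DFunLike.coe hG) ⟨l, hl⟩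
  set LA : Set L := {l | G l ≤ 0} with hLA
  set LM : Set L := {l | 0 ≤ G l} with hLM
  have cLA : IsClosed LA := isClosed_le G.continuous continuous_const
  have cLM : IsClosed LM := isClosed_le continuous_const G.continuous
  have hun : ∀ l, l ∈ LA ∨ l ∈ LM := fun l => le_total (G l) 0
  have hCA : ∀ l ∈ C ∩ LA, φ l ∈ A := fun l hl =>
    hgA _ (hm hl.1) (by rw [← hG' l hl.1]; exact hl.2)
  have hCM : ∀ l ∈ C ∩ LM, φ l ∈ M := fun l hl =>
    hgM _ (hm hl.1) (by rw [← hG' l hl.1]; exact hl.2)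
  -- step 1
  obtain ⟨ψ0, c0, m0, e0⟩ := hAM.on (C := C ∩ (LA ∩ LM)) (D := LA ∩ LM)
    (hC.inter (cLA.inter cLM)) (cLA.inter cLM) inter_subset_right
    (hφ.mono inter_subset_left) (fun l hl => ⟨hCA l ⟨hl.1, hl.2.1⟩, hCM l ⟨hl.1, hl.2.2⟩⟩)
  -- common map on the closed set (LA ∩ LM) ∪ C
  set φ1 : L → Z := (LA ∩ LM).piecewise ψ0 φ with hφ1
  have c1 : ContinuousOn φ1 ((LA ∩ LM) ∪ C) :=
    glue (cLA.inter cLM) hC c0 hφ (fun l hl => e0 ⟨hl.2, hl.1⟩)
  have hφ1C : EqOn φ1 φ C := by
    intro l hl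
    by_cases h : l ∈ LA ∩ LM
    · simp only [hφ1, h, piecewise_eq_of_mem]; exact e0 ⟨hl, h⟩
    · simp only [hφ1, h, not_false_eq_true, piecewise_eq_of_notMem]
  have hφ1I : EqOn φ1 ψ0 (LA ∩ LM) := fun l hl => by simp only [hφ1, hl, piecewise_eq_of_mem]
  -- step 2
  obtain ⟨ψM, cM, mM, eM⟩ := hMM.on (C := (LA ∩ LM) ∪ (C ∩ LM)) (D := LM)
    ((cLA.inter cLM).union (hC.inter cLM)) cLM
    (union_subset inter_subset_right inter_subset_right)
    (c1.mono (union_subset_union_right _ inter_subset_left))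
    (φ := φ1) (by
      rintro l (hl | hl)
      · rw [hφ1I hl]; exact (m0 hl).2
      · rw [hφ1C hl.1]; exact hCM l hl)
  obtain ⟨ψA, cA, mA, eA⟩ := hAA.on (C := (LA ∩ LM) ∪ (C ∩ LA)) (D := LA)
    ((cLA.inter cLM).union (hC.inter cLA)) cLA
    (union_subset inter_subset_left inter_subset_right)
    (c1.mono (union_subset_union_right _ inter_subset_left))
    (φ := φ1) (by
      rintro l (hl | hl)
      · rw [hφ1I hl]; exact (m0 hl).1
      · rw [hφ1C hl.1]; exact hCA l hl)
  refine ⟨LA.piecewise ψA ψM, ?_, ?_, ?_⟩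
  · have := glue cLA cLM cA cM (fun l hl => by rw [eA (Or.inl hl), eM (Or.inl hl)])
    rwa [show LA ∪ LM = univ from eq_univ_of_forall hun, continuousOn_univ] at this
  · intro l
    by_cases h : l ∈ LA
    · rw [piecewise_eq_of_mem _ _ _ h]; exact Or.inl (mA h)
    · rw [piecewise_eq_of_notMem _ _ _ h]
      exact Or.inr (mM ((hun l).resolve_left h))
  · intro l hl
    by_cases h : l ∈ LA
    · rw [piecewise_eq_of_mem _ _ _ h, eA (Or.inr ⟨hl, h⟩), hφ1C hl]
    · rw [piecewise_eq_of_notMem _ _ _ h]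
      have h' : l ∈ LM := (hun l).resolve_left h
      rw [eM (Or.inr ⟨hl, h'⟩), hφ1C hl]

/-- Images of compact planar sets with a retraction. -/
theorem Ext.image {Z : Type v} [TopologicalSpace Z] [T2Space Z] {S S' : Set ℂ} (hS : IsCompact S)
    (j : ℂ → Z) (hj : Continuous j) (hinj : InjOn j S) (r : ℂ → ℂ) (hr : Continuous r)
    (hr1 : ∀ z, r z ∈ S') (hr2 : ∀ z ∈ S, r z = z) : Ext.{u} (j '' S) (j '' S') := by
  classical
  intro L _ _ _ C hC φ hφ hm
  have : CompactSpace S := isCompact_iff_compactSpace.mp hS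
  let e : S → Z := fun s => j s.1
  have he : Continuous e := hj.comp continuous_subtype_val
  have heinj : Function.Injective e := fun a b h => Subtype.ext (hinj a.2 b.2 h)
  have hemb : IsClosedEmbedding e := he.isClosedEmbedding heinj
  -- the inverse on C
  have hex : ∀ l : C, ∃ s : S, e s = φ l := fun l => by
    obtain ⟨s, hs, h⟩ := hm l.2
    exact ⟨⟨s, hs⟩, h⟩
  choose k hk using hex
  have hkc : Continuous k := by
    rw [hemb.isEmbedding.isInducing.continuous_iff]
    have : e ∘ k = fun l : C => φ l := funext hk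
    rw [this]
    exact continuousOn_iff_continuous_domRestrict.mp hφ
  obtain ⟨G, hG⟩ := ContinuousMap.exists_restrict_eq (Y := ℂ) hC
    ⟨fun l : C => (k l : ℂ), continuous_subtype_val.comp hkc⟩
  have hG' : ∀ l (hl : l ∈ C), G l = k ⟨l, hl⟩ := fun l hl =>
    congrFun (congrArg DFunLike.coe hG) ⟨l, hl⟩
  refine ⟨fun l => j (r (G l)), hj.comp (hr.comp G.continuous), fun l => ⟨_, hr1 _, rfl⟩, ?_⟩
  intro l hl
  simp only
  rw [hG' l hl, hr2 _ (k ⟨l, hl⟩).2]
  exact hk ⟨l, hl⟩

/-- Transport along an embedding with a left inverse. -/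
theorem Ext.transport {Z : Type v} {W : Type w} [TopologicalSpace Z] [TopologicalSpace W]
    {S S' : Set Z} (h : Ext.{u} S S') (i : Z → W) (p : W → Z) (hi : Continuous i)
    (hp : Continuous p) (hpi : ∀ z, p (i z) = z) : Ext.{u} (i '' S) (i '' S') := by
  intro L _ _ _ C hC φ hφ hm
  obtain ⟨ψ, h1, h2, h3⟩ := h L C hC (fun l => p (φ l)) (hp.comp_continuousOn hφ) (by
    intro l hl
    obtain ⟨z, hz, hz'⟩ := hm hl
    change p (φ l) ∈ S
    rw [← hz', hpi]; exact hz)
  refine ⟨fun l => i (ψ l), hi.comp h1, fun l => ⟨_, h2 l, rfl⟩, ?_⟩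
  intro l hl
  obtain ⟨z, hz, hz'⟩ := hm hl
  change i (ψ l) = φ l
  rw [h3 hl]
  change i (p (φ l)) = φ l
  rw [← hz', hpi]

end ProjBL
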