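import Pool.Agent.Work.MP_dca501_an.Stage

/-!
# Extension properties of the stage spaces
-/

namespace ProjBL

open Set Topology Complex

universe u

theorem Ext.mono {Z : Type*} [TopologicalSpace Z] {S S' T T' : Set Z} (h : Ext.{u} S S')
    (h1 : T ⊆ S) (h2 : S' ⊆ T') : Ext.{u} T T' := by
  intro L _ _ _ C hC φ hφ hm
  obtain ⟨ψ, a, b, c⟩ := h L C hC φ hφ (fun l hl => h1 (hm hl))
  exact ⟨ψ, a, fun l => h2 (b l), c⟩

/-- left half disc -/
def SA : Set ℂ := {z | ‖z‖ ≤ 1 ∧ z.re ≤ 0}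
/-- right half disc -/
def SB : Set ℂ := {z | ‖z‖ ≤ 1 ∧ 0 ≤ z.re}
/-- left half of the segment -/
def arcA : Set ℂ := {z | dd z = 0 ∧ z.re ≤ 0}
/-- T-shaped tree in the right half disc -/
def TB : Set ℂ := {z | (‖z‖ ≤ 1 ∧ 0 ≤ z.re) ∧ (z.re = 0 ∨ dd z = 0)}

theorem isClosed_disc : IsClosed {z : ℂ | ‖z‖ ≤ 1} := isClosed_le continuous_norm continuous_const

theorem isCompact_disc : IsCompact {z : ℂ | ‖z‖ ≤ 1} := by
  have : {z : ℂ | ‖z‖ ≤ 1} = Metric.closedBall 0 1 := by ext z; simp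
  rw [this]; exact isCompact_closedBall _ _

theorem isCompact_SA : IsCompact SA :=
  isCompact_disc.inter_right (isClosed_le Complex.continuous_re continuous_const)

theorem isCompact_SB : IsCompact SB :=
  isCompact_disc.inter_right (isClosed_le continuous_const Complex.continuous_re)

theorem arcA_subset : arcA ⊆ SA := fun z hz => ⟨by linarith [norm_of_dd hz.1], hz.2⟩

theorem isCompact_arcA : IsCompact arcA :=
  isCompact_SA.of_isClosed_subset
    ((isClosed_eq continuous_dd continuous_const).inter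
      (isClosed_le Complex.continuous_re continuous_const)) arcA_subset

theorem TB_subset : TB ⊆ SB := fun _ hz => hz.1

theorem isCompact_TB : IsCompact TB := by
  refine isCompact_SB.inter_right ?_
  exact (isClosed_eq Complex.continuous_re continuous_const).union
    (isClosed_eq continuous_dd continuous_const)

theorem norm_le_of_re_zero {z : ℂ} (h : z.re = 0) : ‖z‖ = |z.im| := by
  have : z = (z.im : ℂ) * I := by apply Complex.ext <;> simp [h]
  rw [this, norm_mul, Complex.norm_real]; simp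

namespace Stage

variable (S : Stage)

theorem ext_disc : Ext.{u} (S.J '' Metric.sphere (0 : ℂ) 1) (S.J '' {z | ‖z‖ ≤ 1}) := by
  refine Ext.image (isCompact_sphere _ _) S.J S.continuous_J ?_ rad continuous_rad norm_rad ?_
  · refine S.J_injOn (fun z hz => (mem_sphere_zero_iff_norm.mp hz).le) ?_
    rintro ⟨h1, -⟩
    rw [mem_sphere_zero_iff_norm] at h1
    norm_num at h1
  · intro z hz
    exact rad_eq (mem_sphere_zero_iff_norm.mp hz).le

theorem injOn_SA : InjOn S.J SA := by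
  refine S.J_injOn (fun z hz => hz.1) ?_
  rintro ⟨h1, -⟩
  have := h1.2
  norm_num at this

theorem injOn_SB : InjOn S.J SB := by
  refine S.J_injOn (fun z hz => hz.1) ?_
  rintro ⟨-, h1⟩
  have := h1.2
  norm_num at this

theorem ext_SA : Ext.{u} (S.J '' SA) (S.J '' SA) := by
  refine Ext.image isCompact_SA S.J S.continuous_J S.injOn_SA
    (fun z => rad (((min z.re 0 : ℝ) : ℂ) + z.im * I)) ?_ ?_ ?_
  · refine continuous_rad.comp ?_
    have := Complex.continuous_re
    have := Complex.continuous_im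
    fun_prop
  · intro z
    exact ⟨norm_rad _, rad_re_nonpos (by simp)⟩
  · intro z hz
    have : ((min z.re 0 : ℝ) : ℂ) + z.im * I = z := by
      rw [min_eq_left hz.2]; exact Complex.re_add_im z
    simp only [this]
    exact rad_eq hz.1

theorem ext_SB : Ext.{u} (S.J '' SB) (S.J '' SB) := by
  refine Ext.image isCompact_SB S.J S.continuous_J S.injOn_SB
    (fun z => rad (((max z.re 0 : ℝ) : ℂ) + z.im * I)) ?_ ?_ ?_
  · refine continuous_rad.comp ?_
    have := Complex.continuous_re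
    have := Complex.continuous_im
    fun_prop
  · intro z
    exact ⟨norm_rad _, rad_re_nonneg (by simp)⟩
  · intro z hz
    have : ((max z.re 0 : ℝ) : ℂ) + z.im * I = z := by
      rw [max_eq_left hz.2]; exact Complex.re_add_im z
    simp only [this]
    exact rad_eq hz.1

theorem ext_arcA : Ext.{u} (S.J '' arcA) (S.J '' arcA) := by
  refine Ext.image isCompact_arcA S.J S.continuous_J (S.injOn_SA.mono arcA_subset)
    (fun z => ((max (-(1 / 2)) (min z.re 0) : ℝ) : ℂ)) ?_ ?_ ?_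
  · have := Complex.continuous_re
    fun_prop
  · intro z
    have h1 : max (-(1 / 2)) (min z.re 0) ≤ 0 := max_le (by norm_num) (min_le_right _ _)
    have h2 : -(1 / 2) ≤ max (-(1 / 2)) (min z.re 0) := le_max_left _ _
    refine ⟨dd_eq_zero.mpr ⟨by simp, ?_⟩, ?_⟩
    · rw [Complex.ofReal_re, abs_le]; constructor <;> linarith
    · rw [Complex.ofReal_re]; exact h1
  · intro z hz
    obtain ⟨h1, h2⟩ := dd_eq_zero.mp hz.1
    have h3 := hz.2
    rw [min_eq_left h3, max_eq_right (abs_le.mp h2).1]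
    apply Complex.ext <;> simp [h1]

theorem ext_TB : Ext.{u} (S.J '' TB) (S.J '' TB) := by
  refine Ext.image isCompact_TB S.J S.continuous_J (S.injOn_SB.mono TB_subset)
    (fun z => ((min (1 / 2) (max 0 (max 0 z.re - |max (-1) (min 1 z.im)|)) : ℝ) : ℂ)
      + ((max 0 (max (-1) (min 1 z.im) - max 0 z.re)
        + min 0 (max (-1) (min 1 z.im) + max 0 z.re) : ℝ) : ℂ) * I) ?_ ?_ ?_
  · have := Complex.continuous_re
    have := Complex.continuous_im
    fun_prop
  · intro z
    set x : ℝ := max 0 z.re with hx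
    set y : ℝ := max (-1) (min 1 z.im) with hy
    have hx0 : 0 ≤ x := le_max_left _ _
    have hy1 : -1 ≤ y := le_max_left _ _
    have hy2 : y ≤ 1 := max_le (by norm_num) (min_le_left _ _)
    have hre : (((min (1 / 2) (max 0 (x - |y|)) : ℝ) : ℂ)
      + ((max 0 (y - x) + min 0 (y + x) : ℝ) : ℂ) * I).re = min (1 / 2) (max 0 (x - |y|)) := by
      simp
    have him : (((min (1 / 2) (max 0 (x - |y|)) : ℝ) : ℂ)
      + ((max 0 (y - x) + min 0 (y + x) : ℝ) : ℂ) * I).im = max 0 (y - x) + min 0 (y + x) := by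
      simp
    set w : ℂ := ((min (1 / 2) (max 0 (x - |y|)) : ℝ) : ℂ)
      + ((max 0 (y - x) + min 0 (y + x) : ℝ) : ℂ) * I with hw
    have hre0 : 0 ≤ w.re := by
      rw [hre]; exact le_min (by norm_num) (le_max_left _ _)
    rcases le_or_gt |y| x with h | h
    · obtain ⟨h1, h2⟩ := abs_le.mp h
      have him0 : w.im = 0 := by
        rw [him, max_eq_left (by linarith), min_eq_left (by linarith)]; ring
      have hdd : dd w = 0 := by
        rw [dd_eq_zero]
        refine ⟨him0, ?_⟩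
        rw [abs_of_nonneg hre0, hre]; exact min_le_left _ _
      exact ⟨⟨by linarith [norm_of_dd hdd], hre0⟩, Or.inr hdd⟩
    · have hre1 : w.re = 0 := by
        rw [hre, max_eq_left (by linarith), min_eq_right (by norm_num)]
      refine ⟨⟨?_, hre0⟩, Or.inl hre1⟩
      rw [norm_le_of_re_zero hre1, him, abs_le]
      rcases le_total 0 y with hy0 | hy0
      · rw [abs_of_nonneg hy0] at h
        rw [max_eq_right (by linarith), min_eq_left (by linarith)]
        constructor <;> linarith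
      · rw [abs_of_nonpos hy0] at h
        rw [max_eq_left (by linarith), min_eq_right (by linarith)]
        constructor <;> linarith
  · rintro z ⟨⟨h1, h2⟩, h3 | h3⟩
    · have him : |z.im| ≤ 1 := by rw [← norm_le_of_re_zero h3]; exact h1
      obtain ⟨i1, i2⟩ := abs_le.mp him
      rw [min_eq_right i2, max_eq_right i1, h3, max_self]
      have e1 : max (0 : ℝ) (0 - |z.im|) = 0 := max_eq_left (by linarith [abs_nonneg z.im])
      rw [e1, min_eq_right (by norm_num : (0 : ℝ) ≤ 1 / 2)]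
      have e2 : max 0 (z.im - 0) + min 0 (z.im + 0) = z.im := by
        rw [sub_zero, add_zero, max_add_min]; ring
      rw [e2]
      apply Complex.ext <;> simp [h3]
    · obtain ⟨i1, i2⟩ := dd_eq_zero.mp h3
      obtain ⟨_, i4⟩ := abs_le.mp i2
      rw [i1, min_eq_right (by norm_num : (0 : ℝ) ≤ 1), max_eq_right (by norm_num : (-1 : ℝ) ≤ 0),
        max_eq_right h2, abs_zero, sub_zero, max_eq_right h2, min_eq_right i4]
      have e2 : max 0 (0 - z.re) + min 0 (0 + z.re) = 0 := by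
        rw [max_eq_left (by linarith), min_eq_left (by linarith)]; ring
      rw [e2]
      apply Complex.ext <;> simp [i1]

/-- Extension step. -/
theorem ext_next {a : ℝ} (ha : 0 ≤ a) {b : ℝ} (h : Ext.{u} {x | S.ρ x ≤ a} {x | S.ρ x ≤ b}) :
    Ext.{u} {p | S.ρ' p ≤ 2 * a + 1} {p | S.ρ' p ≤ 2 * b + 1} := by
  have hab : ∀ t, S.ρ (S.c t) ≤ a := fun t => by rw [S.ρ_c]; exact ha
  set T : Set S.M := {x | S.ρ x ≤ a} with hT
  set T' : Set S.M := {x | S.ρ x ≤ b} with hT'
  have cT : IsClosed T := isClosed_le S.hρ continuous_const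
  have e1 : S.J '' SA ∩ S.inc '' T = S.J '' arcA := by
    ext p
    constructor
    · rintro ⟨⟨z, hz, rfl⟩, ⟨m, _, hm⟩⟩
      exact ⟨z, ⟨((S.J_eq_inc hz.1).mp hm.symm).1, hz.2⟩, rfl⟩
    · rintro ⟨z, hz, rfl⟩
      refine ⟨⟨z, arcA_subset hz, rfl⟩, ⟨S.c (z.re + 1 / 2), hab _, ?_⟩⟩
      exact ((S.J_eq_inc (arcA_subset hz).1).mpr ⟨hz.1, rfl⟩).symm
  have e2 : S.J '' SB ∩ (S.J '' SA ∪ S.inc '' T) = S.J '' TB := by
    ext p
    constructor
    · rintro ⟨⟨z, hz, rfl⟩, ⟨w, hw, hzw⟩ | ⟨m, _, hm⟩⟩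
      · refine ⟨z, ⟨hz, ?_⟩, rfl⟩
        rcases S.J_eq_J hw.1 hz.1 hzw with h1 | ⟨h1, h2⟩ | ⟨h1, h2⟩
        · left; rw [h1] at hw; exact le_antisymm hw.2 hz.2
        · have := hz.2; rw [h2] at this; norm_num at this
        · right; rw [h2, dd_eq_zero]; norm_num
      · exact ⟨z, ⟨hz, Or.inr ((S.J_eq_inc hz.1).mp hm.symm).1⟩, rfl⟩
    · rintro ⟨z, ⟨hz, h3 | h3⟩, rfl⟩
      · exact ⟨⟨z, hz, rfl⟩, Or.inl ⟨z, ⟨hz.1, h3.le⟩, rfl⟩⟩
      · refine ⟨⟨z, hz, rfl⟩, Or.inr ⟨S.c (z.re + 1 / 2), hab _, ?_⟩⟩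
        exact ((S.J_eq_inc hz.1).mpr ⟨h3, rfl⟩).symm
  have cJA : IsClosed (S.J '' SA) := (isCompact_SA.image S.continuous_J).isClosed
  have cJB : IsClosed (S.J '' SB) := (isCompact_SB.image S.continuous_J).isClosed
  have cI : IsClosed (S.inc '' T) := (cT.isCompact.image S.continuous_inc).isClosed
  have nA : (S.J '' SA).Nonempty := ⟨S.J 0, 0, ⟨by simp, by simp⟩, rfl⟩
  have nB : (S.J '' SB).Nonempty := ⟨S.J 0, 0, ⟨by simp, by simp⟩, rfl⟩
  have nT : (S.inc '' T).Nonempty := ⟨_, S.c 0, hab 0, rfl⟩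
  have f1 : Ext.{u} (S.J '' SA ∪ S.inc '' T) (S.J '' SA ∪ S.inc '' T') :=
    Ext.union cJA cI nA nT (by rw [e1]; exact S.ext_arcA) S.ext_SA
      (h.transport S.inc S.ret S.continuous_inc S.continuous_ret S.ret_inc)
  have f2 : Ext.{u} (S.J '' SB ∪ (S.J '' SA ∪ S.inc '' T)) (S.J '' SB ∪ (S.J '' SA ∪ S.inc '' T')) :=
    Ext.union cJB (cJA.union cI) nB (nA.mono subset_union_left) (by rw [e2]; exact S.ext_TB)
      S.ext_SB f1
  refine f2.mono ?_ ?_
  · intro p hp
    rcases S.exists_rep p with ⟨m, rfl⟩ | ⟨z, hz, rfl⟩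
    · right; right
      have : S.ρ' (S.inc m) ≤ 2 * a + 1 := hp
      rw [ρ'_inc] at this
      exact ⟨m, by change S.ρ m ≤ a; linarith, rfl⟩
    · rcases le_total z.re 0 with h | h
      · exact Or.inr (Or.inl ⟨z, ⟨hz, h⟩, rfl⟩)
      · exact Or.inl ⟨z, ⟨hz, h⟩, rfl⟩
  · by_cases hb : 0 ≤ b
    · rintro p (⟨z, hz, rfl⟩ | ⟨z, hz, rfl⟩ | ⟨m, hm, rfl⟩)
      · change S.ρ' _ ≤ _
        rw [S.ρ'_J hz.1]; linarith [del_nonneg z]
      · change S.ρ' _ ≤ _
        rw [S.ρ'_J hz.1]; linarith [del_nonneg z]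
      · change S.ρ' _ ≤ _
        have : S.ρ m ≤ b := hm
        rw [ρ'_inc]; linarith
    · exfalso
      obtain ⟨ψ, -, h2, -⟩ := h PUnit ∅ isClosed_empty (fun _ => S.c 0) (continuousOn_empty _)
        (mapsTo_empty _ _)
      have := h2 PUnit.unit
      change S.ρ _ ≤ b at this
      linarith [S.hρ0 (ψ PUnit.unit)]

theorem ext_next_zero : Ext.{u} {p | S.ρ' p ≤ 0} {p | S.ρ' p ≤ 1} := by
  refine S.ext_disc.mono ?_ ?_
  · intro p hp
    have h0 : S.next.ρ p = 0 := le_antisymm hp (S.next.hρ0 p)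
    obtain ⟨t, ht⟩ := (S.next.hρc p).mp h0
    exact ⟨lp t, mem_sphere_zero_iff_norm.mpr (norm_lp t), ht⟩
  · rintro p ⟨z, hz, rfl⟩
    change S.ρ' _ ≤ _
    rw [S.ρ'_J hz]; linarith [del_nonneg z]

end Stage

/-- the value map of the base stage -/
def baseVal : Stage.base.M → ℂ := fun x => (show Metric.closedBall (0 : ℂ) 1 from x).1

/-- the inverse of the value map -/
noncomputable def baseMk : ℂ → Stage.base.M := fun z =>
  (show Metric.closedBall (0 : ℂ) 1 from ⟨rad z, mem_closedBall_zero_iff.mpr (norm_rad z)⟩)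

theorem continuous_baseVal : Continuous baseVal :=
  (continuous_subtype_val : Continuous (Subtype.val : Metric.closedBall (0 : ℂ) 1 → ℂ))

theorem continuous_baseMk : Continuous baseMk :=
  (Continuous.subtype_mk continuous_rad (fun z => mem_closedBall_zero_iff.mpr (norm_rad z)) :
    Continuous (fun z => (⟨rad z, _⟩ : Metric.closedBall (0 : ℂ) 1)))

theorem norm_baseVal (x : Stage.base.M) : ‖baseVal x‖ ≤ 1 :=
  mem_closedBall_zero_iff.mp (show Metric.closedBall (0 : ℂ) 1 from x).2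

theorem baseMk_baseVal (x : Stage.base.M) : baseMk (baseVal x) = x :=
  Subtype.ext (rad_eq (norm_baseVal x))

theorem ext_base : Ext.{u} (univ : Set Stage.base.M) univ := by
  intro L _ _ _ C hC φ hφ _
  obtain ⟨G, hG⟩ := ContinuousMap.exists_restrict_eq (Y := ℂ) hC
    ⟨fun l : C => baseVal (φ l),
      continuous_baseVal.comp (continuousOn_iff_continuous_domRestrict.mp hφ)⟩
  refine ⟨fun l => baseMk (G l), continuous_baseMk.comp G.continuous, fun _ => mem_univ _, ?_⟩
  intro l hl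
  have : G l = baseVal (φ l) := congrFun (congrArg DFunLike.coe hG) ⟨l, hl⟩
  simp only
  rw [this, baseMk_baseVal]

/-- The full chain of extension properties. -/
theorem ext_stage (n : ℕ) : ∀ k : ℕ, Ext.{u} {x | (stage n).ρ x ≤ 2 ^ k - 1}
    {x | (stage n).ρ x ≤ 2 ^ (k + 1) - 1} := by
  induction n with
  | zero =>
    intro k
    refine ext_base.mono (fun _ _ => mem_univ _) (fun x _ => ?_)
    change 1 - del (baseVal x) ≤ _
    have h1 : (1 : ℝ) ≤ 2 ^ k := one_le_pow₀ (by norm_num)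
    have h2 : (2 : ℝ) ^ (k + 1) = 2 * 2 ^ k := by ring
    linarith [del_nonneg (baseVal x)]
  | succ n ih =>
    intro k
    cases k with
    | zero =>
      have := (stage n).ext_next_zero
      have e0 : (2 : ℝ) ^ 0 - 1 = 0 := by norm_num
      have e1 : (2 : ℝ) ^ (0 + 1) - 1 = 1 := by norm_num
      rw [e0, e1]
      exact this
    | succ k =>
      have h1 : (1 : ℝ) ≤ 2 ^ k := one_le_pow₀ (by norm_num)
      have := (stage n).ext_next (a := 2 ^ k - 1) (by linarith) (ih k)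
      have e1 : 2 * ((2 : ℝ) ^ k - 1) + 1 = 2 ^ (k + 1) - 1 := by ring
      have e2 : 2 * ((2 : ℝ) ^ (k + 1) - 1) + 1 = 2 ^ (k + 1 + 1) - 1 := by ring
      rw [e1, e2] at this
      exact this

end ProjBL
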