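import Pool.Agent.Work.MP_dca501_an.NonRenorm

/-!
# The contraction lemma and the conclusion
-/

namespace ProjBL

open Set Topology Filter

universe u v w

variable {P' : BLat.{u}}

/-- the part of `M_i` consisting of bounded evaluation points -/
def EE (S : WW.PSp →ₗ[ℝ] P') (i : ℕ) (m : ℝ) : Set (stage i).M := {x | inK i x ∈ BB S m}

theorem contraction (S : WW.PSp ≃ₗ[ℝ] P') (hS : IsLatHom (S : WW.PSp →ₗ[ℝ] P'))
    (hP' : IsometricallyProjective.{0} P') {a b : ℝ}
    (ha : ∀ p : WW.PSp, ‖p‖ ≤ a * ‖S p‖) (hb : ∀ p : WW.PSp, ‖S p‖ ≤ b * ‖p‖)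
    {m δ : ℝ} (ham : a ≤ m) (hm : 0 < m) (hδ : 0 < δ) (hδ1 : δ < 1) :
    ∃ i0, ∀ i ≥ i0, Contr (EE (S : WW.PSp →ₗ[ℝ] P') i m)
      (EE (S : WW.PSp →ₗ[ℝ] P') i (m * ((1 + δ) / (1 - δ)))) := by
  classical
  let Sl : WW.PSp →ₗ[ℝ] P' := (S : WW.PSp →ₗ[ℝ] P')
  have hSlv : ∀ p, Sl p = S p := fun _ => rfl
  have hSsup : ∀ x y, S (x ⊔ y) = S x ⊔ S y := fun x y => hS x y
  have hsB : sK ∈ BB Sl m := by
    refine BB_mono Sl ham (mem_BB_of_loop Sl ha (fun n => ?_))
    cases n with
    | zero => exact le_rfl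
    | succ n => rw [WW_r_succ]; change (stage n).ρ (bp n) ≤ 1; rw [bp, (stage n).ρ_c]; norm_num
  -- the spaces
  let B : Type := BB Sl m
  have : CompactSpace B := isCompact_iff_compactSpace.mp (isClosed_BB Sl m).isCompact
  let sB : B := ⟨sK, hsB⟩
  let L : Type := B × unitInterval
  let C : Set L := {q | q.2 = 1 ∨ (q.2 = 0 ∨ q.1 = sB)}
  have c1 : IsClosed {q : L | q.2 = 1} := isClosed_eq continuous_snd continuous_const
  have c0 : IsClosed {q : L | q.2 = 0 ∨ q.1 = sB} :=
    (isClosed_eq continuous_snd continuous_const).union (isClosed_eq continuous_fst continuous_const)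
  have hC : IsClosed C := c1.union c0
  let L' : Type := C
  have : CompactSpace L' := isCompact_iff_compactSpace.mp hC.isCompact
  let ι : C(L', L) := ⟨Subtype.val, continuous_subtype_val⟩
  have hι : Function.Injective ι := Subtype.val_injective
  -- the map
  let f0 : L → WK := fun q => if q.2 = 1 then q.1.1 else sK
  have hf0 : ContinuousOn f0 C := by
    refine ContinuousOn.union_of_isClosed ?_ ?_ c1 c0
    · exact (continuous_subtype_val.comp continuous_fst).continuousOn.congr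
        (fun q hq => if_pos hq)
    · refine (continuousOn_const (c := sK)).congr (fun q hq => ?_)
      change (if q.2 = 1 then q.1.1 else sK) = sK
      rcases hq with hq | hq
      · rw [if_neg]; rw [hq]; exact zero_ne_one
      · split_ifs
        · rw [hq]
        · rfl
  let f : C(L', WK) := ⟨fun q => f0 q.1, continuousOn_iff_continuous_domRestrict.mp hf0⟩
  have hfB : ∀ q, f q ∈ BB Sl m := by
    intro q
    change (if q.1.2 = 1 then q.1.1.1 else sK) ∈ _
    split_ifs
    · exact q.1.1.2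
    · exact hsB
  obtain ⟨T, hT1, hT2, hT3⟩ := exists_eval Sl hb hm.le f hfB
  -- transport to P'
  have hSinv : ∀ q : P', ‖T (S.symm q)‖ ≤ m * ‖q‖ := fun q => by
    have := hT3 (S.symm q)
    rwa [hSlv, LinearEquiv.apply_symm_apply] at this
  let T1 : P' →L[ℝ] (CBL L') :=
    LinearMap.mkContinuous ((T : WW.PSp →ₗ[ℝ] C(L', ℝ)).comp (S.symm : P' →ₗ[ℝ] WW.PSp)) m hSinv
  have hSsymm : ∀ x y : P', S.symm (x ⊔ y) = S.symm x ⊔ S.symm y := by
    intro x y
    apply S.injective
    rw [hSsup, LinearEquiv.apply_symm_apply, LinearEquiv.apply_symm_apply,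
      LinearEquiv.apply_symm_apply]
  have hT1h : IsLatHom (T1 : P' →ₗ[ℝ] (CBL L')) := by
    intro x y
    change T (S.symm (x ⊔ y)) = T (S.symm x) ⊔ T (S.symm y)
    rw [hSsymm]; exact hT1 _ _
  obtain ⟨T2, hT2h, hT2Q, hT2n⟩ := hP' (CBL L) (CBL L') (resMap ι) (isLatQuot_res ι hι) T1 hT1h
    δ hδ
  have hT1n : ‖T1‖ ≤ m := LinearMap.mkContinuous_norm_le _ hm.le _
  have hT2n' : ‖T2‖ ≤ (1 + δ) * m := hT2n.trans (mul_le_mul_of_nonneg_left hT1n (by linarith))
  -- the lifted homomorphism on continuous functions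
  let A : C(WK, ℝ) → C(L, ℝ) := fun g => T2 (S (WW.emb g))
  have hAadd : ∀ g h, A (g + h) = A g + A h := fun g h => by
    change T2 _ = T2 _ + T2 _
    rw [map_add, map_add]; exact map_add T2 _ _
  have hAsmul : ∀ (c : ℝ) g, A (c • g) = c • A g := fun c g => by
    change T2 _ = c • T2 _
    rw [map_smul, map_smul]; exact map_smul T2 _ _
  have hAsup : ∀ g h, A (g ⊔ h) = A g ⊔ A h := fun g h => by
    change T2 _ = T2 _ ⊔ T2 _
    rw [WSys.emb_sup, hSsup]
    exact hT2h _ _
  have hAres : ∀ g (q : L'), A g q.1 = g (f q) := fun g q => by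
    have h1 := hT2Q (S (WW.emb g))
    have h2 : T1 (S (WW.emb g)) = g.comp f := by
      change T (S.symm (S (WW.emb g))) = _
      rw [LinearEquiv.symm_apply_apply]; exact hT2 g
    rw [h2] at h1
    exact congrArg (fun F : C(L', ℝ) => F q) h1
  have hAbd : ∀ g (q : L), |A g q| ≤ (1 + δ) * m * ‖Sl (WW.emb g)‖ := fun g q => by
    have h1 : ‖T2 (S (WW.emb g))‖ ≤ (1 + δ) * m * ‖Sl (WW.emb g)‖ :=
      (T2.le_opNorm _).trans (mul_le_mul_of_nonneg_right hT2n' (norm_nonneg _))
    exact (ContinuousMap.norm_coe_le_norm (A g) q).trans h1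
  set û : C(L, ℝ) := A 1 with hû
  have hû1 : ∀ q ∈ C, û q = 1 := fun q hq => by
    rw [hû]; exact hAres 1 ⟨q, hq⟩
  -- the good region
  have hO : IsOpen {x : B | ∀ τ : unitInterval, 1 - δ < û (x, τ)} := by
    rw [← isClosed_compl_iff]
    have hcl : IsClosed {q : L | û q ≤ 1 - δ} := isClosed_le û.continuous continuous_const
    have h1 := (isClosedMap_fst_of_compactSpace (X := B) (Y := unitInterval)) _ hcl
    convert h1 using 1
    ext x
    simp only [mem_compl_iff, mem_ofPred_eq, mem_image, not_forall, not_lt]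
    constructor
    · rintro ⟨τ, hτ⟩; exact ⟨(x, τ), hτ, rfl⟩
    · rintro ⟨⟨x', τ⟩, hτ, rfl⟩; exact ⟨τ, hτ⟩
  obtain ⟨V, hV, hVB⟩ := isOpen_induced_iff.mp hO
  have hsV : sK ∈ V := by
    have : sB ∈ {x : B | ∀ τ : unitInterval, 1 - δ < û (x, τ)} := fun τ => by
      rw [hû1 _ (Or.inr (Or.inr rfl))]; linarith
    rw [← hVB] at this
    exact this
  obtain ⟨i0, hi0⟩ := exists_index hV hsV
  refine ⟨i0, fun i hi => ?_⟩
  -- good points
  have hgood : ∀ x : (stage i).M, ∀ hx : x ∈ EE Sl i m, ∀ τ : unitInterval,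
      1 - δ < û ((⟨inK i x, hx⟩ : B), τ) := by
    intro x hx τ
    have h1 : (⟨inK i x, hx⟩ : B) ∈ Subtype.val ⁻¹' V := hi0 i hi x
    rw [hVB] at h1
    exact h1 τ
  -- the points F(x, τ)
  have hFex : ∀ p : EE Sl i m × unitInterval, ∃ y : WK, ∀ g : C(WK, ℝ),
      A g ((⟨inK i p.1.1, p.1.2⟩ : B), p.2) / û ((⟨inK i p.1.1, p.1.2⟩ : B), p.2) = g y := by
    rintro ⟨⟨x, hx⟩, τ⟩
    have hpos : 0 < û ((⟨inK i x, hx⟩ : B), τ) := by linarith [hgood x hx τ]
    let t : C(WK, ℝ) →ₗ[ℝ] ℝ :=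
      { toFun := fun g => A g ((⟨inK i x, hx⟩ : B), τ) / û ((⟨inK i x, hx⟩ : B), τ)
        map_add' := fun g h => by
          rw [hAadd, ContinuousMap.add_apply, add_div]
        map_smul' := fun c g => by
          rw [hAsmul, ContinuousMap.smul_apply, smul_eq_mul, mul_div_assoc]; rfl }
    refine exists_point (τ := t) (div_self hpos.ne') (fun g h => ?_)
    change A (g ⊔ h) _ / _ = A g _ / _ ⊔ A h _ / _
    rw [hAsup, ContinuousMap.sup_apply]
    exact (max_div_div_right hpos.le _ _).symm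
  choose F hF using hFex
  have hFc : Continuous F := by
    refine continuous_of_comp (fun g => ?_)
    have h1 : (fun p => g (F p)) = fun p : EE Sl i m × unitInterval =>
        A g ((⟨inK i p.1.1, p.1.2⟩ : B), p.2) / û ((⟨inK i p.1.1, p.1.2⟩ : B), p.2) :=
      funext (fun p => (hF p g).symm)
    rw [h1]
    have h2 : Continuous (fun p : EE Sl i m × unitInterval =>
        (((⟨inK i p.1.1, p.1.2⟩ : B), p.2) : L)) := by
      refine Continuous.prodMk ?_ continuous_snd
      exact Continuous.subtype_mk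
        ((continuous_inK i).comp (continuous_subtype_val.comp continuous_fst)) _
    refine ((A g).continuous.comp h2).div (û.continuous.comp h2) (fun p => ?_)
    have := hgood p.1.1 p.1.2 p.2
    exact (show (0 : ℝ) < _ by linarith).ne'
  have hFB : ∀ p, F p ∈ BB Sl (m * ((1 + δ) / (1 - δ))) := by
    intro p g
    rw [← hF p g, abs_div]
    have h1 := hgood p.1.1 p.1.2 p.2
    have h2 := hAbd g ((⟨inK i p.1.1, p.1.2⟩ : B), p.2)
    have h3 : 0 < 1 - δ := by linarith
    rw [abs_of_pos (show 0 < û ((⟨inK i p.1.1, p.1.2⟩ : B), p.2) by linarith)]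
    rw [div_le_iff₀ (by linarith)]
    refine h2.trans ?_
    have h4 : m * ((1 + δ) / (1 - δ)) * ‖Sl (WW.emb g)‖ * (1 - δ)
        = (1 + δ) * m * ‖Sl (WW.emb g)‖ := by field_simp
    rw [← h4]
    exact mul_le_mul_of_nonneg_left h1.le (by positivity)
  have hmm : m ≤ m * ((1 + δ) / (1 - δ)) := by
    have h3 : 0 < 1 - δ := by linarith
    have h5 : 1 ≤ (1 + δ) / (1 - δ) := by rw [le_div_iff₀ h3]; linarith
    nlinarith
  -- the contraction
  let H : (stage i).M × unitInterval → (stage i).M := fun p =>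
    if h : p.1 ∈ EE Sl i m then (F (⟨p.1, h⟩, p.2)).co i else bp i
  have hH : ∀ x (hx : x ∈ EE Sl i m) τ, H (x, τ) = (F (⟨x, hx⟩, τ)).co i := fun x hx τ =>
    dif_pos hx
  refine ⟨H, bp i, ?_, ?_, ?_, ?_⟩
  · rw [continuousOn_iff_continuous_domRestrict]
    have h1 : Continuous (fun p : (EE Sl i m ×ˢ (univ : Set unitInterval) :
        Set ((stage i).M × unitInterval)) => (F (⟨p.1.1, p.2.1⟩, p.1.2)).co i) := by
      refine (WK.continuous_co i).comp (hFc.comp (Continuous.prodMk ?_ ?_))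
      · exact Continuous.subtype_mk (continuous_fst.comp continuous_subtype_val) _
      · exact continuous_snd.comp continuous_subtype_val
    convert h1 using 1
    ext p
    exact hH p.1.1 p.2.1 p.1.2
  · intro x hx
    rw [hH x hx]
    have h1 : F (⟨x, hx⟩, 1) = inK i x := by
      have h2 : ∀ g : C(WK, ℝ), g (F (⟨x, hx⟩, 1)) = g (inK i x) := by
        intro g
        rw [← hF]
        have hc : (((⟨inK i x, hx⟩ : B), (1 : unitInterval)) : L) ∈ C := Or.inl rfl
        rw [hû1 _ hc, div_one]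
        have h3 := hAres g ⟨_, hc⟩
        rw [h3]
        change g (if (1 : unitInterval) = 1 then inK i x else sK) = _
        rw [if_pos rfl]
      by_contra hne
      obtain ⟨g, g0, g1, -⟩ := exists_continuous_zero_one_of_isClosed
        (isClosed_singleton (x := F (⟨x, hx⟩, 1))) (isClosed_singleton (x := inK i x))
        (by simpa using hne)
      have h4 := h2 g
      rw [g0 rfl, g1 rfl] at h4
      exact zero_ne_one h4
    rw [h1, inK_co_self]
  · intro x hx
    rw [hH x hx]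
    have h1 : F (⟨x, hx⟩, 0) = sK := by
      have h2 : ∀ g : C(WK, ℝ), g (F (⟨x, hx⟩, 0)) = g sK := by
        intro g
        rw [← hF]
        have hc : (((⟨inK i x, hx⟩ : B), (0 : unitInterval)) : L) ∈ C := Or.inr (Or.inl rfl)
        rw [hû1 _ hc, div_one]
        have h3 := hAres g ⟨_, hc⟩
        rw [h3]
        change g (if (0 : unitInterval) = 1 then inK i x else sK) = _
        rw [if_neg zero_ne_one]
      by_contra hne
      obtain ⟨g, g0, g1, -⟩ := exists_continuous_zero_one_of_isClosed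
        (isClosed_singleton (x := F (⟨x, hx⟩, 0))) (isClosed_singleton (x := sK))
        (by simpa using hne)
      have h4 := h2 g
      rw [g0 rfl, g1 rfl] at h4
      exact zero_ne_one h4
    rw [h1]; rfl
  · intro x hx τ
    rw [hH x hx]
    change inK i _ ∈ BB Sl _
    rcases inK_co (F (⟨x, hx⟩, τ)) i with h | h
    · rw [h]; exact hFB _
    · rw [h]; exact BB_mono Sl hmm hsB

/-- Main theorem: no Banach lattice isomorphic to `P(K, r)` is isometrically projective. -/
theorem not_isometricallyProjective (P' : BLat.{u}) (h : Isomorphic (PBL WW) P') :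
    ¬ IsometricallyProjective.{0} P' := by
  intro hP'
  obtain ⟨S, hS⟩ := h
  change WW.PSp ≃ₗ[ℝ] P' at S
  have hS' : IsLatHom (S : WW.PSp →ₗ[ℝ] P') := hS
  obtain ⟨b, hb⟩ := latHom_bounded (X := WW.PSp) (Y := P') hS'
  have hSs : IsLatHom (S.symm : P' →ₗ[ℝ] WW.PSp) := by
    intro x y
    apply S.injective
    have := hS' (S.symm x) (S.symm y)
    simp only [LinearEquiv.coe_coe, LinearEquiv.apply_symm_apply] at this ⊢
    exact this.symm
  obtain ⟨a', ha'⟩ := latHom_bounded (X := P') (Y := WW.PSp) hSs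
  set a : ℝ := max a' 1 with ha_def
  have ha : ∀ p : WW.PSp, ‖p‖ ≤ a * ‖S p‖ := fun p => by
    have := ha' (S p)
    simp only [LinearEquiv.coe_coe, LinearEquiv.symm_apply_apply] at this
    exact this.trans (mul_le_mul_of_nonneg_right (le_max_left _ _) (norm_nonneg _))
  have ha1 : 1 ≤ a := le_max_right _ _
  obtain ⟨k, hk⟩ := pow_unbounded_of_one_lt (2 * a * b + 1) (by norm_num : (1 : ℝ) < 2)
  -- the ratio
  set q : ℝ := (2 : ℝ) ^ (((k + 1 : ℕ) : ℝ)⁻¹) with hq
  have hqk : q ^ (k + 1) = 2 := Real.rpow_inv_natCast_pow (by norm_num) (by omega)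
  have hq1 : 1 < q := Real.one_lt_rpow (by norm_num) (by positivity)
  set δ : ℝ := (q - 1) / (q + 1) with hδ
  have hδ0 : 0 < δ := div_pos (by linarith) (by linarith)
  have hδ1 : δ < 1 := by rw [hδ, div_lt_one (by linarith)]; linarith
  have hδq : (1 + δ) / (1 - δ) = q := by
    rw [hδ]
    have h1 : q + 1 ≠ 0 := by linarith
    have h2 : 1 + (q - 1) / (q + 1) = 2 * q / (q + 1) := by field_simp; ring
    have h3 : 1 - (q - 1) / (q + 1) = 2 / (q + 1) := by field_simp; ring
    rw [h2, h3]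
    field_simp
  set m : ℕ → ℝ := fun j => a * q ^ j with hm
  have hmj : ∀ j, a ≤ m j := fun j => by
    have : 1 ≤ q ^ j := one_le_pow₀ hq1.le
    change a ≤ a * q ^ j
    nlinarith
  have hcon : ∀ j, ∃ i0, ∀ i ≥ i0, Contr (EE (S : WW.PSp →ₗ[ℝ] P') i (m j))
      (EE (S : WW.PSp →ₗ[ℝ] P') i (m (j + 1))) := fun j => by
    have h1 := contraction S hS' hP' ha hb (hmj j) (by linarith [hmj j]) hδ0 hδ1
    rw [hδq] at h1
    have h2 : m j * q = m (j + 1) := by
      change a * q ^ j * q = a * q ^ (j + 1); ring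
    rwa [h2] at h1
  choose i0 hi0 using hcon
  obtain ⟨i, hik, hij⟩ : ∃ i, k ≤ i ∧ ∀ j < k, i0 j ≤ i := by
    refine ⟨k + ∑ j ∈ Finset.range k, i0 j, by omega, fun j hj => ?_⟩
    have := Finset.single_le_sum (f := i0) (fun _ _ => Nat.zero_le _) (Finset.mem_range.mpr hj)
    omega
  have hcl : ∀ j, IsClosed (EE (S : WW.PSp →ₗ[ℝ] P') i (m j)) := fun j =>
    (isClosed_BB _ _).preimage (continuous_inK i)
  obtain ⟨x, hx, hxρ⟩ := sweep k i hik (fun j => EE (S : WW.PSp →ₗ[ℝ] P') i (m j)) hcl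
    (fun t => by
      change inK i _ ∈ BB _ _
      refine BB_mono _ (hmj 0) (mem_BB_of_loop _ ha (fun n => ?_))
      cases n with
      | zero => exact le_rfl
      | succ n =>
        rw [WW_r_succ]
        by_cases hn : n = i
        · subst hn
          rw [inK_co_self, (stage n).ρ_c]; norm_num
        · rw [inK_co_ne hn, bp, (stage n).ρ_c]; norm_num)
    (fun j hj => hi0 j i (hij j hj))
  have h1 := hx (WW.r (i + 1))
  rw [WW_r_succ, inK_co_self] at h1
  have h2 : ‖(S : WW.PSp →ₗ[ℝ] P') (WW.emb (WW.r (i + 1)))‖ ≤ b * 1 := by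
    refine (hb _).trans ?_
    have hb0 : 0 ≤ b := by
      by_contra hneg
      push Not at hneg
      have h3 := hb (WW.emb 1)
      have h4 : 0 < ‖WW.emb 1‖ := by
        rw [norm_pos_iff]
        intro h5
        have h6 : (WW.emb 1).val sK = (0 : WW.PSp).val sK := by rw [h5]
        simp at h6
      have h7 := norm_nonneg ((S : WW.PSp →ₗ[ℝ] P') (WW.emb 1))
      nlinarith
    exact mul_le_mul_of_nonneg_left (WSys.norm_emb_r _) hb0
  have hmk : m k ≤ 2 * a := by
    change a * q ^ k ≤ 2 * a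
    have h3 : q ^ k ≤ q ^ (k + 1) := pow_le_pow_right₀ hq1.le (by omega)
    rw [hqk] at h3
    nlinarith
  have hmk0 : 0 ≤ m k := by linarith [hmj k]
  have h8 : (stage i).ρ x ≤ 2 * a * b := by
    refine (le_abs_self _).trans (h1.trans ?_)
    have h9 := norm_nonneg ((S : WW.PSp →ₗ[ℝ] P') (WW.emb (WW.r (i + 1))))
    nlinarith
  linarith

/-- Negative answer to Q1. -/
theorem negative_answer : ∃ P : BLat.{0}, IsomorphicallyProjective.{u} P ∧
    ∀ P' : BLat.{v}, Isomorphic P P' → ¬ IsometricallyProjective.{0} P' :=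
  ⟨PBL WW, isomorphicallyProjective_wedge, not_isometricallyProjective⟩

end ProjBL
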