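import Mathlib

/-!
# Kakutani's representation theorem for principal ideals of a Banach lattice
-/

set_option linter.unusedSectionVars false
set_option linter.unusedVariables false

namespace ProjBL

open Set Topology

universe u

section ideal

variable {X : Type u} [AddCommGroup X] [Module ℝ X] [Lattice X] [IsOrderedAddMonoid X]
  [PosSMulMono ℝ X]

/-- The positive cone of an order ideal (solid subspace). -/
structure PIdl (M : Set X) : Prop where
  nonneg : ∀ x ∈ M, 0 ≤ x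
  zero : (0 : X) ∈ M
  add : ∀ x ∈ M, ∀ y ∈ M, x + y ∈ M
  smul : ∀ c : ℝ, 0 ≤ c → ∀ x ∈ M, c • x ∈ M
  down : ∀ x ∈ M, ∀ y, 0 ≤ y → y ≤ x → y ∈ M

theorem smul_inf_of_pos {c : ℝ} (hc : 0 < c) (a b : X) : c • (a ⊓ b) = (c • a) ⊓ (c • b) :=
  (OrderIso.smulRight (β := X) hc).map_inf a b

theorem smul_sup_of_pos {c : ℝ} (hc : 0 < c) (a b : X) : c • (a ⊔ b) = (c • a) ⊔ (c • b) :=
  (OrderIso.smulRight (β := X) hc).map_sup a b

theorem smul_sup_of_nonneg {c : ℝ} (hc : 0 ≤ c) (a b : X) :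
    c • (a ⊔ b) = (c • a) ⊔ (c • b) := by
  rcases hc.eq_or_lt with h | h
  · subst h; simp
  · exact smul_sup_of_pos h a b

/-- `a` and `-a` have disjoint positive parts. -/
theorem sup_inf_neg_sup (y : X) : (y ⊔ 0) ⊓ ((-y) ⊔ 0) = 0 := by
  have := posPart_inf_negPart_eq_zero y
  simpa [posPart_def, negPart_def] using this

/-- adjoining an element to an ideal -/
theorem pidl_adjoin {M : Set X} (hM : PIdl M) {a : X} (ha : 0 ≤ a) :
    PIdl {x : X | 0 ≤ x ∧ ∃ m ∈ M, ∃ c : ℝ, 0 ≤ c ∧ x ≤ m + c • a} where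
  nonneg := fun x hx => hx.1
  zero := ⟨le_refl _, 0, hM.zero, 0, le_refl _, by simp⟩
  add := by
    rintro x ⟨hx, m, hm, c, hc, h⟩ y ⟨hy, m', hm', c', hc', h'⟩
    refine ⟨add_nonneg hx hy, m + m', hM.add _ hm _ hm', c + c', add_nonneg hc hc', ?_⟩
    calc x + y ≤ (m + c • a) + (m' + c' • a) := add_le_add h h'
      _ = m + m' + (c + c') • a := by rw [add_smul]; abel
  smul := by
    rintro r hr x ⟨hx, m, hm, c, hc, h⟩
    refine ⟨smul_nonneg hr hx, r • m, hM.smul r hr m hm, r * c, mul_nonneg hr hc, ?_⟩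
    calc r • x ≤ r • (m + c • a) := smul_le_smul_of_nonneg_left h hr
      _ = r • m + (r * c) • a := by rw [smul_add, smul_smul]
  down := by
    rintro x ⟨hx, m, hm, c, hc, h⟩ y hy hyx
    exact ⟨hy, m, hm, c, hc, hyx.trans h⟩

/-- A maximal ideal not containing `u` but containing a given ideal `I`. -/
theorem exists_maximal {I : Set X} (hI : PIdl I) {u : X} (hu : 0 ≤ u) (huI : u ∉ I) :
    ∃ M : Set X, PIdl M ∧ I ⊆ M ∧ u ∉ M ∧
      ∀ y : X, (y ⊔ 0) ∈ M ∨ ((-y) ⊔ 0) ∈ M := by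
  obtain ⟨M, hIM, hmax⟩ := zorn_subset_nonempty {M : Set X | PIdl M ∧ u ∉ M} (by
    intro c hc hchain hne
    refine ⟨⋃₀ c, ⟨?_, ?_⟩, fun s hs => subset_sUnion_of_mem hs⟩
    · refine ⟨?_, ?_, ?_, ?_, ?_⟩
      · rintro x ⟨s, hs, hx⟩
        exact (hc hs).1.nonneg x hx
      · obtain ⟨s, hs⟩ := hne
        exact ⟨s, hs, (hc hs).1.zero⟩
      · rintro x ⟨s, hs, hx⟩ y ⟨t, ht, hy⟩
        rcases hchain.total hs ht with h | h
        · exact ⟨t, ht, (hc ht).1.add x (h hx) y hy⟩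
        · exact ⟨s, hs, (hc hs).1.add x hx y (h hy)⟩
      · rintro r hr x ⟨s, hs, hx⟩
        exact ⟨s, hs, (hc hs).1.smul r hr x hx⟩
      · rintro x ⟨s, hs, hx⟩ y hy hyx
        exact ⟨s, hs, (hc hs).1.down x hx y hy hyx⟩
    · rintro ⟨s, hs, hx⟩
      exact (hc hs).2 hx) I ⟨hI, huI⟩
  have hM : PIdl M := hmax.prop.1
  have huM : u ∉ M := hmax.prop.2
  refine ⟨M, hM, hIM, huM, ?_⟩
  intro y
  by_contra hcon
  push Not at hcon
  obtain ⟨ha, hb⟩ := hcon
  have key : ∀ a : X, 0 ≤ a → a ∉ M → ∃ m ∈ M, ∃ c : ℝ, 0 ≤ c ∧ u ≤ m + c • a := by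
    intro a ha0 haM
    by_contra hcon
    have h1 : {x : X | 0 ≤ x ∧ ∃ m ∈ M, ∃ c : ℝ, 0 ≤ c ∧ x ≤ m + c • a} ∈
        {M : Set X | PIdl M ∧ u ∉ M} := ⟨pidl_adjoin hM ha0, fun h => hcon h.2⟩
    have h2 : M ⊆ {x : X | 0 ≤ x ∧ ∃ m ∈ M, ∃ c : ℝ, 0 ≤ c ∧ x ≤ m + c • a} := by
      intro x hx
      exact ⟨hM.nonneg x hx, x, hx, 0, le_refl _, by simp⟩
    have h3 := hmax.le_of_ge h1 h2
    exact haM (h3 ⟨ha0, 0, hM.zero, 1, zero_le_one, by simp⟩)
  obtain ⟨m, hm, c, hc, h⟩ := key _ le_sup_right ha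
  obtain ⟨m', hm', c', hc', h'⟩ := key _ le_sup_right hb
  set a : X := y ⊔ 0 with hadef
  set b : X := (-y) ⊔ 0 with hbdef
  have ha0 : 0 ≤ a := le_sup_right
  have hb0 : 0 ≤ b := le_sup_right
  have hmn := hM.nonneg m hm
  have hmn' := hM.nonneg m' hm'
  have e1 : u ≤ (m + m') + (c + c' + 1) • a := by
    refine h.trans (add_le_add (le_add_of_nonneg_right hmn') ?_)
    rw [add_assoc, add_smul]
    exact le_add_of_nonneg_right (smul_nonneg (by linarith) ha0)
  have e2 : u ≤ (m + m') + (c + c' + 1) • b := by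
    refine h'.trans (add_le_add (le_add_of_nonneg_left hmn) ?_)
    have : c + c' + 1 = c' + (c + 1) := by ring
    rw [this, add_smul]
    exact le_add_of_nonneg_right (smul_nonneg (by linarith) hb0)
  have e3 : u ≤ m + m' := by
    have h0 : ((c + c' + 1) • a) ⊓ ((c + c' + 1) • b) = 0 := by
      rw [← smul_inf_of_pos (by linarith), hadef, hbdef, sup_inf_neg_sup, smul_zero]
    have h1 : u - (m + m') ≤ ((c + c' + 1) • a) ⊓ ((c + c' + 1) • b) :=
      le_inf (sub_le_iff_le_add'.mpr e1) (sub_le_iff_le_add'.mpr e2)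
    rw [h0] at h1
    exact sub_nonpos.mp h1
  exact huM (hM.down _ (hM.add _ hm _ hm') _ hu e3)

/-- The value of the character attached to a maximal ideal. -/
def IsVal (M : Set X) (u y : X) (t : ℝ) : Prop :=
  (∀ c < t, (c • u - y) ⊔ 0 ∈ M) ∧ (∀ c > t, (y - c • u) ⊔ 0 ∈ M)

variable {M : Set X} {u : X}

theorem mem_of_le (hM : PIdl M) {x y : X} (hx : x ⊔ 0 ∈ M) (h : y ≤ x) : y ⊔ 0 ∈ M :=
  hM.down _ hx _ le_sup_right (sup_le_sup_right h _)

theorem absurd_of (hM : PIdl M) (hu : 0 ≤ u) (huM : u ∉ M) {c d : ℝ} (hcd : c < d) {y : X}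
    (h1 : (y - c • u) ⊔ 0 ∈ M) (h2 : (d • u - y) ⊔ 0 ∈ M) : False := by
  have h3 := hM.add _ h1 _ h2
  have h4 : (d - c) • u ≤ (y - c • u) ⊔ 0 + ((d • u - y) ⊔ 0) := by
    have : (d - c) • u = (y - c • u) + (d • u - y) := by rw [sub_smul]; abel
    rw [this]
    exact add_le_add le_sup_left le_sup_left
  have h5 : (d - c) • u ∈ M := hM.down _ h3 _ (smul_nonneg (by linarith) hu) h4
  have h6 := hM.smul (d - c)⁻¹ (inv_nonneg.mpr (by linarith)) _ h5
  have h7 : d - c ≠ 0 := by intro h0; linarith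
  rw [smul_smul, inv_mul_cancel₀ h7, one_smul] at h6
  exact huM h6

theorem IsVal.unique (hM : PIdl M) (hu : 0 ≤ u) (huM : u ∉ M) {y : X} {s t : ℝ}
    (hs : IsVal M u y s) (ht : IsVal M u y t) : s = t := by
  have key : ∀ {s t : ℝ}, IsVal M u y s → IsVal M u y t → ¬ s < t := by
    intro s t hs ht h
    obtain ⟨c, hc, hct⟩ := exists_between h
    obtain ⟨d, hd, hdt⟩ := exists_between hct
    exact absurd_of hM hu huM hd (hs.2 c hc) (ht.1 d hdt)
  exact le_antisymm (not_lt.mp (key ht hs)) (not_lt.mp (key hs ht))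

theorem IsVal.add (hM : PIdl M) {y z : X} {s t : ℝ}
    (hs : IsVal M u y s) (ht : IsVal M u z t) : IsVal M u (y + z) (s + t) := by
  constructor
  · intro c hc
    have h1 := hs.1 (s - (s + t - c) / 2) (by linarith)
    have h2 := ht.1 (t - (s + t - c) / 2) (by linarith)
    refine hM.down _ (hM.add _ h1 _ h2) _ le_sup_right (sup_le ?_ ?_)
    · have : c • u - (y + z) = ((s - (s + t - c) / 2) • u - y) + ((t - (s + t - c) / 2) • u - z) := by
        have : c = (s - (s + t - c) / 2) + (t - (s + t - c) / 2) := by ring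
        nth_rewrite 1 [this]
        rw [add_smul]; abel
      rw [this]
      exact add_le_add le_sup_left le_sup_left
    · exact add_nonneg le_sup_right le_sup_right
  · intro c hc
    have h1 := hs.2 (s + (c - (s + t)) / 2) (by linarith)
    have h2 := ht.2 (t + (c - (s + t)) / 2) (by linarith)
    refine hM.down _ (hM.add _ h1 _ h2) _ le_sup_right (sup_le ?_ ?_)
    · have : (y + z) - c • u = (y - (s + (c - (s + t)) / 2) • u) + (z - (t + (c - (s + t)) / 2) • u) := by
        have : c = (s + (c - (s + t)) / 2) + (t + (c - (s + t)) / 2) := by ring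
        nth_rewrite 1 [this]
        rw [add_smul]; abel
      rw [this]
      exact add_le_add le_sup_left le_sup_left
    · exact add_nonneg le_sup_right le_sup_right

theorem IsVal.neg {y : X} {s : ℝ} (hs : IsVal M u y s) : IsVal M u (-y) (-s) := by
  constructor
  · intro c hc
    have h1 := hs.2 (-c) (by linarith)
    rw [neg_smul, sub_neg_eq_add] at h1
    rw [sub_neg_eq_add, add_comm]
    exact h1
  · intro c hc
    have h1 := hs.1 (-c) (by linarith)
    have : -y - c • u = (-c) • u - y := by rw [neg_smul]; abel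
    rw [this]
    exact h1

theorem smul_posPart {r : ℝ} (hr : 0 ≤ r) (x : X) : r • (x ⊔ 0) = (r • x) ⊔ 0 := by
  rw [smul_sup_of_nonneg hr, smul_zero]

theorem IsVal.smul_pos (hM : PIdl M) {y : X} {s r : ℝ} (hr : 0 < r) (hs : IsVal M u y s) :
    IsVal M u (r • y) (r * s) := by
  constructor
  · intro c hc
    have h1 := hs.1 (c / r) (by rw [div_lt_iff₀ hr]; linarith)
    have h2 := hM.smul r hr.le _ h1
    rw [smul_posPart hr.le, smul_sub, smul_smul, mul_div_cancel₀ _ hr.ne'] at h2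
    exact h2
  · intro c hc
    have h1 := hs.2 (c / r) (by rw [gt_iff_lt, lt_div_iff₀ hr]; linarith)
    have h2 := hM.smul r hr.le _ h1
    rw [smul_posPart hr.le, smul_sub, smul_smul, mul_div_cancel₀ _ hr.ne'] at h2
    exact h2

theorem IsVal.zero (hM : PIdl M) (hu : 0 ≤ u) : IsVal M u 0 0 := by
  constructor
  · intro c hc
    have : (c • u - 0) ⊔ 0 = 0 := by
      rw [sub_zero, sup_eq_right]
      exact smul_nonpos_of_nonpos_of_nonneg hc.le hu
    rw [this]; exact hM.zero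
  · intro c hc
    have : (0 - c • u) ⊔ 0 = 0 := by
      rw [zero_sub, sup_eq_right, Left.neg_nonpos_iff]
      exact smul_nonneg (le_of_lt hc) hu
    rw [this]; exact hM.zero

theorem IsVal.smul (hM : PIdl M) (hu : 0 ≤ u) {y : X} {s : ℝ} (r : ℝ) (hs : IsVal M u y s) :
    IsVal M u (r • y) (r * s) := by
  rcases lt_trichotomy r 0 with h | h | h
  · have h1 := (IsVal.smul_pos hM (neg_pos.mpr h) hs).neg
    rw [neg_smul, neg_neg, neg_mul, neg_neg] at h1
    exact h1
  · subst h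
    rw [zero_smul, zero_mul]
    exact IsVal.zero hM hu
  · exact IsVal.smul_pos hM h hs

theorem IsVal.one (hM : PIdl M) (hu : 0 ≤ u) : IsVal M u u 1 := by
  constructor
  · intro c hc
    have : (c • u - u) ⊔ 0 = 0 := by
      rw [sup_eq_right]
      have : c • u - u = (c - 1) • u := by rw [sub_smul, one_smul]
      rw [this]
      exact smul_nonpos_of_nonpos_of_nonneg (by linarith) hu
    rw [this]; exact hM.zero
  · intro c hc
    have : (u - c • u) ⊔ 0 = 0 := by
      rw [sup_eq_right]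
      have : u - c • u = (1 - c) • u := by rw [sub_smul, one_smul]
      rw [this]
      exact smul_nonpos_of_nonpos_of_nonneg (by linarith) hu
    rw [this]; exact hM.zero

theorem IsVal.sup (hM : PIdl M) {y z : X} {s t : ℝ}
    (hs : IsVal M u y s) (ht : IsVal M u z t) : IsVal M u (y ⊔ z) (max s t) := by
  constructor
  · intro c hc
    rcases lt_max_iff.mp hc with h | h
    · exact mem_of_le hM (hs.1 c h) (sub_le_sub_left le_sup_left _)
    · exact mem_of_le hM (ht.1 c h) (sub_le_sub_left le_sup_right _)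
  · intro c hc
    have h1 := hs.2 c (lt_of_le_of_lt (le_max_left _ _) hc)
    have h2 := ht.2 c (lt_of_le_of_lt (le_max_right _ _) hc)
    refine hM.down _ (hM.add _ h1 _ h2) _ le_sup_right (sup_le ?_ ?_)
    · rw [sub_le_iff_le_add]
      refine sup_le ?_ ?_
      · rw [← sub_le_iff_le_add]
        exact le_sup_left.trans (le_add_of_nonneg_right le_sup_right)
      · rw [← sub_le_iff_le_add]
        exact le_sup_left.trans (le_add_of_nonneg_left le_sup_right)
    · exact add_nonneg le_sup_right le_sup_right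

/-- every element of the principal ideal generated by `u` has a value. -/
theorem IsVal.exists (hM : PIdl M) (hu : 0 ≤ u) (huM : u ∉ M)
    (hprime : ∀ y : X, (y ⊔ 0) ∈ M ∨ ((-y) ⊔ 0) ∈ M) {y : X} {k : ℝ} (hy : |y| ≤ k • u) :
    ∃ t, IsVal M u y t := by
  let S : Set ℝ := {c | (c • u - y) ⊔ 0 ∈ M}
  have hne : (-k) ∈ S := by
    change ((-k) • u - y) ⊔ 0 ∈ M
    have : ((-k) • u - y) ⊔ 0 = 0 := by
      rw [sup_eq_right, neg_smul]
      have h1 : -y ≤ k • u := (neg_le_abs y).trans hy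
      have : -(k • u) - y = -y - k • u := by abel
      rw [this]
      exact sub_nonpos.mpr h1
    rw [this]; exact hM.zero
  have hbd : ∀ c ∈ S, c ≤ k := by
    intro c hc
    by_contra hcon
    push Not at hcon
    refine absurd_of hM hu huM hcon (y := y) ?_ hc
    have : (y - k • u) ⊔ 0 = 0 := by
      rw [sup_eq_right, sub_nonpos]
      exact (le_abs_self y).trans hy
    rw [this]; exact hM.zero
  have hdown : ∀ c ∈ S, ∀ d, d ≤ c → d ∈ S := by
    intro c hc d hd
    exact mem_of_le hM hc (sub_le_sub_right (smul_le_smul_of_nonneg_right hd hu) _)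
  refine ⟨sSup S, ?_, ?_⟩
  · intro c hc
    obtain ⟨d, hd, hcd⟩ := exists_lt_of_lt_csSup ⟨_, hne⟩ hc
    exact hdown d hd c hcd.le
  · intro c hc
    have h1 : c ∉ S := fun h => absurd (le_csSup ⟨k, hbd⟩ h) (not_le.mpr hc)
    rcases hprime (c • u - y) with h | h
    · exact absurd h h1
    · rw [neg_sub] at h
      exact h

end ideal

section main

variable {X : Type u} [NormedAddCommGroup X] [NormedSpace ℝ X] [Lattice X] [IsOrderedAddMonoid X]
  [PosSMulMono ℝ X]

/-- The principal ideal generated by `u`. -/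
def prin (u : X) (hu : 0 ≤ u) : Submodule ℝ X where
  carrier := {x | ∃ c : ℝ, 0 ≤ c ∧ x ≤ c • u ∧ -x ≤ c • u}
  add_mem' := by
    rintro x y ⟨c, hc, h1, h2⟩ ⟨d, hd, h3, h4⟩
    refine ⟨c + d, add_nonneg hc hd, ?_, ?_⟩
    · rw [add_smul]; exact add_le_add h1 h3
    · rw [add_smul, neg_add]; exact add_le_add h2 h4
  zero_mem' := ⟨0, le_refl _, by simp, by simp⟩
  smul_mem' := by
    rintro r x ⟨c, hc, h1, h2⟩
    rcases le_total 0 r with hr | hr
    · refine ⟨r * c, mul_nonneg hr hc, ?_, ?_⟩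
      · rw [mul_smul]; exact smul_le_smul_of_nonneg_left h1 hr
      · rw [mul_smul, ← smul_neg]; exact smul_le_smul_of_nonneg_left h2 hr
    · refine ⟨(-r) * c, mul_nonneg (by linarith) hc, ?_, ?_⟩
      · rw [mul_smul]
        have : r • x = (-r) • (-x) := by rw [neg_smul_neg]
        rw [this]; exact smul_le_smul_of_nonneg_left h2 (by linarith)
      · rw [mul_smul, ← neg_smul]; exact smul_le_smul_of_nonneg_left h1 (by linarith)

theorem mem_prin {u : X} {hu : 0 ≤ u} {x : X} :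
    x ∈ prin u hu ↔ ∃ c : ℝ, 0 ≤ c ∧ x ≤ c • u ∧ -x ≤ c • u := Iff.rfl

theorem self_mem_prin (u : X) (hu : 0 ≤ u) : u ∈ prin u hu :=
  ⟨1, zero_le_one, by simp, by simpa using (neg_nonpos.mpr hu).trans hu⟩

theorem sup_mem_prin {u : X} {hu : 0 ≤ u} {x y : X} (hx : x ∈ prin u hu) (hy : y ∈ prin u hu) :
    x ⊔ y ∈ prin u hu := by
  obtain ⟨c, hc, h1, h2⟩ := hx
  obtain ⟨d, hd, h3, h4⟩ := hy
  refine ⟨c + d, add_nonneg hc hd, sup_le ?_ ?_, ?_⟩
  · rw [add_smul]; exact h1.trans (le_add_of_nonneg_right (smul_nonneg hd hu))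
  · rw [add_smul]; exact h3.trans (le_add_of_nonneg_left (smul_nonneg hc hu))
  · rw [add_smul]
    exact (neg_le_neg le_sup_left).trans (h2.trans (le_add_of_nonneg_right (smul_nonneg hd hu)))

/-- The characters of the principal ideal. -/
def Chars (u : X) (hu : 0 ≤ u) : Set (prin u hu → ℝ) :=
  {τ | ((∀ x y, τ (x + y) = τ x + τ y) ∧ (∀ (r : ℝ) x, τ (r • x) = r * τ x)) ∧
    (∀ x y z : prin u hu, (z : X) = (x : X) ⊔ y → τ z = max (τ x) (τ y)) ∧
    τ ⟨u, self_mem_prin u hu⟩ = 1}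

variable {u : X} {hu : 0 ≤ u}

theorem char_le {τ : prin u hu → ℝ} (hτ : τ ∈ Chars u hu) {x : prin u hu} {c : ℝ}
    (h : (x : X) ≤ c • u) : τ x ≤ c := by
  have h1 := hτ.2.1 x (c • ⟨u, self_mem_prin u hu⟩) (c • ⟨u, self_mem_prin u hu⟩) (by
    simpa using (sup_eq_right.mpr h).symm)
  rw [hτ.1.2, hτ.2.2, mul_one] at h1
  rw [h1]
  exact le_max_left _ _

theorem char_neg {τ : prin u hu → ℝ} (hτ : τ ∈ Chars u hu) (x : prin u hu) :
    τ (-x) = - τ x := by
  have := hτ.1.2 (-1) x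
  rw [neg_one_smul] at this
  rw [this]; ring

theorem isClosed_Chars : IsClosed (Chars u hu) := by
  have h : Chars u hu = ((⋂ x, ⋂ y, {τ : prin u hu → ℝ | τ (x + y) = τ x + τ y}) ∩
      (⋂ r : ℝ, ⋂ x, {τ : prin u hu → ℝ | τ (r • x) = r * τ x})) ∩
      ((⋂ x : prin u hu, ⋂ y : prin u hu, ⋂ z : prin u hu, ⋂ _ : (z : X) = (x : X) ⊔ y,
        {τ : prin u hu → ℝ | τ z = max (τ x) (τ y)}) ∩
      {τ : prin u hu → ℝ | τ ⟨u, self_mem_prin u hu⟩ = 1}) := by
    ext τ
    simp only [Chars, mem_ofPred_eq, mem_inter_iff, mem_iInter]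
  rw [h]
  refine IsClosed.inter (IsClosed.inter ?_ ?_) (IsClosed.inter ?_ ?_)
  · exact isClosed_iInter fun x => isClosed_iInter fun y => isClosed_eq (continuous_apply _)
      ((continuous_apply x).add (continuous_apply y))
  · exact isClosed_iInter fun r => isClosed_iInter fun y => isClosed_eq (continuous_apply _)
      (continuous_const.mul (continuous_apply _))
  · exact isClosed_iInter fun x => isClosed_iInter fun y => isClosed_iInter fun z =>
      isClosed_iInter fun _ => isClosed_eq (continuous_apply _)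
      ((continuous_apply x).max (continuous_apply y))
  · exact isClosed_eq (continuous_apply _) continuous_const

theorem isCompact_Chars : IsCompact (Chars u hu) := by
  choose c hc h1 h2 using fun x : prin u hu => mem_prin.mp x.2
  refine IsCompact.of_isClosed_subset
    (isCompact_univ_pi (s := fun x : prin u hu => Icc (-(c x)) (c x)) fun x => isCompact_Icc)
    isClosed_Chars ?_
  intro τ hτ x _
  refine ⟨?_, char_le hτ (h1 x)⟩
  have h3 := char_le hτ (x := -x) (c := c x) (by simpa using h2 x)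
  rw [char_neg hτ] at h3
  linarith

/-- Enough characters. -/
theorem exists_char {x : X} (hx : x ∈ prin u hu) {ε : ℝ} (h : ¬ x ≤ ε • u) :
    ∃ τ ∈ Chars u hu, ε ≤ τ ⟨x, hx⟩ := by
  set v : X := (x - ε • u) ⊔ 0 with hv
  set w : X := (-(x - ε • u)) ⊔ 0 with hw
  have hv0 : 0 ≤ v := le_sup_right
  have hw0 : 0 ≤ w := le_sup_right
  have hvw : v ⊓ w = 0 := sup_inf_neg_sup _
  have hvne : v ≠ 0 := by
    intro h0
    have : x - ε • u ≤ 0 := h0 ▸ le_sup_left
    exact h (sub_nonpos.mp this)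
  have h0I : PIdl ({0} : Set X) :=
    { nonneg := by rintro x rfl; exact le_refl _
      zero := rfl
      add := by rintro x rfl y rfl; simp
      smul := by rintro c hc x rfl; simp
      down := by rintro x rfl y h1 h2; exact le_antisymm h2 h1 }
  have hI := pidl_adjoin h0I hw0
  have huI : u ∉ {x : X | 0 ≤ x ∧ ∃ m ∈ ({0} : Set X), ∃ c : ℝ, 0 ≤ c ∧ x ≤ m + c • w} := by
    rintro ⟨-, m, rfl, c, hc, hle⟩
    rw [zero_add] at hle
    obtain ⟨k, hk, hk1, -⟩ := (prin u hu).sub_mem hx ((prin u hu).smul_mem ε (self_mem_prin u hu))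
    have h1 : v ≤ k • u := sup_le hk1 (smul_nonneg hk hu)
    have h2 : v ≤ (k * c) • w := h1.trans (by
      rw [mul_smul]; exact smul_le_smul_of_nonneg_left hle hk)
    have h3 : v ≤ (k * c + 1) • w := h2.trans (by
      rw [add_smul]; exact le_add_of_nonneg_right (by simpa using hw0))
    have hpos : 0 < k * c + 1 := by positivity
    have h4 : v ≤ (k * c + 1) • v := by
      rw [add_smul, one_smul]
      exact le_add_of_nonneg_left (smul_nonneg (by positivity) hv0)
    have h5 : v ≤ ((k * c + 1) • v) ⊓ ((k * c + 1) • w) := le_inf h4 h3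
    rw [← smul_inf_of_pos hpos, hvw, smul_zero] at h5
    exact hvne (le_antisymm h5 hv0)
  obtain ⟨M, hM, hIM, huM, hprime⟩ := exists_maximal hI hu huI
  have hval : ∀ y : prin u hu, ∃ t, IsVal M u (y : X) t := by
    rintro ⟨y, hy⟩
    obtain ⟨k, hk, hk1, hk2⟩ := hy
    exact IsVal.exists hM hu huM hprime (y := y) (k := k) (sup_le hk1 hk2)
  choose τ hτ using hval
  refine ⟨τ, ⟨⟨?_, ?_⟩, ?_, ?_⟩, ?_⟩
  · intro y z
    refine IsVal.unique hM hu huM (hτ (y + z)) ?_
    exact IsVal.add hM (hτ y) (hτ z)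
  · intro r y
    refine IsVal.unique hM hu huM (hτ (r • y)) ?_
    exact IsVal.smul hM hu r (hτ y)
  · intro y z t ht
    refine IsVal.unique hM hu huM (hτ t) ?_
    rw [ht]
    exact IsVal.sup hM (hτ y) (hτ z)
  · exact IsVal.unique hM hu huM (hτ _) (IsVal.one hM hu)
  · by_contra hcon
    push Not at hcon
    obtain ⟨c, hc1, hc2⟩ := exists_between hcon
    have h1 := (hτ ⟨x, hx⟩).2 c hc1
    have h2 : (ε • u - x) ⊔ 0 ∈ M := by
      have : w ∈ M := hIM ⟨hw0, 0, rfl, 1, zero_le_one, by simp⟩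
      rw [hw, neg_sub] at this
      exact this
    exact absurd_of hM hu huM hc2 h1 h2

variable [HasSolidNorm X]

theorem le_of_char {x : X} (hx : x ∈ prin u hu) {c : ℝ} (h : ∀ τ ∈ Chars u hu, τ ⟨x, hx⟩ ≤ c) :
    x ≤ c • u := by
  have h1 : ∀ ε > c, x ≤ ε • u := by
    intro ε hε
    by_contra hcon
    obtain ⟨τ, hτ, h2⟩ := exists_char (hu := hu) hx hcon
    linarith [h τ hτ]
  have h2 : Filter.Tendsto (fun ε : ℝ => ε • u) (𝓝[>] c) (𝓝 (c • u)) := by
    have h3 : Continuous (fun ε : ℝ => ε • u) := by fun_prop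
    exact (h3.tendsto c).mono_left nhdsWithin_le_nhds
  refine ge_of_tendsto h2 ?_
  filter_upwards [self_mem_nhdsWithin] with ε hε
  exact h1 ε hε

instance : CompactSpace (Chars u hu) := isCompact_iff_compactSpace.mp isCompact_Chars

/-- evaluation -/
noncomputable def ev (u : X) (hu : 0 ≤ u) : prin u hu →ₗ[ℝ] C(Chars u hu, ℝ) where
  toFun x := ⟨fun τ => (τ : prin u hu → ℝ) x,
    (continuous_apply x).comp continuous_subtype_val⟩
  map_add' x y := by ext τ; exact τ.2.1.1 x y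
  map_smul' r x := by ext τ; exact τ.2.1.2 r x

theorem ev_apply (x : prin u hu) (τ : Chars u hu) : ev u hu x τ = (τ : prin u hu → ℝ) x := rfl

theorem ev_sup {x y z : prin u hu} (h : (z : X) = (x : X) ⊔ y) :
    ev u hu z = ev u hu x ⊔ ev u hu y := by
  ext τ; exact τ.2.2.1 x y z h

theorem ev_one : ev u hu ⟨u, self_mem_prin u hu⟩ = 1 := by
  ext τ; exact τ.2.2.2

theorem le_of_ev {x : prin u hu} {c : ℝ} (h : ‖ev u hu x‖ ≤ c) :
    (x : X) ≤ c • u ∧ -(x : X) ≤ c • u := by
  constructor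
  · refine le_of_char (hu := hu) x.2 fun τ hτ => ?_
    have h1 := ContinuousMap.norm_coe_le_norm (ev u hu x) ⟨τ, hτ⟩
    rw [Real.norm_eq_abs] at h1
    exact (le_abs_self _).trans (h1.trans h)
  · refine le_of_char (hu := hu) (-x).2 fun τ hτ => ?_
    have h1 := ContinuousMap.norm_coe_le_norm (ev u hu (-x)) ⟨τ, hτ⟩
    rw [Real.norm_eq_abs] at h1
    have h2 : ‖ev u hu (-x)‖ ≤ c := by rw [map_neg, norm_neg]; exact h
    exact (le_abs_self _).trans (h1.trans h2)

theorem ev_le {x : prin u hu} {c : ℝ} (hc : 0 ≤ c) (h1 : (x : X) ≤ c • u) (h2 : -(x : X) ≤ c • u) :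
    ‖ev u hu x‖ ≤ c := by
  rw [ContinuousMap.norm_le _ hc]
  intro τ
  rw [Real.norm_eq_abs, abs_le]
  refine ⟨?_, char_le τ.2 h1⟩
  have h3 := char_le τ.2 (x := -x) (c := c) (by simpa using h2)
  rw [char_neg τ.2] at h3
  rw [ev_apply]
  linarith

theorem ev_injective : Function.Injective (ev u hu) := by
  rw [← LinearMap.ker_eq_bot, LinearMap.ker_eq_bot']
  intro x hx
  have h := le_of_ev (x := x) (c := 0) (by rw [hx, norm_zero])
  rw [zero_smul, Left.neg_nonpos_iff] at h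
  exact Subtype.ext (le_antisymm h.1 h.2)

theorem ev_dense : closure (range (ev u hu)) = ⊤ := by
  refine ContinuousMap.sublattice_closure_eq_top _ ⟨_, mem_range_self 0⟩ ?_ ?_ ?_
  · rintro _ ⟨x, rfl⟩ _ ⟨y, rfl⟩
    refine ⟨-⟨(-x : prin u hu) ⊔ (-y : prin u hu), sup_mem_prin (-x).2 (-y).2⟩, ?_⟩
    rw [map_neg, ev_sup (x := -x) (y := -y) rfl, map_neg, map_neg]
    ext τ
    simp [max_neg_neg]
  · rintro _ ⟨x, rfl⟩ _ ⟨y, rfl⟩
    exact ⟨⟨(x : X) ⊔ y, sup_mem_prin x.2 y.2⟩, ev_sup rfl⟩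
  · intro v x y
    by_cases hxy : x = y
    · subst hxy
      refine ⟨ev u hu (v x • ⟨u, self_mem_prin u hu⟩), mem_range_self _, ?_, ?_⟩ <;>
      · rw [map_smul, ev_one]; simp
    · have : ∃ e : prin u hu, (x : prin u hu → ℝ) e ≠ (y : prin u hu → ℝ) e := by
        by_contra hcon
        push Not at hcon
        exact hxy (Subtype.ext (funext hcon))
      obtain ⟨e, he⟩ := this
      have he' : (x : prin u hu → ℝ) e - (y : prin u hu → ℝ) e ≠ 0 := sub_ne_zero.mpr he
      set a : ℝ := (v x - v y) / ((x : prin u hu → ℝ) e - (y : prin u hu → ℝ) e) with ha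
      set b : ℝ := v x - a * (x : prin u hu → ℝ) e with hb
      refine ⟨ev u hu (a • e + b • ⟨u, self_mem_prin u hu⟩), mem_range_self _, ?_, ?_⟩
      · rw [map_add, map_smul, map_smul, ev_one]
        simp only [ContinuousMap.add_apply, ContinuousMap.smul_apply, ev_apply, smul_eq_mul,
          ContinuousMap.one_apply, mul_one]
        rw [hb]; ring
      · rw [map_add, map_smul, map_smul, ev_one]
        simp only [ContinuousMap.add_apply, ContinuousMap.smul_apply, ev_apply, smul_eq_mul,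
          ContinuousMap.one_apply, mul_one]
        rw [hb]
        have : a * ((x : prin u hu → ℝ) e - (y : prin u hu → ℝ) e) = v x - v y := by
          rw [ha, div_mul_cancel₀ _ he']
        linarith

variable [CompleteSpace X]

theorem ev_surjective : Function.Surjective (ev u hu) := by
  intro f
  have hf : f ∈ closure (range (ev u hu)) := by rw [ev_dense]; trivial
  have h0 : ∀ n : ℕ, ∃ x : prin u hu, dist f (ev u hu x) < 1 / ((n : ℝ) + 1) := by
    intro n
    obtain ⟨_, ⟨x, rfl⟩, hx⟩ := Metric.mem_closure_iff.mp hf (1 / ((n : ℝ) + 1)) (by positivity)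
    exact ⟨x, hx⟩
  choose x hx using h0
  have hd : ∀ N n m : ℕ, N ≤ n → N ≤ m →
      ((x n : X) - x m ≤ (2 / ((N : ℝ) + 1)) • u ∧ -((x n : X) - x m) ≤ (2 / ((N : ℝ) + 1)) • u) := by
    intro N n m hn hm
    have h1 : ‖ev u hu (x n - x m)‖ ≤ 2 / ((N : ℝ) + 1) := by
      rw [map_sub, ← dist_eq_norm]
      have h2 := dist_triangle_left (ev u hu (x n)) (ev u hu (x m)) f
      have h3 := hx n
      have h4 := hx m
      have h5 : 1 / ((n : ℝ) + 1) ≤ 1 / ((N : ℝ) + 1) := by
        apply one_div_le_one_div_of_le (by positivity)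
        have : (N : ℝ) ≤ n := by exact_mod_cast hn
        linarith
      have h6 : 1 / ((m : ℝ) + 1) ≤ 1 / ((N : ℝ) + 1) := by
        apply one_div_le_one_div_of_le (by positivity)
        have : (N : ℝ) ≤ m := by exact_mod_cast hm
        linarith
      have h7 : 2 / ((N : ℝ) + 1) = 1 / ((N : ℝ) + 1) + 1 / ((N : ℝ) + 1) := by ring
      rw [h7]
      linarith
    have h2 := le_of_ev h1
    simpa using h2
  have hn : ∀ N n m : ℕ, N ≤ n → N ≤ m → dist (x n : X) (x m) ≤ 2 / ((N : ℝ) + 1) * ‖u‖ := by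
    intro N n m hn hm
    obtain ⟨h1, h2⟩ := hd N n m hn hm
    rw [dist_eq_norm]
    have h3 : |(x n : X) - x m| ≤ |(2 / ((N : ℝ) + 1)) • u| :=
      (sup_le h1 h2).trans (le_abs_self _)
    have h4 := norm_le_norm_of_abs_le_abs h3
    rw [norm_smul, Real.norm_eq_abs, abs_of_nonneg (by positivity : (0 : ℝ) ≤ 2 / ((N : ℝ) + 1))] at h4
    exact h4
  have htend : Filter.Tendsto (fun N : ℕ => 2 / ((N : ℝ) + 1) * ‖u‖) Filter.atTop (𝓝 0) := by
    have h1 := tendsto_one_div_add_atTop_nhds_zero_nat (𝕜 := ℝ)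
    have h2 := (h1.const_mul 2).mul_const ‖u‖
    simpa [div_eq_mul_inv] using h2
  have hc : CauchySeq (fun n => (x n : X)) :=
    cauchySeq_of_le_tendsto_0 _ (fun n m N hn' hm' => hn N n m hn' hm') htend
  obtain ⟨y, hy⟩ := cauchySeq_tendsto_of_complete hc
  have hlim : ∀ N : ℕ, (y - x N ≤ (2 / ((N : ℝ) + 1)) • u ∧ -(y - x N) ≤ (2 / ((N : ℝ) + 1)) • u) := by
    intro N
    constructor
    · refine le_of_tendsto (hy.sub_const (x N : X)) ?_
      filter_upwards [Filter.eventually_ge_atTop N] with n hn'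
      exact (hd N n N hn' le_rfl).1
    · refine le_of_tendsto (hy.sub_const (x N : X)).neg ?_
      filter_upwards [Filter.eventually_ge_atTop N] with n hn'
      exact (hd N n N hn' le_rfl).2
  have hymem : y ∈ prin u hu := by
    have h1 : y - x 0 ∈ prin u hu := ⟨_, by positivity, (hlim 0).1, (hlim 0).2⟩
    have h2 := (prin u hu).add_mem h1 (x 0).2
    simpa using h2
  refine ⟨⟨y, hymem⟩, ?_⟩
  have hdist : ∀ N : ℕ, dist (ev u hu ⟨y, hymem⟩) f ≤ 3 / ((N : ℝ) + 1) := by
    intro N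
    have h1 : ‖ev u hu (⟨y, hymem⟩ - x N)‖ ≤ 2 / ((N : ℝ) + 1) :=
      ev_le (by positivity) (by simpa using (hlim N).1) (by simpa using (hlim N).2)
    rw [map_sub, ← dist_eq_norm] at h1
    have h2 := dist_triangle_right (ev u hu ⟨y, hymem⟩) f (ev u hu (x N))
    have h3 := hx N
    have h7 : 3 / ((N : ℝ) + 1) = 2 / ((N : ℝ) + 1) + 1 / ((N : ℝ) + 1) := by ring
    rw [h7]
    linarith
  have htend3 : Filter.Tendsto (fun N : ℕ => 3 / ((N : ℝ) + 1)) Filter.atTop (𝓝 0) := by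
    have h1 := tendsto_one_div_add_atTop_nhds_zero_nat (𝕜 := ℝ)
    have h2 := (h1.const_mul 3)
    simpa [div_eq_mul_inv] using h2
  exact dist_le_zero.mp (ge_of_tendsto' htend3 hdist)

end main

/-- **Kakutani's representation theorem** for the principal ideal generated by `u ≥ 0` of a
Banach lattice. -/
theorem kakutani {X : Type u} [NormedAddCommGroup X] [NormedSpace ℝ X] [Lattice X]
    [IsOrderedAddMonoid X] [PosSMulMono ℝ X] [HasSolidNorm X] [CompleteSpace X] (u : X)
    (hu : 0 ≤ u) :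
    ∃ (L : Type u) (_ : TopologicalSpace L) (_ : CompactSpace L) (_ : T2Space L)
      (Ψ : C(L, ℝ) →ₗ[ℝ] X), (∀ f g, Ψ (f ⊔ g) = Ψ f ⊔ Ψ g) ∧ Function.Injective Ψ ∧ Ψ 1 = u ∧
        ∀ (x : X) (c : ℝ), |x| ≤ c • u → ∃ f, Ψ f = x := by
  let e : prin u hu ≃ₗ[ℝ] C(Chars u hu, ℝ) :=
    LinearEquiv.ofBijective (ev u hu) ⟨ev_injective, ev_surjective⟩
  have he : ∀ x, e x = ev u hu x := fun x => rfl
  have hu1 : e ⟨u, self_mem_prin u hu⟩ = 1 := ev_one
  refine ⟨Chars u hu, inferInstance, inferInstance, inferInstance,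
    (prin u hu).subtype ∘ₗ e.symm.toLinearMap, ?_, ?_, ?_, ?_⟩
  · intro f g
    change ((e.symm (f ⊔ g) : prin u hu) : X) = (e.symm f : X) ⊔ (e.symm g : X)
    have h1 : e.symm (f ⊔ g) = ⟨(e.symm f : X) ⊔ (e.symm g : X),
        sup_mem_prin (e.symm f).2 (e.symm g).2⟩ := by
      rw [LinearEquiv.symm_apply_eq, he, ev_sup (x := e.symm f) (y := e.symm g) rfl, ← he, ← he,
        LinearEquiv.apply_symm_apply, LinearEquiv.apply_symm_apply]
    rw [h1]
  · intro f g hfg
    exact e.symm.injective (Subtype.ext hfg)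
  · change ((e.symm 1 : prin u hu) : X) = u
    rw [← hu1, LinearEquiv.symm_apply_apply]
  · intro x c hx
    have hc : x ∈ prin u hu := by
      refine ⟨|c|, abs_nonneg _, ?_, ?_⟩
      · exact (le_abs_self x).trans (hx.trans (smul_le_smul_of_nonneg_right (le_abs_self c) hu))
      · exact (neg_le_abs x).trans (hx.trans (smul_le_smul_of_nonneg_right (le_abs_self c) hu))
    refine ⟨e ⟨x, hc⟩, ?_⟩
    change ((e.symm (e ⟨x, hc⟩) : prin u hu) : X) = x
    rw [LinearEquiv.symm_apply_apply]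

end ProjBL
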