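import Pool.Agent.Work.MP_dca501_an.PSpace
import Pool.Agent.Work.MP_dca501_an.Chars
import Pool.Agent.Work.MP_dca501_an.Kakutani

/-!
# Isomorphic projectivity of `P(K, r)`
-/

namespace ProjBL

open Set Topology

set_option linter.unusedSectionVars false

universe u v

/-- Controlled extension property. -/
def CEP {K : Type v} [TopologicalSpace K] (W : WSys K) (β : ℝ) : Prop :=
  ∀ (L L' : Type u) [TopologicalSpace L] [CompactSpace L] [T2Space L] [TopologicalSpace L']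
    [CompactSpace L'] [T2Space L'] (ι : C(L', L)), Function.Injective ι → ∀ φ : C(L', K),
    ∀ g : ℕ → C(L, ℝ), (∀ n l, 0 ≤ g n l) → (∀ n l, g n (ι l) = W.r n (φ l)) →
      ∃ ψ : C(L, K), (∀ l, ψ (ι l) = φ l) ∧ ∀ n l, W.r n (ψ l) ≤ β * (1 + g n l)

section

variable {X Y : Type u} [NormedAddCommGroup X] [NormedSpace ℝ X] [Lattice X]
  [IsOrderedAddMonoid X] [PosSMulMono ℝ X] [HasSolidNorm X] [CompleteSpace X]
  [NormedAddCommGroup Y] [NormedSpace ℝ Y] [Lattice Y]
  [IsOrderedAddMonoid Y] [PosSMulMono ℝ Y] [HasSolidNorm Y] [CompleteSpace Y]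

theorem IsLatHom.mono {T : X →ₗ[ℝ] Y} (h : IsLatHom T) {x y : X} (hxy : x ≤ y) : T x ≤ T y := by
  have := h x y
  rw [sup_eq_right.mpr hxy] at this
  exact sup_eq_right.mp this.symm

theorem IsLatHom.abs {T : X →ₗ[ℝ] Y} (h : IsLatHom T) (x : X) : T |x| = |T x| := by
  change T (x ⊔ -x) = T x ⊔ -T x
  rw [h, map_neg]

theorem IsLatHom.inf {T : X →ₗ[ℝ] Y} (h : IsLatHom T) (x y : X) : T (x ⊓ y) = T x ⊓ T y := by
  have h1 : x ⊓ y = -(-x ⊔ -y) := by rw [← neg_inf, neg_neg]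
  have h2 : T x ⊓ T y = -(-T x ⊔ -T y) := by rw [← neg_inf, neg_neg]
  rw [h1, h2, map_neg, h, map_neg, map_neg]

end

theorem exists_lift {X Y : Type u} [NormedAddCommGroup X] [NormedSpace ℝ X] [Lattice X]
    [IsOrderedAddMonoid X] [PosSMulMono ℝ X] [HasSolidNorm X] [CompleteSpace X]
    [NormedAddCommGroup Y] [NormedSpace ℝ Y] [Lattice Y]
    [IsOrderedAddMonoid Y] [PosSMulMono ℝ Y] [HasSolidNorm Y] [CompleteSpace Y]
    {K : Type v} [TopologicalSpace K] [CompactSpace K] [T2Space K] (W : WSys K) {β : ℝ}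
    (hβ : 1 ≤ β) (hK : CEP.{u} W β) (Q : X →ₗ[ℝ] Y) (hQ : IsLatHom Q)
    (hQn : ∀ x, ‖Q x‖ ≤ ‖x‖) (hQl : ∀ y : Y, ∀ ε > 0, ∃ x, Q x = y ∧ ‖x‖ ≤ ‖y‖ + ε)
    (T : W.PSp →L[ℝ] Y) (hT : IsLatHom (T : W.PSp →ₗ[ℝ] Y)) :
    ∃ T' : W.PSp →L[ℝ] X, IsLatHom (T' : W.PSp →ₗ[ℝ] X) ∧ (∀ p, Q (T' p) = T p) ∧
      ‖T'‖ ≤ 4 * β * ‖T‖ := by
  by_cases hT0 : T = 0
  · refine ⟨0, fun x y => ?_, fun p => ?_, ?_⟩
    · simp
    · rw [hT0]; simp
    · rw [norm_zero]; positivity
  have hMpos : 0 < ‖T‖ := norm_pos_iff.mpr hT0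
  set M : ℝ := ‖T‖ with hM
  have : Nonempty K := by
    by_contra hcon
    apply hT0
    ext p
    have : p = 0 := WSys.PSp.ext (fun x => (hcon ⟨x⟩).elim)
    rw [this]; simp
  -- positive lifts
  have hlift : ∀ y : Y, 0 ≤ y → ‖y‖ ≤ M → ∃ x : X, 0 ≤ x ∧ Q x = y ∧ ‖x‖ ≤ 2 * M := by
    intro y hy hyM
    obtain ⟨x, hx, hx'⟩ := hQl y M hMpos
    refine ⟨|x|, abs_nonneg _, ?_, ?_⟩
    · rw [hQ.abs, hx, abs_of_nonneg hy]
    · rw [norm_abs_eq_norm]; linarith
  have hTmono : ∀ {p q : W.PSp}, p ≤ q → T p ≤ T q := fun {p q} h => by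
    have := hT p q
    rw [sup_eq_right.mpr h] at this
    exact sup_eq_right.mp this.symm
  have hTle : ∀ p : W.PSp, ‖p‖ ≤ 1 → ‖T p‖ ≤ M := fun p hp => by
    refine (T.le_opNorm p).trans ?_
    exact (mul_le_mul_of_nonneg_left hp (norm_nonneg _)).trans (mul_one _).le
  set one : W.PSp := W.emb 1 with hone
  have honer : one = W.emb (W.r 0) := by
    rw [hone]; congr 1; ext x; exact (W.r0 x).symm
  have hone0 : (0 : W.PSp) ≤ one := fun x => zero_le_one
  have hone1 : ‖one‖ ≤ 1 := by rw [honer]; exact WSys.norm_emb_r 0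
  obtain ⟨u, hu0, hu, hun⟩ := hlift (T one) (by rw [← map_zero T]; exact hTmono hone0)
    (hTle _ hone1)
  have hrl : ∀ n, ∃ x : X, 0 ≤ x ∧ Q x = T (W.emb (W.r n)) ∧ ‖x‖ ≤ 2 * M := fun n =>
    hlift _ (by rw [← map_zero T]; exact hTmono (fun x => W.rn n x)) (hTle _ (WSys.norm_emb_r n))
  choose s hs0 hs1 hs2 using hrl
  -- truncated lifts
  set R : ℕ → X := fun n => s n ⊓ (‖W.r n‖ • u) with hR
  have hR0 : ∀ n, 0 ≤ R n := fun n => le_inf (hs0 n) (smul_nonneg (norm_nonneg _) hu0)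
  have hRn : ∀ n, ‖R n‖ ≤ 2 * M := fun n => by
    refine le_trans (norm_le_norm_of_abs_le_abs ?_) (hs2 n)
    rw [abs_of_nonneg (hR0 n), abs_of_nonneg (hs0 n)]
    exact inf_le_left
  have hRQ : ∀ n, Q (R n) = T (W.emb (W.r n)) := fun n => by
    rw [hR]
    simp only
    rw [hQ.inf, hs1, map_smul, hu, ← map_smul, inf_eq_left]
    refine hTmono (fun x => ?_)
    change W.r n x ≤ ‖W.r n‖ * 1
    rw [mul_one]
    exact (le_abs_self _).trans ((W.r n).norm_coe_le_norm x)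
  -- Kakutani representations
  obtain ⟨L, _, _, _, Ψ, hΨs, hΨi, hΨ1, hΨr⟩ := kakutani u hu0
  have hQu0 : 0 ≤ Q u := by rw [← map_zero Q]; exact hQ.mono hu0
  obtain ⟨L', _, _, _, Ψ', hΨs', hΨi', hΨ1', hΨr'⟩ := kakutani (Q u) hQu0
  obtain ⟨φ, hφ⟩ := exists_factor Ψ' hΨs' hΨi' hΨ1' hΨr' ((T : W.PSp →ₗ[ℝ] Y).comp W.emb)
    (fun f g => by
      simp only [LinearMap.comp_apply]
      rw [WSys.emb_sup]; exact hT _ _)
    (by
      simp only [LinearMap.comp_apply]
      exact hu.symm)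
  obtain ⟨ι, hι⟩ := exists_factor Ψ' hΨs' hΨi' hΨ1' hΨr' (Q.comp Ψ)
    (fun f g => by
      simp only [LinearMap.comp_apply]
      rw [hΨs]; exact hQ _ _)
    (by simp only [LinearMap.comp_apply]; rw [hΨ1])
  simp only [LinearMap.comp_apply] at hφ hι
  have hιi : Function.Injective ι := by
    intro l1 l2 h12
    by_contra hne
    obtain ⟨f, f0, f1, -⟩ := exists_continuous_zero_one_of_isClosed
      (isClosed_singleton (x := l1)) (isClosed_singleton (x := l2)) (by simpa using hne)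
    obtain ⟨x, hx, -⟩ := hQl (Ψ' f) 1 one_pos
    -- truncate
    have hle : |Ψ' f| ≤ ‖f‖ • Q u := by
      have h1 : |Ψ' f| = Ψ' |f| := by
        change Ψ' f ⊔ -Ψ' f = Ψ' (f ⊔ -f)
        rw [hΨs', map_neg]
      rw [h1, ← hΨ1', ← map_smul]
      have h2 : |f| ≤ ‖f‖ • (1 : C(L', ℝ)) := fun x => by
        change |f x| ≤ ‖f‖ * 1
        rw [mul_one]; exact f.norm_coe_le_norm x
      have h3 := hΨs' |f| (‖f‖ • (1 : C(L', ℝ)))
      rw [sup_eq_right.mpr h2] at h3
      exact sup_eq_right.mp h3.symm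
    have hle' := abs_le'.mp hle
    obtain ⟨g, hg⟩ := hΨr ((x ⊓ (‖f‖ • u)) ⊔ (-(‖f‖ • u))) ‖f‖ (by
      have h0 : 0 ≤ ‖f‖ • u := smul_nonneg (norm_nonneg _) hu0
      rw [abs_le']
      exact ⟨sup_le inf_le_right (neg_nonpos.mpr h0 |>.trans h0), neg_le.mp le_sup_right⟩)
    have h4 : Ψ' f = Ψ' (g.comp ι) := by
      rw [← hι, hg, hQ, hQ.inf, map_neg, map_smul, hx, inf_eq_left.mpr hle'.1,
        sup_eq_left.mpr (neg_le.mp hle'.2)]
    have h5 : f = g.comp ι := hΨi' h4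
    have h6 : f l1 = 0 := f0 rfl
    have h7 : f l2 = 1 := f1 rfl
    rw [h5] at h6 h7
    change g (ι l1) = 0 at h6
    change g (ι l2) = 1 at h7
    rw [h12, h7] at h6
    exact one_ne_zero h6
  -- the functions representing the truncated lifts
  have hGex : ∀ n, ∃ g, Ψ g = R n := fun n => hΨr _ ‖W.r n‖ (by
    rw [abs_of_nonneg (hR0 n)]; exact inf_le_right)
  choose G hG using hGex
  have hG0 : ∀ n l, 0 ≤ G n l := by
    intro n l
    have h1 : G n ⊔ 0 = G n := hΨi (by rw [hΨs, hG, map_zero]; exact sup_eq_left.mpr (hR0 n))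
    have h2 : (G n ⊔ 0) l = G n l ⊔ 0 := rfl
    rw [h1] at h2
    rw [h2]; exact le_sup_right
  have hGι : ∀ n l, G n (ι l) = W.r n (φ l) := by
    intro n l
    have h1 : (G n).comp ι = (W.r n).comp φ := hΨi' (by
      rw [← hι, hG, hRQ, ← hφ]; rfl)
    exact congrArg (fun f : C(L', ℝ) => f l) h1
  obtain ⟨ψ, hψ1, hψ2⟩ := hK L L' ι hιi φ G hG0 hGι
  -- the lift on continuous functions
  let A : C(K, ℝ) →ₗ[ℝ] X :=
    { toFun := fun f => Ψ (f.comp ψ)
      map_add' := fun f g => by rw [← map_add]; rfl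
      map_smul' := fun a f => by rw [RingHom.id_apply, ← map_smul]; rfl }
  have hΨmono : ∀ {f g : C(L, ℝ)}, f ≤ g → Ψ f ≤ Ψ g := fun {f g} h => by
    have := hΨs f g
    rw [sup_eq_right.mpr h] at this
    exact sup_eq_right.mp this.symm
  have hAs : ∀ f g, A (f ⊔ g) = A f ⊔ A g := fun f g => by
    change Ψ _ = Ψ _ ⊔ Ψ _
    rw [← hΨs]; rfl
  have hAQ : ∀ f, Q (A f) = T (W.emb f) := fun f => by
    change Q (Ψ _) = _
    rw [hι]
    have h1 : (f.comp ψ).comp ι = f.comp φ := by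
      ext l; exact congrArg f (hψ1 l)
    rw [h1, ← hφ]; rfl
  have hAn : ∀ f, ‖A f‖ ≤ (4 * β * M) * ‖W.emb f‖ := by
    intro f
    -- it suffices to bound with dominations
    have key : ∀ c, W.Dom f c → ‖A f‖ ≤ (4 * β * M) * c := by
      intro c hc
      refine le_of_forall_pos_le_add (fun ε hε => ?_)
      obtain ⟨w, N, w0, w1, w2⟩ := WSys.exists_finite_dom hc
        (show 0 < ε / (2 * M) by positivity)
      have h1 : |A f| ≤ (ε / (2 * M)) • u + ∑ n ∈ Finset.range N, (w n * β) • (u + R n) := by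
        have e1 : |A f| = Ψ |f.comp ψ| := by
          change Ψ _ ⊔ -Ψ _ = Ψ (_ ⊔ -_)
          rw [hΨs, map_neg]
        have e2 : (ε / (2 * M)) • u + ∑ n ∈ Finset.range N, (w n * β) • (u + R n)
            = Ψ ((ε / (2 * M)) • (1 : C(L, ℝ))
              + ∑ n ∈ Finset.range N, (w n * β) • ((1 : C(L, ℝ)) + G n)) := by
          rw [map_add, map_smul, hΨ1, map_sum]
          congr 1
          refine Finset.sum_congr rfl (fun n _ => ?_)
          rw [map_smul, map_add, hΨ1, hG]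
        rw [e1, e2]
        refine hΨmono (fun l => ?_)
        change |f (ψ l)| ≤ _
        refine (w2 (ψ l)).trans ?_
        change _ ≤ ((ε / (2 * M)) • (1 : C(L, ℝ))
          + ∑ n ∈ Finset.range N, (w n * β) • ((1 : C(L, ℝ)) + G n)) l
        rw [ContinuousMap.add_apply, ContinuousMap.smul_apply, ContinuousMap.sum_apply,
          ContinuousMap.one_apply, smul_eq_mul, mul_one]
        refine add_le_add le_rfl (Finset.sum_le_sum (fun n _ => ?_))
        rw [ContinuousMap.smul_apply, ContinuousMap.add_apply, ContinuousMap.one_apply,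
          smul_eq_mul, mul_assoc]
        exact mul_le_mul_of_nonneg_left (hψ2 n l) (w0 n)
      have hsum0 : 0 ≤ (ε / (2 * M)) • u + ∑ n ∈ Finset.range N, (w n * β) • (u + R n) :=
        (abs_nonneg _).trans h1
      have h2 : ‖A f‖ ≤ ‖(ε / (2 * M)) • u + ∑ n ∈ Finset.range N, (w n * β) • (u + R n)‖ := by
        refine norm_le_norm_of_abs_le_abs ?_
        rw [abs_of_nonneg hsum0]; exact h1
      refine h2.trans ((norm_add_le _ _).trans ?_)
      have h3 : ‖(ε / (2 * M)) • u‖ ≤ ε := by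
        rw [norm_smul, Real.norm_of_nonneg (by positivity)]
        calc ε / (2 * M) * ‖u‖ ≤ ε / (2 * M) * (2 * M) :=
              mul_le_mul_of_nonneg_left hun (by positivity)
          _ = ε := by field_simp
      have h4 : ‖∑ n ∈ Finset.range N, (w n * β) • (u + R n)‖
          ≤ ∑ n ∈ Finset.range N, w n * (4 * β * M) := by
        refine (norm_sum_le _ _).trans (Finset.sum_le_sum (fun n _ => ?_))
        rw [norm_smul, Real.norm_of_nonneg (mul_nonneg (w0 n) (by linarith))]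
        have h5 : ‖u + R n‖ ≤ 4 * M := (norm_add_le _ _).trans (by linarith [hRn n])
        calc w n * β * ‖u + R n‖ ≤ w n * β * (4 * M) :=
              mul_le_mul_of_nonneg_left h5 (mul_nonneg (w0 n) (by linarith))
          _ = w n * (4 * β * M) := by ring
      rw [← Finset.sum_mul] at h4
      have h6 : (∑ n ∈ Finset.range N, w n) * (4 * β * M) ≤ c * (4 * β * M) :=
        mul_le_mul_of_nonneg_right w1 (by positivity)
      linarith [mul_comm c (4 * β * M)]
    refine le_of_forall_pos_le_add (fun ε hε => ?_)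
    have hpos : 0 < 4 * β * M := by positivity
    have h7 := key (‖W.emb f‖ + ε / (4 * β * M))
      (WSys.exists_dom_lt (f := W.emb f) (lt_add_of_pos_right _ (by positivity)))
    rw [mul_add] at h7
    have h8 : 4 * β * M * (ε / (4 * β * M)) = ε := by field_simp
    linarith
  -- extension by density
  have hdense := WSys.denseRange_emb (W := W)
  have hex : ∃ C, ∀ f, ‖A f‖ ≤ C * ‖W.emb f‖ := ⟨_, hAn⟩
  set T' : W.PSp →L[ℝ] X := A.extendOfNorm W.emb with hT'
  have hT'e : ∀ f, T' (W.emb f) = A f := fun f =>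
    LinearMap.extendOfNorm_eq hdense hex f
  have hQc : Continuous Q := by
    have : LipschitzWith 1 Q := LipschitzWith.of_dist_le_mul (fun x y => by
      rw [dist_eq_norm, dist_eq_norm, ← map_sub, NNReal.coe_one, one_mul]; exact hQn _)
    exact this.continuous
  refine ⟨T', ?_, ?_, ?_⟩
  · intro x y
    refine hdense.induction_on₂ (p := fun x y => T' (x ⊔ y) = T' x ⊔ T' y) ?_ ?_ x y
    · refine isClosed_eq ?_ ?_
      · exact T'.continuous.comp (continuous_fst.sup continuous_snd)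
      · exact (T'.continuous.comp continuous_fst).sup (T'.continuous.comp continuous_snd)
    · intro f g
      rw [← WSys.emb_sup, hT'e, hT'e, hT'e, hAs]
  · intro p
    refine hdense.induction_on (p := fun p => Q (T' p) = T p) p ?_ ?_
    · exact isClosed_eq (hQc.comp T'.continuous) T.continuous
    · intro f
      rw [hT'e, hAQ]
  · refine T'.opNorm_le_bound (by positivity) (fun p => ?_)
    refine hdense.induction_on (p := fun p => ‖T' p‖ ≤ 4 * β * M * ‖p‖) p ?_ ?_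
    · exact isClosed_le T'.continuous.norm (continuous_const.mul continuous_norm)
    · intro f
      rw [hT'e]; exact hAn f

/-- `P(K, r)` as a bundled Banach lattice. -/
noncomputable def PBL {K : Type v} [TopologicalSpace K] [CompactSpace K] (W : WSys K) :
    BLat.{v} where
  carrier := W.PSp

theorem isomorphicallyProjective_of_CEP {K : Type v} [TopologicalSpace K] [CompactSpace K]
    [T2Space K] (W : WSys K) {β : ℝ} (hβ : 1 ≤ β) (hK : CEP.{u} W β) :
    IsomorphicallyProjective.{u} (PBL W) := by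
  refine ⟨4 * β, by linarith, fun X Y Q hQ T hT => ?_⟩
  have hne : ∀ y : Y, ((fun x : X => ‖x‖) '' {x | Q x = y}).Nonempty := fun y => by
    obtain ⟨x, hx⟩ := hQ.surj y
    exact ⟨_, x, hx, rfl⟩
  have hbd : ∀ y : Y, BddBelow ((fun x : X => ‖x‖) '' {x | Q x = y}) := fun y =>
    ⟨0, by rintro _ ⟨x, _, rfl⟩; exact norm_nonneg _⟩
  refine exists_lift W hβ hK Q hQ.hom (fun x => ?_) (fun y ε hε => ?_) T hT
  · rw [hQ.norm_eq]
    exact csInf_le (hbd _) ⟨x, rfl, rfl⟩
  · have h1 : sInf ((fun x : X => ‖x‖) '' {x | Q x = y}) < ‖y‖ + ε := by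
      rw [← hQ.norm_eq]; linarith
    obtain ⟨_, ⟨x, hx, rfl⟩, h2⟩ := exists_lt_of_csInf_lt (hne y) h1
    exact ⟨x, hx, h2.le⟩

end ProjBL
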