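import Pool.Agent.Work.MP_dca501_an.Stage

/-!
# The sweep lemma
-/

namespace ProjBL

open Set Topology Complex

/-- The circle valued function around the point `y` of the real axis. -/
noncomputable def th (y : ℝ) (z : ℂ) : Circle :=
  if 0 ≤ z.im then Circle.exp (2 * Real.arccos ((z.re - y) / ‖z - y‖)) else 1

theorem Circle_exp_two_pi : Circle.exp (2 * Real.pi) = 1 := by
  simp

theorem ratio_real {y : ℝ} {z : ℂ} (h : z.im = 0) (hz : z ≠ y) :
    (z.re - y) / ‖z - y‖ = 1 ∨ (z.re - y) / ‖z - y‖ = -1 := by
  have h1 : z - y = ((z.re - y : ℝ) : ℂ) := by apply Complex.ext <;> simp [h]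
  have h2 : z.re - y ≠ 0 := by
    intro h0
    apply hz
    have : z - y = 0 := by rw [h1, h0]; simp
    exact sub_eq_zero.mp this
  rw [h1, Complex.norm_real, Real.norm_eq_abs]
  rcases lt_or_gt_of_ne h2 with h3 | h3
  · right; rw [abs_of_neg h3]; field_simp
  · left; rw [abs_of_pos h3]; field_simp

theorem th_real {y : ℝ} {z : ℂ} (h : z.im = 0) (hz : z ≠ y) : th y z = 1 := by
  unfold th
  rw [if_pos h.ge]
  rcases ratio_real h hz with h1 | h1 <;> rw [h1]
  · simp
  · rw [Real.arccos_neg_one, Circle_exp_two_pi]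

theorem continuousAt_th {y : ℝ} {z : ℂ} (hz : z ≠ y) : ContinuousAt (th y) z := by
  have hc : ContinuousOn (th y) {z : ℂ | z ≠ y} := by
    rw [continuousOn_iff_continuous_domRestrict]
    have h1 : Continuous (fun z : {z : ℂ | z ≠ y} =>
        Circle.exp (2 * Real.arccos ((z.1.re - y) / ‖z.1 - y‖))) := by
      refine Circle.exp.continuous.comp (continuous_const.mul (Real.continuous_arccos.comp ?_))
      refine Continuous.div ?_ ?_ ?_
      · exact (Complex.continuous_re.comp continuous_subtype_val).sub continuous_const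
      · exact (continuous_subtype_val.sub continuous_const).norm
      · intro z
        exact norm_ne_zero_iff.mpr (sub_ne_zero.mpr z.2)
    have h2 := Continuous.if_le (f' := fun z : {z : ℂ | z ≠ y} =>
        Circle.exp (2 * Real.arccos ((z.1.re - y) / ‖z.1 - y‖))) (g' := fun _ => (1 : Circle))
        (f := fun _ => (0 : ℝ)) (g := fun z => z.1.im) h1 continuous_const continuous_const
        (Complex.continuous_im.comp continuous_subtype_val) (by
          intro z hz
          have := th_real (y := y) (z := z.1) hz.symm z.2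
          unfold th at this
          rwa [if_pos hz.le] at this)
    exact h2
  exact hc.continuousAt (isOpen_ne.mem_nhds hz)

/-- Degree of the loop: there is no contraction. -/
theorem no_contraction {y : ℝ} (hy1 : -1 < y) (hy2 : y < 1)
    (F : C(unitInterval × unitInterval, Circle)) (a : Circle) (h0 : ∀ t, F (0, t) = a)
    (h1 : ∀ t : unitInterval, F (1, t) = th y (lp t)) (h2 : ∀ τ, F (τ, 0) = F (τ, 1)) : False := by
  obtain ⟨α, hα⟩ : ∃ α : ℝ, Circle.exp α = a := ⟨_, Circle.exp_arg a⟩
  have cov := Circle.isCoveringMap_exp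
  set G := cov.liftHomotopy F (ContinuousMap.const _ α) (fun t => by rw [h0, ← hα]; rfl) with hG
  have hGl : ∀ p, Circle.exp (G p) = F p := fun p => congrFun (cov.liftHomotopy_lifts F _ _) p
  have hG0 : ∀ t, G (0, t) = α := fun t => cov.liftHomotopy_zero F (ContinuousMap.const _ α) _ t
  -- closing up
  have e1 : (fun τ => G (τ, 0)) = fun τ => G (τ, 1) := by
    refine cov.eq_of_comp_eq (G.continuous.comp (by fun_prop)) (G.continuous.comp (by fun_prop))
      ?_ 0 (by simp [hG0])
    ext τ
    simp only [Function.comp_apply]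
    rw [hGl, hGl, h2]
  -- the explicit lift
  set m : unitInterval → ℝ := fun t => if (t : ℝ) ≤ 1 / 2 then
    2 * Real.arccos (((lp t).re - y) / ‖lp t - y‖) else 2 * Real.pi with hm
  have hlp : ∀ t : ℝ, lp t - y ≠ 0 := by
    intro t h
    have h3 : lp t = y := sub_eq_zero.mp h
    have h4 := norm_lp t
    rw [h3, Complex.norm_real, Real.norm_eq_abs] at h4
    have := abs_lt.mpr ⟨hy1, hy2⟩
    linarith
  have lp_im : ∀ t : ℝ, (lp t).im = Real.sin (2 * Real.pi * t) := by
    intro t
    unfold lp
    rw [show (2 * Real.pi * t * Complex.I : ℂ) = ((2 * Real.pi * t : ℝ) : ℂ) * Complex.I by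
      push_cast; ring, Complex.exp_ofReal_mul_I_im]
  have lp_re : ∀ t : ℝ, (lp t).re = Real.cos (2 * Real.pi * t) := by
    intro t
    unfold lp
    rw [show (2 * Real.pi * t * Complex.I : ℂ) = ((2 * Real.pi * t : ℝ) : ℂ) * Complex.I by
      push_cast; ring, Complex.exp_ofReal_mul_I_re]
  have lp_half : lp (1 / 2) = -1 := by
    apply Complex.ext
    · rw [lp_re, show 2 * Real.pi * (1 / 2) = Real.pi by ring]; simp
    · rw [lp_im, show 2 * Real.pi * (1 / 2) = Real.pi by ring]; simp
  have hmc : Continuous m := by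
    refine Continuous.if_le (f' := fun t : unitInterval =>
      2 * Real.arccos (((lp t).re - y) / ‖lp t - y‖)) (g' := fun _ => 2 * Real.pi)
      (f := fun t : unitInterval => (t : ℝ)) (g := fun _ => (1 / 2 : ℝ)) ?_
      continuous_const continuous_subtype_val continuous_const ?_
    · refine continuous_const.mul (Real.continuous_arccos.comp ?_)
      have hl : Continuous fun t : unitInterval => lp t := continuous_lp.comp continuous_subtype_val
      refine Continuous.div ((Complex.continuous_re.comp hl).sub continuous_const)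
        (hl.sub continuous_const).norm (fun t => norm_ne_zero_iff.mpr (hlp t))
    · intro t ht
      rw [ht, lp_half]
      have h3 : (-1 : ℂ) - y = ((-1 - y : ℝ) : ℂ) := by push_cast; ring
      have h4 : ((-1 : ℂ).re - y) / ‖(-1 : ℂ) - y‖ = -1 := by
        rw [h3, Complex.norm_real, Real.norm_eq_abs, abs_of_neg (by linarith)]
        simp only [Complex.neg_re, Complex.one_re]
        rw [div_neg, div_self (by linarith)]
      rw [h4, Real.arccos_neg_one]
  have hml : ∀ t : unitInterval, Circle.exp (m t) = th y (lp t) := by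
    intro t
    obtain ⟨t0, t1⟩ := t.2
    by_cases ht : (t : ℝ) ≤ 1 / 2
    · have him : 0 ≤ (lp t).im := by
        rw [lp_im]
        exact Real.sin_nonneg_of_nonneg_of_le_pi (by have := Real.pi_pos; positivity)
          (by nlinarith [Real.pi_pos])
      simp only [hm, if_pos ht, th, if_pos him]
    · have him : (lp t).im ≤ 0 := by
        rw [lp_im, ← Real.sin_sub_two_pi]
        refine Real.sin_nonpos_of_nonpos_of_neg_pi_le (by nlinarith [Real.pi_pos]) ?_
        push Not at ht
        nlinarith [Real.pi_pos]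
      simp only [hm, if_neg ht]
      rw [Circle_exp_two_pi]
      rcases him.lt_or_eq with h3 | h3
      · unfold th; rw [if_neg (by linarith)]
      · exact (th_real h3 (sub_ne_zero.mp (hlp t))).symm
  have hm0 : m 0 = 0 := by
    have h3 : ((0 : unitInterval) : ℝ) ≤ 1 / 2 := by norm_num
    simp only [hm, if_pos h3]
    have h4 : lp ((0 : unitInterval) : ℝ) = 1 := by unfold lp; simp
    rw [h4]
    have h5 : (1 : ℂ) - y = ((1 - y : ℝ) : ℂ) := by push_cast; ring
    have h6 : ((1 : ℂ).re - y) / ‖(1 : ℂ) - y‖ = 1 := by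
      rw [h5, Complex.norm_real, Real.norm_eq_abs, abs_of_pos (by linarith)]
      simp only [Complex.one_re]
      rw [div_self (by linarith)]
    rw [h6, Real.arccos_one, mul_zero]
  have hm1 : m 1 = 2 * Real.pi := by
    have h3 : ¬ ((1 : unitInterval) : ℝ) ≤ 1 / 2 := by norm_num
    simp only [hm, if_neg h3]
  have e2 : (fun t => G (1, t)) = fun t => m t + G (1, 0) := by
    refine cov.eq_of_comp_eq (G.continuous.comp (by fun_prop)) (hmc.add continuous_const)
      ?_ 0 (by simp [hm0])
    ext t
    simp only [Function.comp_apply]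
    have h3 : Circle.exp (G (1, 0)) = 1 := by
      rw [hGl, h1, ← hml, hm0]; simp
    rw [hGl, h1, ← hml, Circle.exp_add, h3, mul_one]
  have h3 := congrFun e2 1
  have h4 := congrFun e1 1
  simp only [hm1] at h3
  have := Real.pi_pos
  linarith

/-- `E` contracts inside `E'`. -/
def Contr {M : Type*} [TopologicalSpace M] (E E' : Set M) : Prop :=
  ∃ (H : M × unitInterval → M) (x0 : M), ContinuousOn H (E ×ˢ univ) ∧
    (∀ x ∈ E, H (x, 1) = x) ∧ (∀ x ∈ E, H (x, 0) = x0) ∧ ∀ x ∈ E, ∀ τ, H (x, τ) ∈ E'

namespace Stage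

variable (S : Stage)

open Classical in
/-- the circle valued function on the next stage minus a point -/
noncomputable def chi (y : ℝ) (p : S.M') : Circle :=
  if p.1.2.2 = 0 then 1 else th y (p.1.2.1 / (p.1.2.2 : ℂ))

theorem chi_inc (y : ℝ) (m : S.M) : S.chi y (S.inc m) = 1 := by
  have h : (S.inc m).1.2.2 = 0 := rfl
  unfold chi; rw [if_pos h]

theorem chi_J (y : ℝ) {z : ℂ} (hz : ‖z‖ ≤ 1) (hy : z ≠ y) : S.chi y (S.J z) = th y z := by
  have h1 : (S.J z).1.2.2 = del z := by simp [J, jraw, rad_eq hz]
  have h2 : (S.J z).1.2.1 = (del z : ℂ) * z := by simp [J, jraw, rad_eq hz]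
  unfold chi
  rw [h1, h2]
  by_cases h : del z = 0
  · rw [if_pos h, th_real (dd_eq_zero.mp (del_eq_zero.mp h)).1 hy]
  · rw [if_neg h, mul_div_cancel_left₀ _ (by exact_mod_cast h)]

theorem continuousOn_chi (y : ℝ) :
    ContinuousOn (S.chi y) {p | p ≠ S.J y} := by
  -- the covering of `M'` by the disc and the previous stage
  let D := Metric.closedBall (0 : ℂ) 1
  let Q : D ⊕ S.M → S.M' := Sum.elim (fun z => S.J z.1) S.inc
  have hQc : Continuous Q :=
    continuous_sum_dom.mpr ⟨S.continuous_J.comp continuous_subtype_val, S.continuous_inc⟩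
  have hQs : Function.Surjective Q := by
    intro p
    rcases S.exists_rep p with ⟨m, rfl⟩ | ⟨z, hz, rfl⟩
    · exact ⟨Sum.inr m, rfl⟩
    · exact ⟨Sum.inl ⟨z, mem_closedBall_zero_iff.mpr hz⟩, rfl⟩
  have hQ : IsQuotientMap Q := hQc.isClosedMap.isQuotientMap hQc hQs
  have hU : IsOpen {p : S.M' | p ≠ S.J y} := isOpen_ne
  have hQU := hQ.restrictPreimage_isOpen hU
  rw [continuousOn_iff_continuous_domRestrict]
  rw [hQU.continuous_iff]
  -- continuity upstairs
  have hup : ContinuousOn (Sum.elim (fun z : D => th y z.1) (fun _ : S.M => (1 : Circle)))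
      (Q ⁻¹' {p : S.M' | p ≠ S.J y}) := by
    intro x hx
    apply ContinuousAt.continuousWithinAt
    rcases x with z | m
    · have hz : z.1 ≠ y := by
        intro h
        apply hx
        change S.J z.1 = S.J y
        rw [h]
      have := (IsOpenEmbedding.inl (X := D) (Y := S.M)).continuousAt_iff (x := z)
        (g := Sum.elim (fun z : D => th y z.1) (fun _ : S.M => (1 : Circle)))
      rw [← this]
      exact (continuousAt_th hz).comp continuous_subtype_val.continuousAt
    · have := (IsOpenEmbedding.inr (X := D) (Y := S.M)).continuousAt_iff (x := m)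
        (g := Sum.elim (fun z : D => th y z.1) (fun _ : S.M => (1 : Circle)))
      rw [← this]
      exact continuousAt_const
  rw [continuousOn_iff_continuous_domRestrict] at hup
  convert hup using 1
  ext x
  obtain ⟨x, hx⟩ := x
  rcases x with z | m
  · have hz : z.1 ≠ y := by
      intro h
      apply hx
      change S.J z.1 = S.J y
      rw [h]
    have h2 : ‖z.1‖ ≤ 1 := mem_closedBall_zero_iff.mp z.2
    change ((S.chi y (S.J z.1) : Circle) : ℂ) = (th y z.1 : Circle)
    rw [S.chi_J y h2 hz]
  · change ((S.chi y (S.inc m) : Circle) : ℂ) = ((1 : Circle) : ℂ)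
    rw [S.chi_inc]

/-- One sweep. -/
theorem sweep_step {E E' : Set S.M'} (hE' : IsClosed E') (hE : ∀ t, S.J (lp t) ∈ E)
    (h : Contr E E') (x : ℝ) (hx : |x| ≤ 1 / 2) : S.J x ∈ E' := by
  -- interior points
  have key : ∀ y : ℝ, |y| < 1 / 2 → S.J y ∈ E' := by
    intro y hy
    by_contra hcon
    obtain ⟨H, x0, Hc, H1, H0, HE⟩ := h
    have hyy := abs_lt.mp hy
    have hne : ∀ p ∈ E', p ≠ S.J y := fun p hp hpy => hcon (hpy ▸ hp)
    let φ : unitInterval × unitInterval → S.M' := fun q => H (S.J (lp q.2), q.1)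
    have hφ : Continuous φ := by
      rw [← continuousOn_univ]
      refine Hc.comp (f := fun q : unitInterval × unitInterval => (S.J (lp q.2), q.1)) ?_ ?_
      · exact (((S.continuous_J.comp continuous_lp).comp (continuous_subtype_val.comp
          continuous_snd)).prodMk continuous_fst).continuousOn
      · intro q _
        exact ⟨hE _, mem_univ _⟩
    have hF : Continuous (fun q => S.chi y (φ q)) := by
      rw [← continuousOn_univ]
      exact (S.continuousOn_chi y).comp hφ.continuousOn
        (fun q _ => hne _ (HE _ (hE _) _))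
    refine no_contraction (y := y) (by linarith) (by linarith) ⟨_, hF⟩ (S.chi y x0) ?_ ?_ ?_
    · intro t
      change S.chi y (H (S.J (lp t), 0)) = _
      rw [H0 _ (hE _)]
    · intro t
      change S.chi y (H (S.J (lp t), 1)) = _
      rw [H1 _ (hE _)]
      refine S.chi_J y (norm_lp t).le ?_
      intro h4
      have h5 := norm_lp t
      rw [h4, Complex.norm_real, Real.norm_eq_abs] at h5
      linarith
    · intro τ
      change S.chi y (H (S.J (lp ((0 : unitInterval) : ℝ)), τ))
        = S.chi y (H (S.J (lp ((1 : unitInterval) : ℝ)), τ))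
      have : lp ((1 : unitInterval) : ℝ) = lp ((0 : unitInterval) : ℝ) := by
        have := lp_add_one 0
        simpa using this
      rw [this]
  have hcl : IsClosed {x : ℝ | S.J x ∈ E'} :=
    hE'.preimage (S.continuous_J.comp Complex.continuous_ofReal)
  have hsub : closure (Ioo (-(1 / 2) : ℝ) (1 / 2)) ⊆ {x : ℝ | S.J x ∈ E'} :=
    closure_minimal (fun y hy => key y (abs_lt.mpr hy)) hcl
  rw [closure_Ioo (by norm_num)] at hsub
  exact hsub (abs_le.mp hx)

end Stage

/-- The sweep lemma. -/
theorem sweep (k : ℕ) : ∀ (h : ℕ), k ≤ h → ∀ E : ℕ → Set (stage h).M, (∀ j, IsClosed (E j)) →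
    (∀ t, (stage h).c t ∈ E 0) → (∀ j < k, Contr (E j) (E (j + 1))) →
    ∃ x ∈ E k, 2 ^ k - 1 ≤ (stage h).ρ x := by
  induction k with
  | zero =>
    intro h _ E _ h0 _
    exact ⟨_, h0 0, by rw [(stage h).ρ_c]; norm_num⟩
  | succ k ih =>
    intro h hk E hcl h0 hcon
    obtain ⟨h', rfl⟩ : ∃ h', h = h' + 1 := ⟨h - 1, by omega⟩
    set S : Stage := stage h' with hS
    change ∀ t, S.J (lp t) ∈ E 0 at h0
    have hmono : ∀ j < k + 1, E j ⊆ E (j + 1) := by
      intro j hj x hx
      obtain ⟨H, x0, Hc, H1, H0, HE⟩ := hcon j hj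
      rw [← H1 x hx]; exact HE x hx 1
    have hloop : ∀ t : ℝ, S.inc (S.c t) ∈ E 1 := by
      intro t
      have ht : S.c t = S.c (Int.fract t) := by
        have hp : Function.Periodic S.c 1 := S.hper
        have := hp.sub_int_mul_eq (x := t) ⌊t⌋
        rw [mul_one] at this
        rw [← this]; rfl
      have h1 : |Int.fract t - 1 / 2| ≤ 1 / 2 := by
        rw [abs_le]
        have h2 := Int.fract_nonneg t
        have h3 := (Int.fract_lt_one t).le
        constructor <;> linarith
      have h4 : S.J ((Int.fract t - 1 / 2 : ℝ) : ℂ) = S.inc (S.c t) := by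
        rw [S.J_eq_inc]
        · refine ⟨dd_eq_zero.mpr ⟨by simp, by rw [Complex.ofReal_re]; exact h1⟩, ?_⟩
          rw [ht, Complex.ofReal_re]
          congr 1; ring
        · rw [Complex.norm_real, Real.norm_eq_abs]; linarith
      rw [← h4]
      exact S.sweep_step (hcl 1) h0 (hcon 0 (by omega)) _ h1
    have hloop' : ∀ j ≤ k, ∀ t, S.inc (S.c t) ∈ E (j + 1) := by
      intro j
      induction j with
      | zero => intro _ t; exact hloop t
      | succ j ihj => intro hj t; exact hmono (j + 1) (by omega) (ihj (by omega) t)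
    obtain ⟨x, hx, hx'⟩ := ih h' (by omega) (fun j => S.inc ⁻¹' E (j + 1))
      (fun j => (hcl (j + 1)).preimage S.continuous_inc) hloop (by
        intro j hj
        obtain ⟨H, x0, Hc, H1, H0, HE⟩ := hcon (j + 1) (by omega)
        refine ⟨fun q => S.ret (H (S.inc q.1, q.2)), S.ret x0, ?_, ?_, ?_, ?_⟩
        · refine S.continuous_ret.comp_continuousOn (Hc.comp ?_ ?_)
          · exact ((S.continuous_inc.comp continuous_fst).prodMk continuous_snd).continuousOn
          · intro q hq
            exact ⟨hq.1, mem_univ _⟩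
        · intro x hx
          simp only
          rw [H1 _ hx]; rfl
        · intro x hx
          simp only
          rw [H0 _ hx]
        · intro x hx τ
          change S.inc (S.ret (H (S.inc x, τ))) ∈ E (j + 1 + 1)
          rcases S.exists_rep (H (S.inc x, τ)) with ⟨m, hm⟩ | ⟨z, hz, hz'⟩
          · have h5 := HE _ hx τ
            rw [hm] at h5 ⊢
            exact h5
          · rw [hz', S.ret_J hz]
            exact hloop' (j + 1) (by omega) _)
    refine ⟨S.inc x, hx, ?_⟩
    change _ ≤ S.ρ' (S.inc x)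
    rw [Stage.ρ'_inc]
    have h6 : (2 : ℝ) ^ (k + 1) = 2 * 2 ^ k := by ring
    linarith

end ProjBL
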