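import Pool.Agent.Work.MP_dca501_an.Wedge
import Pool.Agent.Work.MP_dca501_an.Sweep

/-!
# No renorming is isometrically projective
-/

namespace ProjBL

open Set Topology Filter

set_option linter.unusedSectionVars false

universe u v w

/-! ### automatic boundedness -/

section bounded

variable {X : Type u} {Y : Type v} [NormedAddCommGroup X] [NormedSpace ℝ X] [Lattice X]
  [IsOrderedAddMonoid X] [PosSMulMono ℝ X] [HasSolidNorm X] [CompleteSpace X]
  [NormedAddCommGroup Y] [NormedSpace ℝ Y] [Lattice Y]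
  [IsOrderedAddMonoid Y] [PosSMulMono ℝ Y] [HasSolidNorm Y]

theorem latHom_mono {T : X →ₗ[ℝ] Y} (h : IsLatHom T) {x y : X} (hxy : x ≤ y) : T x ≤ T y := by
  have := h x y
  rw [sup_eq_right.mpr hxy] at this
  exact sup_eq_right.mp this.symm

theorem latHom_abs {T : X →ₗ[ℝ] Y} (h : IsLatHom T) (x : X) : T |x| = |T x| := by
  change T (x ⊔ -x) = T x ⊔ -T x
  rw [h, map_neg]

theorem latHom_bounded {T : X →ₗ[ℝ] Y} (h : IsLatHom T) : ∃ b : ℝ, ∀ x, ‖T x‖ ≤ b * ‖x‖ := by
  by_contra hcon
  push Not at hcon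
  choose x hx using fun n : ℕ => hcon ((4 : ℝ) ^ n)
  have hx0 : ∀ n, 0 < ‖x n‖ := by
    intro n
    rw [norm_pos_iff]
    intro h0
    have := hx n
    rw [h0, map_zero, norm_zero, norm_zero, mul_zero] at this
    exact lt_irrefl _ this
  let y : ℕ → X := fun n => ((2 : ℝ) ^ n * ‖x n‖)⁻¹ • |x n|
  have hy0 : ∀ n, 0 ≤ y n := fun n =>
    smul_nonneg (by have := hx0 n; positivity) (abs_nonneg _)
  have hyn : ∀ n, ‖y n‖ = (1 / 2) ^ n := by
    intro n
    have h1 := hx0 n
    change ‖((2 : ℝ) ^ n * ‖x n‖)⁻¹ • |x n|‖ = _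
    rw [norm_smul, norm_abs_eq_norm, Real.norm_of_nonneg (by positivity)]
    field_simp
    rw [← mul_pow]; norm_num
  have hTy : ∀ n, (2 : ℝ) ^ n < ‖T (y n)‖ := by
    intro n
    have h1 := hx0 n
    change _ < ‖T (((2 : ℝ) ^ n * ‖x n‖)⁻¹ • |x n|)‖
    rw [map_smul, norm_smul, latHom_abs h, norm_abs_eq_norm, Real.norm_of_nonneg (by positivity),
      inv_mul_eq_div, lt_div_iff₀ (by positivity)]
    refine lt_of_le_of_lt (le_of_eq ?_) (hx n)
    have : (4 : ℝ) ^ n = 2 ^ n * 2 ^ n := by rw [← mul_pow]; norm_num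
    rw [this]; ring
  have hs : Summable y := by
    refine Summable.of_norm ?_
    simp only [hyn]
    exact summable_geometric_of_lt_one (by norm_num) (by norm_num)
  have hle : ∀ n, y n ≤ ∑' k, y k := by
    intro n
    have h1 : ∀ N, n < N → y n ≤ ∑ k ∈ Finset.range N, y k := fun N hN =>
      Finset.single_le_sum (fun k _ => hy0 k) (Finset.mem_range.mpr hN)
    refine ge_of_tendsto hs.hasSum.tendsto_sum_nat ?_
    filter_upwards [eventually_gt_atTop n] with N hN using h1 N hN
  have hb : ∀ n, (2 : ℝ) ^ n < ‖T (∑' k, y k)‖ := by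
    intro n
    refine (hTy n).trans_le (norm_le_norm_of_abs_le_abs ?_)
    have h1 : 0 ≤ T (y n) := by rw [← map_zero T]; exact latHom_mono h (hy0 n)
    have h2 := latHom_mono h (hle n)
    rw [abs_of_nonneg h1, abs_of_nonneg (h1.trans h2)]
    exact h2
  obtain ⟨n, hn⟩ := pow_unbounded_of_one_lt ‖T (∑' k, y k)‖ (by norm_num : (1 : ℝ) < 2)
  exact absurd (hb n) (not_lt.mpr hn.le)

end bounded

/-! ### spaces of continuous functions as Banach lattices -/

instance {L : Type*} [TopologicalSpace L] [CompactSpace L] : HasSolidNorm C(L, ℝ) where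
  solid := by
    intro f g h
    rw [ContinuousMap.norm_le _ (norm_nonneg _)]
    intro x
    have h1 : |f x| ≤ |g x| := h x
    rw [Real.norm_eq_abs]
    exact h1.trans (g.norm_coe_le_norm x)

instance {L : Type*} [TopologicalSpace L] [CompactSpace L] : PosSMulMono ℝ C(L, ℝ) where
  smul_le_smul_of_nonneg_left _ ha _ _ h := fun x => mul_le_mul_of_nonneg_left (h x) ha

/-- `C(L)` as a bundled Banach lattice. -/
noncomputable def CBL (L : Type u) [TopologicalSpace L] [CompactSpace L] : BLat.{u} where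
  carrier := C(L, ℝ)

/-- restriction -/
def resMap {L L' : Type*} [TopologicalSpace L] [CompactSpace L] [TopologicalSpace L']
    [CompactSpace L'] (ι : C(L', L)) : C(L, ℝ) →ₗ[ℝ] C(L', ℝ) where
  toFun f := f.comp ι
  map_add' _ _ := rfl
  map_smul' _ _ := rfl

theorem isLatQuot_res {L L' : Type u} [TopologicalSpace L] [CompactSpace L] [T2Space L]
    [TopologicalSpace L'] [CompactSpace L'] (ι : C(L', L)) (hι : Function.Injective ι) :
    IsLatQuot (X := CBL L) (Y := CBL L') (resMap ι) := by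
  have hemb : IsClosedEmbedding ι := ι.continuous.isClosedEmbedding hι
  have hex : ∀ y : C(L', ℝ), ∃ x : C(L, ℝ), x.comp ι = y ∧ ‖x‖ ≤ ‖y‖ := by
    intro y
    obtain ⟨E, hE⟩ := ContinuousMap.exists_extension (Y := ℝ) hemb y
    have hE' : ∀ l, E (ι l) = y l := fun l => congrArg (fun f : C(L', ℝ) => f l) hE
    refine ⟨⟨fun l => max (-‖y‖) (min ‖y‖ (E l)), by
      exact continuous_const.max (continuous_const.min E.continuous)⟩, ?_, ?_⟩
    · ext l
      change max (-‖y‖) (min ‖y‖ (E (ι l))) = y l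
      have h1 : |y l| ≤ ‖y‖ := y.norm_coe_le_norm l
      obtain ⟨h2, h3⟩ := abs_le.mp h1
      rw [hE', min_eq_right h3, max_eq_right h2]
    · rw [ContinuousMap.norm_le _ (norm_nonneg _)]
      intro l
      change ‖max (-‖y‖) (min ‖y‖ (E l))‖ ≤ ‖y‖
      have h0 := norm_nonneg y
      rw [Real.norm_eq_abs, abs_le]
      exact ⟨le_max_left _ _, max_le (by linarith) (min_le_left _ _)⟩
  refine ⟨fun f g => rfl, fun y => ?_, fun y => ?_⟩
  · obtain ⟨x, hx, -⟩ := hex y
    exact ⟨x, hx⟩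
  · obtain ⟨x, hx, hx'⟩ := hex y
    apply le_antisymm
    · refine le_csInf ⟨_, x, hx, rfl⟩ ?_
      rintro _ ⟨z, hz, rfl⟩
      change ‖(show C(L', ℝ) from y)‖ ≤ ‖(show C(L, ℝ) from z)‖
      rw [ContinuousMap.norm_le _ (norm_nonneg _)]
      intro l
      have : (show C(L', ℝ) from y) l = (show C(L, ℝ) from z) (ι l) := by
        rw [← (show (show C(L, ℝ) from z).comp ι = y from hz)]; rfl
      rw [this]
      exact ContinuousMap.norm_coe_le_norm _ _
    · refine le_trans (csInf_le ⟨0, ?_⟩ ⟨x, hx, rfl⟩) hx'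
      rintro _ ⟨z, _, rfl⟩; exact norm_nonneg _

/-! ### evaluation homomorphisms -/

/-- the base point of the wedge -/
noncomputable def sK : WK := ⟨fun n => bp n, fun _ _ _ => Or.inl rfl⟩

open Classical in
/-- inclusion of a stage in the wedge -/
noncomputable def inK (i : ℕ) (x : (stage i).M) : WK :=
  ⟨Function.update (fun n => bp n) i x, fun j k hjk => by
    by_cases h : j = i
    · right
      rw [Function.update_of_ne]
      rintro rfl
      exact hjk h
    · left
      rw [Function.update_of_ne h]⟩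

theorem continuous_inK (i : ℕ) : Continuous (inK i) := by
  refine Continuous.subtype_mk ?_ _
  exact continuous_const.update i continuous_id

@[simp] theorem inK_co_self (i : ℕ) (x : (stage i).M) : (inK i x).co i = x := by
  simp [inK, WK.co]

theorem inK_co_ne {i j : ℕ} (h : j ≠ i) (x : (stage i).M) : (inK i x).co j = bp j := by
  simp [inK, WK.co, Function.update_of_ne h]

theorem inK_bp (i : ℕ) : inK i (bp i) = sK := by
  refine WK.ext (fun n => ?_)
  by_cases h : n = i
  · subst h; rw [inK_co_self]; rfl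
  · rw [inK_co_ne h]; rfl

theorem inK_co (x : WK) (i : ℕ) : inK i (x.co i) = x ∨ inK i (x.co i) = sK := by
  by_cases h : x.co i = bp i
  · right; rw [h, inK_bp]
  · left
    refine WK.ext (fun n => ?_)
    by_cases hn : n = i
    · subst hn; rw [inK_co_self]
    · rw [inK_co_ne hn]
      exact ((x.2 n i hn).resolve_right h).symm

/-- Uniform convergence of the stages to the base point. -/
theorem exists_index {V : Set WK} (hV : IsOpen V) (hs : sK ∈ V) :
    ∃ i0, ∀ i ≥ i0, ∀ x, inK i x ∈ V := by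
  classical
  by_contra hcon
  push Not at hcon
  have hch : ∀ i, ∃ x : (stage i).M, (∃ y, inK i y ∉ V) → inK i x ∉ V := by
    intro i
    by_cases h : ∃ y, inK i y ∉ V
    · obtain ⟨y, hy⟩ := h
      exact ⟨y, fun _ => hy⟩
    · exact ⟨bp i, fun h' => (h h').elim⟩
  choose x hx using hch
  have ht : Tendsto (fun i => inK i (x i)) atTop (𝓝 sK) := by
    have h1 : Tendsto (fun i => (inK i (x i)).1) atTop (𝓝 sK.1) := by
      rw [tendsto_pi_nhds]
      intro j
      refine tendsto_const_nhds.congr' ?_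
      filter_upwards [eventually_gt_atTop j] with i hi
      exact (inK_co_ne (by omega) (x i)).symm
    exact tendsto_subtype_rng.mpr h1
  obtain ⟨i1, hi1⟩ := eventually_atTop.mp (ht.eventually (hV.mem_nhds hs))
  obtain ⟨i, hi, y, hy⟩ := hcon i1
  exact hx i ⟨y, hy⟩ (hi1 i hi)

section main

variable {P' : BLat.{u}} (S : WW.PSp →ₗ[ℝ] P')

/-- the bounded evaluation points -/
def BB (m : ℝ) : Set WK := {x | ∀ f : C(WK, ℝ), |f x| ≤ m * ‖S (WW.emb f)‖}

theorem isClosed_BB (m : ℝ) : IsClosed (BB S m) := by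
  simp only [BB, ofPred_forall]
  exact isClosed_iInter fun f => isClosed_le f.continuous.abs continuous_const

theorem BB_mono {m m' : ℝ} (h : m ≤ m') : BB S m ⊆ BB S m' := fun x hx f =>
  (hx f).trans (mul_le_mul_of_nonneg_right h (norm_nonneg _))

theorem mem_BB_of_loop {a : ℝ} (ha : ∀ p : WW.PSp, ‖p‖ ≤ a * ‖S p‖) {x : WK}
    (hx : ∀ n, WW.r n x ≤ 1) : x ∈ BB S a := by
  intro f
  have h1 := (WW.emb f).eval_le hx
  rw [one_mul] at h1
  exact h1.trans (ha _)

/-- the homomorphism of a map into the bounded points -/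
theorem exists_eval {b : ℝ} (hb : ∀ p : WW.PSp, ‖S p‖ ≤ b * ‖p‖) {m : ℝ} (hm : 0 ≤ m)
    {A : Type} [TopologicalSpace A] [CompactSpace A] (f : C(A, WK)) (hf : ∀ a, f a ∈ BB S m) :
    ∃ T : WW.PSp →L[ℝ] C(A, ℝ), IsLatHom (T : WW.PSp →ₗ[ℝ] C(A, ℝ)) ∧
      (∀ g, T (WW.emb g) = g.comp f) ∧ ∀ p, ‖T p‖ ≤ m * ‖S p‖ := by
  let A0 : C(WK, ℝ) →ₗ[ℝ] C(A, ℝ) :=
    { toFun := fun g => g.comp f
      map_add' := fun _ _ => rfl
      map_smul' := fun _ _ => rfl }
  have hA0 : ∀ g, ‖A0 g‖ ≤ m * ‖S (WW.emb g)‖ := by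
    intro g
    rw [ContinuousMap.norm_le _ (mul_nonneg hm (norm_nonneg _))]
    intro a
    exact hf a g
  have hex : ∃ C, ∀ g, ‖A0 g‖ ≤ C * ‖WW.emb g‖ := ⟨m * b, fun g =>
    (hA0 g).trans (by rw [mul_assoc]; exact mul_le_mul_of_nonneg_left (hb _) hm)⟩
  have hdense := WSys.denseRange_emb (W := WW)
  set T : WW.PSp →L[ℝ] C(A, ℝ) := A0.extendOfNorm WW.emb with hT
  have hTe : ∀ g, T (WW.emb g) = A0 g := fun g => LinearMap.extendOfNorm_eq hdense hex g
  have hSc : Continuous S := by
    have := AddMonoidHomClass.continuous_of_bound S b hb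
    exact this
  refine ⟨T, fun x y => ?_, hTe, fun p => ?_⟩
  · refine hdense.induction_on₂ (p := fun x y => T (x ⊔ y) = T x ⊔ T y) ?_ ?_ x y
    · refine isClosed_eq ?_ ?_
      · exact T.continuous.comp (continuous_fst.sup continuous_snd)
      · exact (T.continuous.comp continuous_fst).sup (T.continuous.comp continuous_snd)
    · intro f g
      rw [← WSys.emb_sup, hTe, hTe, hTe]; rfl
  · refine hdense.induction_on (p := fun p => ‖T p‖ ≤ m * ‖S p‖) p ?_ ?_
    · exact isClosed_le T.continuous.norm (continuous_const.mul hSc.norm)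
    · intro g
      rw [hTe]; exact hA0 g

end main

end ProjBL
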