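import Pool.Agent.Work.MP_dca501_an.Defs

/-!
# The Banach lattice `P(K, r)`
-/

namespace ProjBL

open Set Topology Filter

set_option linter.unusedSectionVars false

/-- A weight system on a space. -/
structure WSys (K : Type*) [TopologicalSpace K] where
  r : ℕ → C(K, ℝ)
  r0 : ∀ x, r 0 x = 1
  rn : ∀ n x, 0 ≤ r n x
  bd : ∀ x, ∃ M, ∀ n, r n x ≤ M

namespace WSys

variable {K : Type*} [TopologicalSpace K] (W : WSys K)

theorem summ {w : ℕ → ℝ} (h0 : ∀ n, 0 ≤ w n) (hs : Summable w) (x : K) :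
    Summable (fun n => w n * W.r n x) := by
  obtain ⟨M, hM⟩ := W.bd x
  refine Summable.of_nonneg_of_le (fun n => mul_nonneg (h0 n) (W.rn n x))
    (fun n => mul_le_mul_of_nonneg_left (hM n) (h0 n)) (hs.mul_right M)

/-- `f` is dominated with constant `c`. -/
def Dom (f : K → ℝ) (c : ℝ) : Prop :=
  ∃ w : ℕ → ℝ, (∀ n, 0 ≤ w n) ∧ Summable w ∧ ∑' n, w n ≤ c ∧ ∀ x, |f x| ≤ ∑' n, w n * W.r n x

variable {W}

theorem Dom.nonneg {f : K → ℝ} {c : ℝ} (h : W.Dom f c) : 0 ≤ c := by
  obtain ⟨w, h0, _, h2, _⟩ := h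
  exact (tsum_nonneg h0).trans h2

theorem Dom.mono {f g : K → ℝ} {c d : ℝ} (h : W.Dom g c) (hfg : ∀ x, |f x| ≤ |g x|)
    (hcd : c ≤ d) : W.Dom f d := by
  obtain ⟨w, h0, h1, h2, h3⟩ := h
  exact ⟨w, h0, h1, h2.trans hcd, fun x => (hfg x).trans (h3 x)⟩

theorem Dom.add_of {f g k : K → ℝ} {c d : ℝ} (h : W.Dom f c) (h' : W.Dom g d)
    (hk : ∀ x, |k x| ≤ |f x| + |g x|) : W.Dom k (c + d) := by
  obtain ⟨w, h0, h1, h2, h3⟩ := h
  obtain ⟨w', h0', h1', h2', h3'⟩ := h'
  refine ⟨fun n => w n + w' n, fun n => add_nonneg (h0 n) (h0' n), h1.add h1', ?_, fun x => ?_⟩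
  · rw [h1.tsum_add h1']; exact add_le_add h2 h2'
  · have e : (fun n => (w n + w' n) * W.r n x) = fun n => w n * W.r n x + w' n * W.r n x := by
      ext n; ring
    rw [e, (W.summ h0 h1 x).tsum_add (W.summ h0' h1' x)]
    exact (hk x).trans (add_le_add (h3 x) (h3' x))

theorem Dom.add {f g : K → ℝ} {c d : ℝ} (h : W.Dom f c) (h' : W.Dom g d) :
    W.Dom (f + g) (c + d) := h.add_of h' (fun _ => abs_add_le _ _)

theorem Dom.smul {f : K → ℝ} {c : ℝ} (h : W.Dom f c) (a : ℝ) : W.Dom (a • f) (|a| * c) := by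
  obtain ⟨w, h0, h1, h2, h3⟩ := h
  refine ⟨fun n => |a| * w n, fun n => mul_nonneg (abs_nonneg _) (h0 n), h1.mul_left _, ?_,
    fun x => ?_⟩
  · rw [tsum_mul_left]; exact mul_le_mul_of_nonneg_left h2 (abs_nonneg _)
  · have e : (fun n => |a| * w n * W.r n x) = fun n => |a| * (w n * W.r n x) := by
      ext n; ring
    rw [e, tsum_mul_left, Pi.smul_apply, smul_eq_mul, abs_mul]
    exact mul_le_mul_of_nonneg_left (h3 x) (abs_nonneg _)

theorem Dom.eval {f : K → ℝ} {c : ℝ} (h : W.Dom f c) {x : K} {M : ℝ} (hM : ∀ n, W.r n x ≤ M) :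
    |f x| ≤ M * c := by
  obtain ⟨w, h0, h1, h2, h3⟩ := h
  have hM0 : 0 ≤ M := (W.rn 0 x).trans (hM 0)
  refine (h3 x).trans ?_
  have : ∑' n, w n * W.r n x ≤ ∑' n, w n * M :=
    (W.summ h0 h1 x).tsum_le_tsum (fun n => mul_le_mul_of_nonneg_left (hM n) (h0 n))
      (h1.mul_right M)
  rw [tsum_mul_right] at this
  refine this.trans ?_
  rw [mul_comm]
  exact mul_le_mul_of_nonneg_left h2 hM0

variable (W)

theorem dom_single {f : K → ℝ} (n : ℕ) {c : ℝ} (hc : 0 ≤ c) (h : ∀ x, |f x| ≤ c * W.r n x) :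
    W.Dom f c := by
  classical
  refine ⟨fun k => if k = n then c else 0, fun k => by dsimp only; split_ifs <;> simp [hc], ?_, ?_, fun x => ?_⟩
  · exact summable_of_ne_finset_zero (s := {n}) (by intro b hb; simp at hb; simp [hb])
  · rw [tsum_ite_eq]
  · have e : (fun k => (if k = n then c else 0) * W.r k x) = fun k => if k = n then c * W.r k x
      else 0 := by
      ext k; split_ifs <;> simp
    rw [e, tsum_ite_eq]
    exact h x

theorem dom_zero : W.Dom 0 0 := W.dom_single 0 le_rfl (fun x => by simp)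

theorem dom_r (n : ℕ) : W.Dom (W.r n) 1 :=
  W.dom_single n zero_le_one (fun x => by rw [one_mul, abs_of_nonneg (W.rn n x)])

theorem dom_cont [CompactSpace K] (g : C(K, ℝ)) : W.Dom g ‖g‖ :=
  W.dom_single 0 (norm_nonneg _) (fun x => by
    rw [W.r0, mul_one, ← Real.norm_eq_abs]; exact g.norm_coe_le_norm x)

variable [CompactSpace K]

/-- the underlying subspace -/
def sub : Submodule ℝ (K → ℝ) where
  carrier := {f | ∀ ε > 0, ∃ g : C(K, ℝ), W.Dom (f - g) ε}
  zero_mem' := fun ε hε => ⟨0, W.dom_zero.mono (fun x => by simp) hε.le⟩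
  add_mem' := by
    intro f f' hf hf' ε hε
    obtain ⟨g, hg⟩ := hf (ε / 2) (by linarith)
    obtain ⟨g', hg'⟩ := hf' (ε / 2) (by linarith)
    refine ⟨g + g', (hg.add hg').mono (fun x => ?_) (by linarith)⟩
    simp only [Pi.sub_apply, Pi.add_apply, ContinuousMap.coe_add]
    rw [show f x + f' x - (g x + g' x) = f x - g x + (f' x - g' x) by ring]
  smul_mem' := by
    intro a f hf ε hε
    obtain ⟨g, hg⟩ := hf (ε / (|a| + 1)) (by positivity)
    refine ⟨a • g, (hg.smul a).mono (fun x => ?_) ?_⟩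
    · simp only [Pi.sub_apply, Pi.smul_apply, ContinuousMap.coe_smul, smul_eq_mul]
      rw [mul_sub]
    · rw [mul_div_assoc', div_le_iff₀ (by positivity)]
      nlinarith [abs_nonneg a]

theorem mem_sub {f : K → ℝ} : f ∈ W.sub ↔ ∀ ε > 0, ∃ g : C(K, ℝ), W.Dom (f - g) ε := Iff.rfl

theorem sup_mem {f f' : K → ℝ} (hf : f ∈ W.sub) (hf' : f' ∈ W.sub) : f ⊔ f' ∈ W.sub := by
  intro ε hε
  obtain ⟨g, hg⟩ := hf (ε / 2) (by linarith)
  obtain ⟨g', hg'⟩ := hf' (ε / 2) (by linarith)
  refine ⟨g ⊔ g', (hg.add_of hg' (k := f ⊔ f' - ⇑(g ⊔ g')) (fun x => ?_)).mono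
    (fun x => le_rfl) (by linarith)⟩
  simp only [Pi.sub_apply, Pi.sup_apply, ContinuousMap.coe_sup]
  exact (abs_max_sub_max_le_max _ _ _ _).trans
    (max_le (le_add_of_nonneg_right (abs_nonneg _)) (le_add_of_nonneg_left (abs_nonneg _)))

theorem inf_mem {f f' : K → ℝ} (hf : f ∈ W.sub) (hf' : f' ∈ W.sub) : f ⊓ f' ∈ W.sub := by
  have h := W.sub.neg_mem (W.sup_mem (W.sub.neg_mem hf) (W.sub.neg_mem hf'))
  have e : -(-f ⊔ -f') = f ⊓ f' := by
    rw [← neg_inf, neg_neg]
  rwa [e] at h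

/-- The Banach lattice `P(K, r)`. -/
def PSp (W : WSys K) : Type _ := W.sub

noncomputable instance : AddCommGroup W.PSp := inferInstanceAs (AddCommGroup W.sub)
noncomputable instance : Module ℝ W.PSp := inferInstanceAs (Module ℝ W.sub)
noncomputable instance : Lattice W.PSp :=
  Subtype.lattice (P := fun f : K → ℝ => f ∈ W.sub)
    (fun {_ _} hf hg => W.sup_mem hf hg) (fun {_ _} hf hg => W.inf_mem hf hg)

variable {W}

/-- the function underlying an element -/
def PSp.val (f : W.PSp) : K → ℝ := f.1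

/-- constructor -/
def PSp.mk (f : K → ℝ) (h : f ∈ W.sub) : W.PSp := ⟨f, h⟩

@[simp] theorem PSp.val_mk (f : K → ℝ) (h : f ∈ W.sub) (x : K) : (PSp.mk f h).val x = f x := rfl

theorem PSp.ext {f g : W.PSp} (h : ∀ x, f.val x = g.val x) : f = g :=
  Subtype.ext (funext h)

@[simp] theorem PSp.val_add (f g : W.PSp) (x : K) : (f + g).val x = f.val x + g.val x := rfl
@[simp] theorem PSp.val_sub (f g : W.PSp) (x : K) : (f - g).val x = f.val x - g.val x := rfl
@[simp] theorem PSp.val_neg (f : W.PSp) (x : K) : (-f).val x = -f.val x := rfl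
@[simp] theorem PSp.val_zero (x : K) : (0 : W.PSp).val x = 0 := rfl
@[simp] theorem PSp.val_smul (a : ℝ) (f : W.PSp) (x : K) : (a • f).val x = a * f.val x := rfl
@[simp] theorem PSp.val_sup (f g : W.PSp) (x : K) : (f ⊔ g).val x = f.val x ⊔ g.val x := rfl
@[simp] theorem PSp.val_inf (f g : W.PSp) (x : K) : (f ⊓ g).val x = f.val x ⊓ g.val x := rfl
@[simp] theorem PSp.val_abs (f : W.PSp) (x : K) : (|f|).val x = |f.val x| := rfl
theorem PSp.le_iff {f g : W.PSp} : f ≤ g ↔ ∀ x, f.val x ≤ g.val x := Iff.rfl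

instance : IsOrderedAddMonoid W.PSp where
  add_le_add_left f g h k := fun x => by
    have := PSp.le_iff.mp h x
    change f.val x + k.val x ≤ g.val x + k.val x
    linarith

instance : PosSMulMono ℝ W.PSp where
  smul_le_smul_of_nonneg_left a ha f g h := fun x => by
    change a * f.val x ≤ a * g.val x
    exact mul_le_mul_of_nonneg_left (h x) ha

theorem exists_dom (f : W.PSp) : ∃ c, W.Dom f.val c := by
  obtain ⟨g, hg⟩ := f.2 1 one_pos
  refine ⟨1 + ‖g‖, (hg.add (W.dom_cont g)).mono (fun x => ?_) le_rfl⟩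
  simp [PSp.val]

noncomputable instance : Norm W.PSp := ⟨fun f => sInf {c | W.Dom f.val c}⟩

theorem norm_def (f : W.PSp) : ‖f‖ = sInf {c | W.Dom f.val c} := rfl

theorem bddBelow_dom (f : K → ℝ) : BddBelow {c | W.Dom f c} := ⟨0, fun _ hc => Dom.nonneg hc⟩

theorem norm_le_of_dom {f : W.PSp} {c : ℝ} (h : W.Dom f.val c) : ‖f‖ ≤ c :=
  csInf_le (bddBelow_dom _) h

theorem exists_dom_lt {f : W.PSp} {c : ℝ} (h : ‖f‖ < c) : W.Dom f.val c := by
  obtain ⟨d, hd, hdc⟩ := exists_lt_of_csInf_lt (exists_dom f) h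
  exact Dom.mono hd (fun _ => le_rfl) hdc.le

theorem PSp.norm_nonneg' (f : W.PSp) : 0 ≤ ‖f‖ := Real.sInf_nonneg (fun _ hc => Dom.nonneg hc)

theorem PSp.eval_le (f : W.PSp) {x : K} {M : ℝ} (hM : ∀ n, W.r n x ≤ M) :
    |f.val x| ≤ M * ‖f‖ := by
  have hM0 : 0 ≤ M := (W.rn 0 x).trans (hM 0)
  refine le_of_forall_pos_le_add (fun ε hε => ?_)
  have hd : W.Dom f.val (‖f‖ + ε / (M + 1)) :=
    exists_dom_lt (lt_add_of_pos_right _ (by positivity))
  have := hd.eval hM
  have h2 : M * (ε / (M + 1)) ≤ ε := by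
    rw [mul_div_assoc', div_le_iff₀ (by positivity)]
    nlinarith
  linarith [mul_add M ‖f‖ (ε / (M + 1))]

theorem core : NormedSpace.Core ℝ W.PSp where
  norm_nonneg := PSp.norm_nonneg'
  norm_smul := by
    have key : ∀ (a : ℝ) (f : W.PSp), ‖a • f‖ ≤ |a| * ‖f‖ := by
      intro a f
      refine le_of_forall_pos_le_add (fun ε hε => ?_)
      have hd : W.Dom f.val (‖f‖ + ε / (|a| + 1)) :=
        exists_dom_lt (lt_add_of_pos_right _ (by positivity))
      have h1 : ‖a • f‖ ≤ |a| * (‖f‖ + ε / (|a| + 1)) := norm_le_of_dom (hd.smul a)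
      have h2 : |a| * (ε / (|a| + 1)) ≤ ε := by
        rw [mul_div_assoc', div_le_iff₀ (by positivity)]
        nlinarith [abs_nonneg a]
      linarith [mul_add |a| ‖f‖ (ε / (|a| + 1))]
    intro a f
    rw [Real.norm_eq_abs]
    refine le_antisymm (key a f) ?_
    rcases eq_or_ne a 0 with rfl | ha
    · rw [abs_zero, zero_mul]; exact PSp.norm_nonneg' _
    · have h1 := key a⁻¹ (a • f)
      rw [smul_smul, inv_mul_cancel₀ ha, one_smul, abs_inv] at h1
      have h2 : 0 < |a| := abs_pos.mpr ha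
      rw [← div_eq_inv_mul, le_div_iff₀ h2] at h1
      linarith [mul_comm ‖f‖ |a|]
  norm_triangle := by
    intro f g
    refine le_of_forall_pos_le_add (fun ε hε => ?_)
    have h1 : W.Dom f.val (‖f‖ + ε / 2) := exists_dom_lt (by linarith)
    have h2 : W.Dom g.val (‖g‖ + ε / 2) := exists_dom_lt (by linarith)
    have h3 : ‖f + g‖ ≤ ‖f‖ + ε / 2 + (‖g‖ + ε / 2) := norm_le_of_dom (h1.add h2)
    linarith
  norm_eq_zero_iff := by
    intro f
    constructor
    · intro h
      refine PSp.ext (fun x => ?_)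
      obtain ⟨M, hM⟩ := W.bd x
      have := f.eval_le hM
      rw [h, mul_zero] at this
      exact abs_eq_zero.mp (le_antisymm this (abs_nonneg _))
    · rintro rfl
      exact le_antisymm (norm_le_of_dom W.dom_zero) (PSp.norm_nonneg' _)

noncomputable instance : NormedAddCommGroup W.PSp := NormedAddCommGroup.ofCore core
noncomputable instance : NormedSpace ℝ W.PSp := NormedSpace.ofCore core

instance : HasSolidNorm W.PSp where
  solid := by
    intro f g h
    refine le_of_forall_pos_le_add (fun ε hε => ?_)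
    have h1 : W.Dom g.val (‖g‖ + ε) := exists_dom_lt (by linarith)
    exact norm_le_of_dom (h1.mono (fun x => PSp.le_iff.mp h x) le_rfl)

instance : CompleteSpace W.PSp := by
  refine NormedAddCommGroup.completeSpace_of_summable_imp_tendsto (fun u hu => ?_)
  -- dominating weights
  have hpos : ∀ n : ℕ, (0 : ℝ) < (1 / 2) ^ n := fun n => by positivity
  have hd : ∀ n, W.Dom (u n).val (‖u n‖ + (1 / 2) ^ n) := fun n =>
    exists_dom_lt (lt_add_of_pos_right _ (hpos n))
  set c : ℕ → ℝ := fun n => ‖u n‖ + (1 / 2) ^ n with hc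
  have hcs : Summable c := hu.add (summable_geometric_of_lt_one (by norm_num) (by norm_num))
  have hc0 : ∀ n, 0 ≤ c n := fun n => add_nonneg (norm_nonneg _) (hpos n).le
  choose w w0 w1 w2 w3 using hd
  -- joint summability
  have hW : Summable (fun p : ℕ × ℕ => w p.1 p.2) := by
    rw [summable_prod_of_nonneg (fun p => w0 p.1 p.2)]
    exact ⟨fun n => w1 n, Summable.of_nonneg_of_le (fun n => tsum_nonneg (w0 n)) w2 hcs⟩
  have hWx : ∀ x, Summable (fun p : ℕ × ℕ => w p.1 p.2 * W.r p.2 x) := by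
    intro x
    obtain ⟨M, hM⟩ := W.bd x
    exact Summable.of_nonneg_of_le (fun p => mul_nonneg (w0 _ _) (W.rn _ x))
      (fun p => mul_le_mul_of_nonneg_left (hM _) (w0 _ _)) (hW.mul_right M)
  have hsx : ∀ x, Summable (fun n => (u n).val x) := by
    intro x
    refine Summable.of_norm_bounded (g := fun n => ∑' m, w n m * W.r m x) ?_ (fun n => ?_)
    · exact (hWx x).prod
    · rw [Real.norm_eq_abs]; exact w3 n x
  -- tails
  have htail : ∀ N : ℕ, W.Dom (fun x => ∑' n, (u (n + N)).val x) (∑' n, c (n + N)) := by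
    intro N
    have hWN : Summable (fun p : ℕ × ℕ => w (p.1 + N) p.2) :=
      hW.comp_injective (i := fun p : ℕ × ℕ => (p.1 + N, p.2))
        (fun a b h => by
          simp only [Prod.mk.injEq, add_left_inj] at h
          exact Prod.ext h.1 h.2)
    have hWN' : Summable (fun p : ℕ × ℕ => w (p.2 + N) p.1) := hWN.prod_symm
    have hWNx : ∀ x, Summable (fun p : ℕ × ℕ => w (p.1 + N) p.2 * W.r p.2 x) := fun x =>
      (hWx x).comp_injective (i := fun p : ℕ × ℕ => (p.1 + N, p.2))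
        (fun a b h => by
          simp only [Prod.mk.injEq, add_left_inj] at h
          exact Prod.ext h.1 h.2)
    refine ⟨fun m => ∑' n, w (n + N) m, fun m => tsum_nonneg (fun n => w0 _ _), hWN'.prod, ?_, ?_⟩
    · have e1 : ∑' m, ∑' n, w (n + N) m = ∑' n, ∑' m, w (n + N) m := by
        rw [Summable.tsum_comm hWN]
      rw [e1]
      exact hWN.prod.tsum_le_tsum (fun n => w2 (n + N)) ((summable_nat_add_iff N).mpr hcs)
    · intro x
      have e2 : ∑' m, (∑' n, w (n + N) m) * W.r m x = ∑' n, ∑' m, w (n + N) m * W.r m x := by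
        rw [← Summable.tsum_comm (f := fun n m => w (n + N) m * W.r m x) (hWNx x)]
        congr 1; ext m
        rw [tsum_mul_right]
      rw [e2]
      have h4 : Summable (fun n => ∑' m, w (n + N) m * W.r m x) := (hWNx x).prod
      have h5 : Summable (fun n => ‖(u (n + N)).val x‖) := by
        refine Summable.of_nonneg_of_le (fun n => norm_nonneg _) (fun n => ?_) h4
        rw [Real.norm_eq_abs]; exact w3 _ x
      rw [← Real.norm_eq_abs]
      refine (norm_tsum_le_tsum_norm h5).trans ?_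
      refine h5.tsum_le_tsum (fun n => ?_) h4
      rw [Real.norm_eq_abs]; exact w3 _ x
  have htend : Tendsto (fun N => ∑' n, c (n + N)) atTop (𝓝 0) := tendsto_sum_nat_add c
  -- the limit function
  have hsplit : ∀ N x, ∑' n, (u n).val x = (∑ i ∈ Finset.range N, u i : W.PSp).val x
      + ∑' n, (u (n + N)).val x := by
    intro N x
    rw [← (hsx x).sum_add_tsum_nat_add N]
    congr 1
    induction N with
    | zero => simp
    | succ N ih => rw [Finset.sum_range_succ, Finset.sum_range_succ, PSp.val_add, ih]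
  have hmem : (fun x => ∑' n, (u n).val x) ∈ W.sub := by
    intro ε hε
    obtain ⟨N, hN⟩ := (htend.eventually (gt_mem_nhds (show (0 : ℝ) < ε / 2 by linarith))).exists
    obtain ⟨g, hg⟩ := (∑ i ∈ Finset.range N, u i : W.PSp).2 (ε / 2) (by linarith)
    refine ⟨g, (hg.add (htail N)).mono (fun x => ?_) (by linarith)⟩
    simp only [Pi.sub_apply, Pi.add_apply]
    rw [hsplit N x]
    apply le_of_eq
    congr 1
    change _ = (∑ i ∈ Finset.range N, u i : W.PSp).val x - g x + _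
    ring
  refine ⟨PSp.mk _ hmem, ?_⟩
  rw [tendsto_iff_norm_sub_tendsto_zero]
  refine squeeze_zero (fun N => norm_nonneg _) (fun N => ?_) htend
  rw [norm_sub_rev]
  refine norm_le_of_dom ((htail N).mono (fun x => ?_) le_rfl)
  rw [PSp.val_sub, PSp.val_mk, hsplit N x]
  simp

/-- continuous functions as elements of `P(K, r)` -/
def emb (W : WSys K) : C(K, ℝ) →ₗ[ℝ] W.PSp where
  toFun g := ⟨g, fun ε hε => ⟨g, W.dom_zero.mono (fun x => by simp) hε.le⟩⟩
  map_add' _ _ := rfl
  map_smul' _ _ := rfl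

@[simp] theorem emb_val (g : C(K, ℝ)) (x : K) : (W.emb g).val x = g x := rfl

theorem emb_sup (f g : C(K, ℝ)) : W.emb (f ⊔ g) = W.emb f ⊔ W.emb g := rfl

theorem emb_mono {f g : C(K, ℝ)} (h : f ≤ g) : W.emb f ≤ W.emb g := fun x => h x

theorem denseRange_emb : DenseRange W.emb := by
  intro f
  rw [Metric.mem_closure_iff]
  intro ε hε
  obtain ⟨g, hg⟩ := f.2 (ε / 2) (by linarith)
  refine ⟨_, ⟨g, rfl⟩, ?_⟩
  rw [dist_eq_norm]
  exact lt_of_le_of_lt (norm_le_of_dom (f := f - W.emb g) hg) (by linarith)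

theorem norm_emb_r (n : ℕ) : ‖W.emb (W.r n)‖ ≤ 1 := norm_le_of_dom (W.dom_r n)

theorem norm_emb_le (g : C(K, ℝ)) : ‖W.emb g‖ ≤ ‖g‖ := norm_le_of_dom (W.dom_cont g)

/-- finite domination of continuous functions -/
theorem exists_finite_dom {g : C(K, ℝ)} {c : ℝ} (h : W.Dom g c) {ε : ℝ} (hε : 0 < ε) :
    ∃ (w : ℕ → ℝ) (N : ℕ), (∀ n, 0 ≤ w n) ∧ ∑ n ∈ Finset.range N, w n ≤ c ∧
      ∀ x, |g x| ≤ ε + ∑ n ∈ Finset.range N, w n * W.r n x := by
  obtain ⟨w, w0, w1, w2, w3⟩ := h
  let U : ℕ → Set K := fun N => {x | |g x| < ε + ∑ n ∈ Finset.range N, w n * W.r n x}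
  have hU : ∀ N, IsOpen (U N) := fun N => by
    refine isOpen_lt g.continuous.abs ?_
    refine continuous_const.add (continuous_finsetSum _ (fun n _ => ?_))
    exact continuous_const.mul (W.r n).continuous
  have hmono : Monotone U := by
    intro a b hab x hx
    refine lt_of_lt_of_le (show |g x| < _ from hx) ?_
    gcongr
    exact fun n _ _ => mul_nonneg (w0 n) (W.rn n x)
  have hcov : univ ⊆ ⋃ N, U N := by
    intro x _
    have hs := (W.summ w0 w1 x).hasSum.tendsto_sum_nat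
    have h1 : |g x| < ε + ∑' n, w n * W.r n x := by linarith [w3 x]
    have h2 := (hs.const_add ε).eventually (lt_mem_nhds h1)
    obtain ⟨N, hN⟩ := h2.exists
    exact mem_iUnion.mpr ⟨N, hN⟩
  obtain ⟨N, hN⟩ := isCompact_univ.elim_directed_cover U hU hcov hmono.directed_le
  refine ⟨w, N, w0, (w1.sum_le_tsum _ (fun n _ => w0 n)).trans w2, fun x => ?_⟩
  exact le_of_lt (hN (mem_univ x))

end WSys

end ProjBL
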