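import Mathlib

/-!
# Planar auxiliary functions
-/

namespace ProjBL

open Set Topology Complex

/-- distance-like function to the segment `[-1/2, 1/2]`. -/
noncomputable def dd (z : ℂ) : ℝ := |z.im| + max 0 (|z.re| - 1 / 2)

/-- `del = 0` exactly on the segment `[-1/2,1/2]`, `del = 1` exactly outside the open disc. -/
noncomputable def del (z : ℂ) : ℝ := dd z / (dd z + max 0 (1 - ‖z‖))

/-- clamp `x + 1/2` to `[0,1]`. -/
noncomputable def cl (x : ℝ) : ℝ := max 0 (min 1 (x + 1 / 2))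

theorem dd_nonneg (z : ℂ) : 0 ≤ dd z := add_nonneg (abs_nonneg _) (le_max_left _ _)

theorem continuous_dd : Continuous dd := by
  unfold dd; fun_prop

theorem dd_eq_zero {z : ℂ} : dd z = 0 ↔ z.im = 0 ∧ |z.re| ≤ 1 / 2 := by
  unfold dd
  constructor
  · intro h
    have h1 := abs_nonneg z.im
    have h2 : 0 ≤ max 0 (|z.re| - 1 / 2) := le_max_left _ _
    have h3 : |z.im| = 0 := by linarith
    have h4 : max 0 (|z.re| - 1 / 2) = 0 := by linarith
    refine ⟨abs_eq_zero.mp h3, ?_⟩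
    have := le_max_right 0 (|z.re| - 1 / 2)
    linarith
  · rintro ⟨h1, h2⟩
    rw [h1, abs_zero, zero_add, max_eq_left]
    linarith

theorem norm_of_dd {z : ℂ} (h : dd z = 0) : ‖z‖ ≤ 1 / 2 := by
  obtain ⟨h1, h2⟩ := dd_eq_zero.mp h
  have : z = (z.re : ℂ) := by apply Complex.ext <;> simp [h1]
  rw [this, Complex.norm_real]; exact h2

theorem den_pos (z : ℂ) : 0 < dd z + max 0 (1 - ‖z‖) := by
  rcases (dd_nonneg z).eq_or_lt with h | h
  · have := norm_of_dd h.symm
    have h2 : 1 - ‖z‖ ≤ max 0 (1 - ‖z‖) := le_max_right _ _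
    linarith
  · have h2 : 0 ≤ max 0 (1 - ‖z‖) := le_max_left _ _
    linarith

theorem continuous_del : Continuous del := by
  unfold del
  exact continuous_dd.div (by have := continuous_dd; fun_prop) (fun z => (den_pos z).ne')

theorem del_nonneg (z : ℂ) : 0 ≤ del z := div_nonneg (dd_nonneg z) (den_pos z).le

theorem del_le_one (z : ℂ) : del z ≤ 1 := by
  unfold del
  rw [div_le_one (den_pos z)]
  have h2 : 0 ≤ max 0 (1 - ‖z‖) := le_max_left _ _
  linarith

theorem del_eq_zero {z : ℂ} : del z = 0 ↔ dd z = 0 := by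
  unfold del
  rw [div_eq_zero_iff]
  constructor
  · rintro (h | h)
    · exact h
    · exact absurd h (den_pos z).ne'
  · intro h; exact Or.inl h

theorem del_eq_one_of {z : ℂ} (h : ‖z‖ = 1) : del z = 1 := by
  have h1 : dd z + max 0 (1 - ‖z‖) = dd z := by rw [h]; simp
  unfold del
  rw [h1, div_self]
  rw [← h1]; exact (den_pos z).ne'

theorem norm_ge_of_del {z : ℂ} (h : del z = 1) : 1 ≤ ‖z‖ := by
  unfold del at h
  rw [div_eq_one_iff_eq (den_pos z).ne'] at h
  have h2 : 1 - ‖z‖ ≤ max 0 (1 - ‖z‖) := le_max_right _ _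
  linarith

theorem continuous_cl : Continuous cl := by unfold cl; fun_prop

theorem cl_mem (x : ℝ) : cl x ∈ Icc (0 : ℝ) 1 :=
  ⟨le_max_left _ _, max_le zero_le_one (min_le_left _ _)⟩

theorem cl_eq {x : ℝ} (h : |x| ≤ 1 / 2) : cl x = x + 1 / 2 := by
  obtain ⟨h1, h2⟩ := abs_le.mp h
  unfold cl
  rw [min_eq_right (by linarith), max_eq_right (by linarith)]

/-- radial retraction onto the closed unit disc -/
noncomputable def rad (z : ℂ) : ℂ := z / ((max 1 ‖z‖ : ℝ) : ℂ)

theorem continuous_rad : Continuous rad := by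
  unfold rad
  refine continuous_id.div (by fun_prop) (fun z => ?_)
  have : (0 : ℝ) < max 1 ‖z‖ := lt_of_lt_of_le one_pos (le_max_left _ _)
  exact_mod_cast this.ne'

theorem norm_rad (z : ℂ) : ‖rad z‖ ≤ 1 := by
  unfold rad
  have : (0 : ℝ) < max 1 ‖z‖ := lt_of_lt_of_le one_pos (le_max_left _ _)
  rw [norm_div, Complex.norm_real, Real.norm_of_nonneg this.le, div_le_one this]
  exact le_max_right _ _

theorem rad_eq {z : ℂ} (h : ‖z‖ ≤ 1) : rad z = z := by
  unfold rad
  rw [max_eq_left h]; simp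

theorem rad_re_nonneg {z : ℂ} (h : 0 ≤ z.re) : 0 ≤ (rad z).re := by
  unfold rad
  have : (0 : ℝ) < max 1 ‖z‖ := lt_of_lt_of_le one_pos (le_max_left _ _)
  rw [Complex.div_ofReal_re]
  exact div_nonneg h this.le

theorem rad_re_nonpos {z : ℂ} (h : z.re ≤ 0) : (rad z).re ≤ 0 := by
  unfold rad
  have : (0 : ℝ) < max 1 ‖z‖ := lt_of_lt_of_le one_pos (le_max_left _ _)
  rw [Complex.div_ofReal_re]
  exact div_nonpos_of_nonpos_of_nonneg h this.le

/-- the boundary loop -/
noncomputable def lp (t : ℝ) : ℂ := Complex.exp (2 * Real.pi * t * Complex.I)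

theorem continuous_lp : Continuous lp := by unfold lp; fun_prop

theorem norm_lp (t : ℝ) : ‖lp t‖ = 1 := by
  unfold lp
  have : (2 * Real.pi * t * Complex.I : ℂ) = ((2 * Real.pi * t : ℝ) : ℂ) * Complex.I := by
    push_cast; ring
  rw [this, Complex.norm_exp_ofReal_mul_I]

theorem lp_add_one (t : ℝ) : lp (t + 1) = lp t := by
  unfold lp
  rw [show (2 * Real.pi * ((t + 1 : ℝ) : ℂ) * Complex.I : ℂ)
    = 2 * Real.pi * t * Complex.I + 2 * Real.pi * Complex.I by push_cast; ring,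
    Complex.exp_add, Complex.exp_two_pi_mul_I, mul_one]

theorem lp_inj {s t : ℝ} (h : lp s = lp t) : ∃ n : ℤ, s - t = n := by
  unfold lp at h
  rw [Complex.exp_eq_exp_iff_exists_int] at h
  obtain ⟨n, hn⟩ := h
  refine ⟨n, ?_⟩
  have h2 : (2 * Real.pi * Complex.I : ℂ) ≠ 0 := Complex.two_pi_I_ne_zero
  have h3 : (2 * Real.pi * Complex.I : ℂ) * (s - t) = (2 * Real.pi * Complex.I) * n := by
    linear_combination hn
  have h4 := mul_left_cancel₀ h2 h3
  exact_mod_cast h4

theorem exists_lp {z : ℂ} (h : ‖z‖ = 1) : ∃ t, lp t = z := by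
  refine ⟨Complex.arg z / (2 * Real.pi), ?_⟩
  unfold lp
  have hpi : (Real.pi : ℂ) ≠ 0 := by exact_mod_cast Real.pi_ne_zero
  rw [show (2 * Real.pi * ((Complex.arg z / (2 * Real.pi) : ℝ) : ℂ) * Complex.I : ℂ)
    = Complex.arg z * Complex.I by push_cast; field_simp]
  have := Complex.norm_mul_exp_arg_mul_I z
  rw [h] at this
  simpa using this

end ProjBL
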