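import Pool.Agent.Work.MP_dca501_an.Ext
import Pool.Agent.Work.MP_dca501_an.Planar

/-!
# The stage spaces `M_h`
-/

namespace ProjBL

open Set Topology Complex

/-- A compact metric space with a loop `c` (periodic, injective modulo the period) and a height
function vanishing exactly on the loop. -/
structure Stage where
  M : Type
  [ms : MetricSpace M]
  [cs : CompactSpace M]
  c : ℝ → M
  hc : Continuous c
  hper : ∀ t, c (t + 1) = c t
  hinj : ∀ s t, c s = c t → ∃ n : ℤ, s - t = n
  ρ : M → ℝ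
  hρ : Continuous ρ
  hρ0 : ∀ x, 0 ≤ ρ x
  hρc : ∀ x, ρ x = 0 ↔ ∃ t, c t = x

attribute [instance] Stage.ms Stage.cs

/-- The first stage: the disc. -/
noncomputable def Stage.base : Stage where
  M := Metric.closedBall (0 : ℂ) 1
  c t := ⟨lp t, by rw [mem_closedBall_zero_iff, norm_lp]⟩
  hc := continuous_lp.subtype_mk (fun t => by rw [mem_closedBall_zero_iff, norm_lp])
  hper t := Subtype.ext (lp_add_one t)
  hinj s t h := lp_inj (congrArg Subtype.val h)
  ρ z := 1 - del z.1
  hρ := continuous_const.sub (continuous_del.comp continuous_subtype_val)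
  hρ0 z := by linarith [del_le_one z.1]
  hρc z := by
    constructor
    · intro h
      have h1 : del z.1 = 1 := by linarith
      have h2 : ‖z.1‖ ≤ 1 := mem_closedBall_zero_iff.mp z.2
      obtain ⟨t, ht⟩ := exists_lp (le_antisymm h2 (norm_ge_of_del h1))
      exact ⟨t, Subtype.ext ht⟩
    · rintro ⟨t, rfl⟩
      simp only
      rw [del_eq_one_of (norm_lp t)]; ring

namespace Stage

variable (S : Stage)

theorem ρ_c (t : ℝ) : S.ρ (S.c t) = 0 := (S.hρc _).mpr ⟨t, rfl⟩

/-- the raw map of the disc -/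
noncomputable def jraw (z : ℂ) : S.M × ℂ × ℝ := (S.c (cl z.re), (del z : ℂ) * z, del z)

theorem continuous_jraw : Continuous S.jraw := by
  unfold jraw
  refine (S.hc.comp (continuous_cl.comp Complex.continuous_re)).prodMk ?_
  refine Continuous.prodMk ?_ continuous_del
  exact (Complex.continuous_ofReal.comp continuous_del).mul continuous_id

/-- the carrier of the next stage -/
def carrier : Set (S.M × ℂ × ℝ) :=
  range (fun m : S.M => (m, (0 : ℂ), (0 : ℝ))) ∪ S.jraw '' Metric.closedBall (0 : ℂ) 1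

theorem isCompact_carrier : IsCompact S.carrier := by
  refine IsCompact.union ?_ ?_
  · exact isCompact_range (by fun_prop)
  · exact (isCompact_closedBall _ _).image S.continuous_jraw

/-- the type of the next stage -/
abbrev M' : Type := S.carrier

instance : CompactSpace S.M' := isCompact_iff_compactSpace.mp S.isCompact_carrier

/-- the map of the plane into the next stage -/
noncomputable def J (z : ℂ) : S.M' :=
  ⟨S.jraw (rad z), Or.inr ⟨rad z, by rw [mem_closedBall_zero_iff]; exact norm_rad z, rfl⟩⟩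

/-- the inclusion of the previous stage -/
def inc (m : S.M) : S.M' := ⟨(m, 0, 0), Or.inl ⟨m, rfl⟩⟩

/-- the retraction on the previous stage -/
def ret (p : S.M') : S.M := p.1.1

theorem continuous_J : Continuous S.J :=
  (S.continuous_jraw.comp continuous_rad).subtype_mk _

theorem continuous_inc : Continuous S.inc := Continuous.subtype_mk (by fun_prop) _

theorem continuous_ret : Continuous S.ret := continuous_fst.comp continuous_subtype_val

@[simp] theorem ret_inc (m : S.M) : S.ret (S.inc m) = m := rfl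

theorem ret_J {z : ℂ} (hz : ‖z‖ ≤ 1) : S.ret (S.J z) = S.c (cl z.re) := by
  simp [ret, J, jraw, rad_eq hz]

theorem exists_rep (p : S.M') : (∃ m, p = S.inc m) ∨ ∃ z : ℂ, ‖z‖ ≤ 1 ∧ p = S.J z := by
  obtain ⟨p, hp⟩ := p
  rcases hp with ⟨m, hm⟩ | ⟨z, hz, hz'⟩
  · exact Or.inl ⟨m, Subtype.ext hm.symm⟩
  · have hz1 : ‖z‖ ≤ 1 := by simpa using hz
    refine Or.inr ⟨z, hz1, Subtype.ext ?_⟩
    simp only [J, rad_eq hz1]
    exact hz'.symm

theorem J_eq_inc {z : ℂ} (hz : ‖z‖ ≤ 1) {m : S.M} :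
    S.J z = S.inc m ↔ dd z = 0 ∧ m = S.c (z.re + 1 / 2) := by
  constructor
  · intro h
    have h1 : S.jraw z = (m, 0, 0) := by
      have := congrArg Subtype.val h
      simpa [J, rad_eq hz, inc] using this
    have h2 : del z = 0 := congrArg (fun p : S.M × ℂ × ℝ => p.2.2) h1
    have h3 : S.c (cl z.re) = m := congrArg (fun p : S.M × ℂ × ℝ => p.1) h1
    have h4 := del_eq_zero.mp h2
    refine ⟨h4, ?_⟩
    rw [← h3, cl_eq (dd_eq_zero.mp h4).2]
  · rintro ⟨h4, h5⟩
    apply Subtype.ext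
    have h2 : del z = 0 := del_eq_zero.mpr h4
    simp only [J, rad_eq hz, inc, jraw]
    rw [h5, cl_eq (dd_eq_zero.mp h4).2, h2]
    simp

theorem J_eq_J {z w : ℂ} (hz : ‖z‖ ≤ 1) (hw : ‖w‖ ≤ 1) (h : S.J z = S.J w) :
    z = w ∨ (z = (1 / 2 : ℂ) ∧ w = -(1 / 2 : ℂ)) ∨ (z = -(1 / 2 : ℂ) ∧ w = (1 / 2 : ℂ)) := by
  have h1 : S.jraw z = S.jraw w := by
    have := congrArg Subtype.val h
    simpa [J, rad_eq hz, rad_eq hw] using this
  have h2 : del z = del w := congrArg (fun p : S.M × ℂ × ℝ => p.2.2) h1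
  have h3 : (del z : ℂ) * z = (del w : ℂ) * w := congrArg (fun p : S.M × ℂ × ℝ => p.2.1) h1
  have h4 : S.c (cl z.re) = S.c (cl w.re) := congrArg (fun p : S.M × ℂ × ℝ => p.1) h1
  by_cases h0 : del z = 0
  · obtain ⟨hz1, hz2⟩ := dd_eq_zero.mp (del_eq_zero.mp h0)
    obtain ⟨hw1, hw2⟩ := dd_eq_zero.mp (del_eq_zero.mp (h2 ▸ h0))
    rw [cl_eq hz2, cl_eq hw2] at h4
    obtain ⟨n, hn⟩ := S.hinj _ _ h4
    obtain ⟨a1, a2⟩ := abs_le.mp hz2
    obtain ⟨b1, b2⟩ := abs_le.mp hw2
    have n1 : (n : ℝ) ≤ 1 := by linarith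
    have n2 : (-1 : ℝ) ≤ n := by linarith
    have n1' : n ≤ 1 := by exact_mod_cast n1
    have n2' : -1 ≤ n := by exact_mod_cast n2
    have hn3 : n = 0 ∨ n = 1 ∨ n = -1 := by omega
    rcases hn3 with rfl | rfl | rfl
    · left
      apply Complex.ext
      · push_cast at hn; linarith
      · rw [hz1, hw1]
    · right; left
      push_cast at hn
      constructor
      · apply Complex.ext
        · norm_num; linarith
        · norm_num [hz1]
      · apply Complex.ext
        · norm_num; linarith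
        · norm_num [hw1]
    · right; right
      push_cast at hn
      constructor
      · apply Complex.ext
        · norm_num; linarith
        · norm_num [hz1]
      · apply Complex.ext
        · norm_num; linarith
        · norm_num [hw1]
  · left
    rw [← h2] at h3
    exact mul_left_cancel₀ (by exact_mod_cast h0) h3

theorem J_injOn {s : Set ℂ} (hs : ∀ z ∈ s, ‖z‖ ≤ 1)
    (h : ¬ ((1 / 2 : ℂ) ∈ s ∧ (-(1 / 2) : ℂ) ∈ s)) : InjOn S.J s := by
  intro z hz w hw hzw
  rcases S.J_eq_J (hs z hz) (hs w hw) hzw with h1 | ⟨h1, h2⟩ | ⟨h1, h2⟩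
  · exact h1
  · exact absurd ⟨h1 ▸ hz, h2 ▸ hw⟩ h
  · exact absurd ⟨h2 ▸ hw, h1 ▸ hz⟩ h

/-- the height of the next stage -/
def ρ' (p : S.M') : ℝ := 2 * S.ρ p.1.1 + 1 - p.1.2.2

theorem continuous_ρ' : Continuous S.ρ' := by
  unfold ρ'
  have h1 := S.hρ.comp (continuous_fst.comp (continuous_subtype_val (p := (· ∈ S.carrier))))
  have h2 : Continuous (fun p : S.M' => p.1.2.2) :=
    continuous_snd.comp (continuous_snd.comp continuous_subtype_val)
  exact ((continuous_const.mul h1).add continuous_const).sub h2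

@[simp] theorem ρ'_inc (m : S.M) : S.ρ' (S.inc m) = 2 * S.ρ m + 1 := by
  simp [ρ', inc]

theorem ρ'_J {z : ℂ} (hz : ‖z‖ ≤ 1) : S.ρ' (S.J z) = 1 - del z := by
  simp [ρ', J, jraw, rad_eq hz, S.ρ_c]

/-- The next stage: attach a disc along the segment `[-1/2,1/2]`. -/
noncomputable def next : Stage where
  M := S.M'
  c t := S.J (lp t)
  hc := S.continuous_J.comp continuous_lp
  hper t := by rw [lp_add_one]
  hinj s t h := by
    have hb : InjOn S.J (Metric.sphere (0 : ℂ) 1) := by
      refine S.J_injOn (fun z hz => (mem_sphere_zero_iff_norm.mp hz).le) ?_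
      rintro ⟨h1, -⟩
      rw [mem_sphere_zero_iff_norm] at h1
      norm_num at h1
    exact lp_inj (hb (mem_sphere_zero_iff_norm.mpr (norm_lp s))
      (mem_sphere_zero_iff_norm.mpr (norm_lp t)) h)
  ρ := S.ρ'
  hρ := S.continuous_ρ'
  hρ0 p := by
    rcases S.exists_rep p with ⟨m, rfl⟩ | ⟨z, hz, rfl⟩
    · rw [ρ'_inc]; linarith [S.hρ0 m]
    · rw [S.ρ'_J hz]; linarith [del_le_one z]
  hρc p := by
    constructor
    · intro h
      rcases S.exists_rep p with ⟨m, rfl⟩ | ⟨z, hz, rfl⟩
      · rw [ρ'_inc] at h; linarith [S.hρ0 m]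
      · rw [S.ρ'_J hz] at h
        obtain ⟨t, ht⟩ := exists_lp (le_antisymm hz (norm_ge_of_del (by linarith)))
        exact ⟨t, by rw [ht]⟩
    · rintro ⟨t, rfl⟩
      rw [S.ρ'_J (norm_lp t).le, del_eq_one_of (norm_lp t)]; ring

end Stage

/-- the stages -/
noncomputable def stage : ℕ → Stage
  | 0 => Stage.base
  | n + 1 => (stage n).next

end ProjBL
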