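import Pool.Agent.Work.MP_dca501_an.Control
import Pool.Agent.Work.MP_dca501_an.Lift

/-!
# The wedge of the stage spaces
-/

namespace ProjBL

open Set Topology Filter

universe u

/-- base points -/
noncomputable def bp (n : ℕ) : (stage n).M := (stage n).c 0

/-- The wedge `K` of all stage spaces, inside the product. -/
def WK : Type := {x : ∀ n, (stage n).M // ∀ i j, i ≠ j → x i = bp i ∨ x j = bp j}

instance : TopologicalSpace WK :=
  inferInstanceAs (TopologicalSpace {x : ∀ n, (stage n).M // ∀ i j, i ≠ j → x i = bp i ∨ x j = bp j})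

instance : T2Space WK :=
  inferInstanceAs (T2Space {x : ∀ n, (stage n).M // ∀ i j, i ≠ j → x i = bp i ∨ x j = bp j})

/-- coordinates -/
def WK.co (x : WK) (n : ℕ) : (stage n).M := x.1 n

theorem WK.continuous_co (n : ℕ) : Continuous (fun x : WK => x.co n) :=
  (continuous_apply n).comp continuous_subtype_val

theorem WK.ext {x y : WK} (h : ∀ n, x.co n = y.co n) : x = y := Subtype.ext (funext h)

instance : CompactSpace WK := by
  have h : IsClosed {x : ∀ n, (stage n).M | ∀ i j, i ≠ j → x i = bp i ∨ x j = bp j} := by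
    simp only [ofPred_forall]
    refine isClosed_iInter fun i => isClosed_iInter fun j => isClosed_iInter fun _ => ?_
    exact (isClosed_eq (continuous_apply i) continuous_const).union
      (isClosed_eq (continuous_apply j) continuous_const)
  exact isCompact_iff_compactSpace.mp h.isCompact

/-- the weight system -/
noncomputable def WW : WSys WK where
  r n := match n with
    | 0 => 1
    | n + 1 => ⟨fun x => (stage n).ρ (x.co n), (stage n).hρ.comp (WK.continuous_co n)⟩
  r0 _ := rfl
  rn n x := by
    cases n with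
    | zero => exact zero_le_one
    | succ n => exact (stage n).hρ0 _
  bd x := by
    classical
    by_cases h : ∃ i, x.co i ≠ bp i
    · obtain ⟨i, hi⟩ := h
      refine ⟨1 + (stage i).ρ (x.co i), fun n => ?_⟩
      cases n with
      | zero => change (1 : ℝ) ≤ _; linarith [(stage i).hρ0 (x.co i)]
      | succ n =>
        change (stage n).ρ (x.co n) ≤ _
        by_cases hn : n = i
        · subst hn; linarith
        · have h1 : x.co n = bp n := (x.2 n i hn).resolve_right hi
          rw [h1, bp, (stage n).ρ_c]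
          linarith [(stage i).hρ0 (x.co i)]
    · push Not at h
      refine ⟨1, fun n => ?_⟩
      cases n with
      | zero => exact le_rfl
      | succ n =>
        change (stage n).ρ (x.co n) ≤ _
        rw [h n, bp, (stage n).ρ_c]; exact zero_le_one

theorem WW_r_zero (x : WK) : WW.r 0 x = 1 := rfl

theorem WW_r_succ (n : ℕ) (x : WK) : WW.r (n + 1) x = (stage n).ρ (x.co n) := rfl

/-- Controlled extension for the wedge. -/
theorem CEP_wedge : CEP.{u} WW 4 := by
  classical
  intro L L' _ _ _ _ _ _ ι hι φ g hg0 hg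
  have hemb : IsClosedEmbedding ι := ι.continuous.isClosedEmbedding hι
  -- the truncated distances to the base points
  let t : ∀ i : ℕ, C(L', ℝ) := fun i =>
    ⟨fun l => min (dist ((φ l).co i) (bp i)) ((1 / 2) ^ i), by
      refine Continuous.min ?_ continuous_const
      exact ((WK.continuous_co i).comp φ.continuous).dist continuous_const⟩
  have hE : ∀ i, ∃ E : C(L, ℝ), ∀ l, E (ι l) = t i l := fun i => by
    obtain ⟨E, hE⟩ := ContinuousMap.exists_extension (Y := ℝ) hemb (t i)
    exact ⟨E, fun l => congrArg (fun f : C(L', ℝ) => f l) hE⟩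
  choose E hE using hE
  let e : ℕ → L → ℝ := fun i l => max 0 (min ((1 / 2) ^ i) (E i l))
  have hec : ∀ i, Continuous (e i) := fun i =>
    continuous_const.max (continuous_const.min (E i).continuous)
  have he0 : ∀ i l, 0 ≤ e i l := fun i l => le_max_left _ _
  have he1 : ∀ i l, e i l ≤ (1 / 2) ^ i := fun i l =>
    max_le (by positivity) (min_le_left _ _)
  have heι : ∀ i l, e i (ι l) = t i l := by
    intro i l
    have h0 : 0 ≤ t i l := le_min dist_nonneg (by positivity)
    have h1 : t i l ≤ (1 / 2) ^ i := min_le_right _ _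
    change max 0 (min ((1 / 2) ^ i) (E i (ι l))) = _
    rw [hE, min_eq_right h1, max_eq_right h0]
  have hgeo : Summable (fun i : ℕ => ((1 / 2 : ℝ)) ^ i) :=
    summable_geometric_of_lt_one (by norm_num) (by norm_num)
  have hes : ∀ l, Summable (fun i => e i l) := fun l =>
    Summable.of_nonneg_of_le (fun i => he0 i l) (fun i => he1 i l) hgeo
  let S : L → ℝ := fun l => ∑' i, e i l
  have hSc : Continuous S := continuous_tsum hec hgeo (fun i l => by
    rw [Real.norm_of_nonneg (he0 i l)]; exact he1 i l)
  let V : ℕ → Set L := fun i => {l | S l < 2 * e i l}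
  have hVo : ∀ i, IsOpen (V i) := fun i => isOpen_lt hSc (continuous_const.mul (hec i))
  have hVd : ∀ i j, i ≠ j → ∀ l, l ∉ V i ∨ l ∉ V j := by
    intro i j hij l
    by_contra hcon
    push Not at hcon
    obtain ⟨h1, h2⟩ := hcon
    have h3 : ∑ k ∈ {i, j}, e k l ≤ S l := (hes l).sum_le_tsum _ (fun k _ => he0 k l)
    rw [Finset.sum_pair hij] at h3
    have h1' : S l < 2 * e i l := h1
    have h2' : S l < 2 * e j l := h2
    linarith
  have ht_zero : ∀ i l, (φ l).co i = bp i → t i l = 0 := by
    intro i l h
    change min (dist ((φ l).co i) (bp i)) _ = 0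
    rw [h, dist_self]
    exact min_eq_left (by positivity)
  have ht_pos : ∀ i l, (φ l).co i ≠ bp i → 0 < t i l := fun i l h =>
    lt_min (dist_pos.mpr h) (by positivity)
  have hSι : ∀ i l, (φ l).co i ≠ bp i → S (ι l) = t i l := by
    intro i l h
    change ∑' k, e k (ι l) = _
    rw [tsum_eq_single i, heι]
    intro k hk
    rw [heι]
    exact ht_zero k l (((φ l).2 k i hk).resolve_right h)
  have hVι : ∀ i l, ι l ∉ V i → (φ l).co i = bp i := by
    intro i l h
    by_contra hne
    apply h
    change S (ι l) < 2 * e i (ι l)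
    rw [hSι i l hne, heι]
    linarith [ht_pos i l hne]
  -- the coordinatewise extension problem
  let Φ : ∀ i, L → (stage i).M := fun i => Function.extend ι (fun l => (φ l).co i) (fun _ => bp i)
  have hΦι : ∀ i l, Φ i (ι l) = (φ l).co i := fun i l => hι.extend_apply _ _ l
  have hΦV : ∀ i l, l ∉ V i → Φ i l = bp i := by
    intro i l hl
    by_cases h : ∃ l', ι l' = l
    · obtain ⟨l', rfl⟩ := h
      rw [hΦι]; exact hVι i l' hl
    · exact Function.extend_apply' _ _ _ h
  have hΦc : ∀ i, ContinuousOn (Φ i) (range ι ∪ (V i)ᶜ) := by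
    intro i
    refine ContinuousOn.union_of_isClosed ?_ ?_ hemb.isClosed_range (hVo i).isClosed_compl
    · have h1 : ContinuousOn (Φ i) (ι '' univ) := by
        rw [hemb.isInducing.continuousOn_image_iff]
        rw [continuousOn_univ]
        have : (Φ i) ∘ ι = fun l => (φ l).co i := funext (hΦι i)
        rw [this]
        exact (WK.continuous_co i).comp φ.continuous
      rwa [image_univ] at h1
    · exact continuousOn_const.congr (fun l hl => hΦV i l hl)
  have hΨ : ∀ i, ∃ ψ : L → (stage i).M, Continuous ψ ∧ EqOn ψ (Φ i) (range ι ∪ (V i)ᶜ) ∧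
      ∀ l, (stage i).ρ (ψ l) ≤ 4 * g (i + 1) l + 3 := fun i => by
    refine cep_stage i L (range ι ∪ (V i)ᶜ) (hemb.isClosed_range.union (hVo i).isClosed_compl)
      (Φ i) (hΦc i) (g (i + 1)) (g (i + 1)).continuous (hg0 _) ?_
    rintro l (⟨l', rfl⟩ | hl)
    · rw [hΦι, hg]; rfl
    · rw [hΦV i l hl, bp, (stage i).ρ_c]; exact hg0 _ _
  choose ψ hψc hψe hψb using hΨ
  have hψV : ∀ i l, l ∉ V i → ψ i l = bp i := fun i l hl => by
    rw [hψe i (Or.inr hl)]; exact hΦV i l hl
  have hmem : ∀ l, ∀ i j, i ≠ j → ψ i l = bp i ∨ ψ j l = bp j := fun l i j hij =>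
    (hVd i j hij l).imp (hψV i l) (hψV j l)
  refine ⟨⟨fun l => ⟨fun i => ψ i l, hmem l⟩,
    Continuous.subtype_mk (continuous_pi (fun i => hψc i)) _⟩, fun l => ?_, fun n l => ?_⟩
  · refine WK.ext (fun i => ?_)
    change ψ i (ι l) = (φ l).co i
    rw [hψe i (Or.inl ⟨l, rfl⟩), hΦι]
  · cases n with
    | zero =>
      change (1 : ℝ) ≤ _
      linarith [hg0 0 l]
    | succ n =>
      change (stage n).ρ (ψ n l) ≤ _
      linarith [hψb n l]

/-- The Banach lattice of the counterexample is isomorphically projective. -/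
theorem isomorphicallyProjective_wedge : IsomorphicallyProjective.{u} (PBL WW) :=
  isomorphicallyProjective_of_CEP WW (by norm_num) CEP_wedge

end ProjBL
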